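import Mathlib

-- part MP_bf8c07_an_h89.Lens
section

/-!
Geometry of two translated balls whose centres lie on a ray through the origin.
-/

set_option autoImplicit false
open MeasureTheory Set Metric

namespace Pool.Agent.MP_bf8c07_an_h89

/-- Euclidean space of dimension `n` -/
abbrev Sp (n : ℕ) := EuclideanSpace ℝ (Fin n)

/-- the point at height `ρ` on the first axis -/
noncomputable def ax (n : ℕ) (ρ : ℝ) : Sp (n + 1) := EuclideanSpace.single 0 ρ

/-- coordinates: first axis times its orthogonal complement -/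
def Psi (n : ℕ) (q : ℝ × Sp n) : Sp (n + 1) := WithLp.toLp 2 (Fin.cons q.1 (WithLp.ofLp q.2))

/-- volume of the unit ball -/
noncomputable def om (n : ℕ) : ℝ := (volume : Measure (Sp n)).real (ball 0 1)

lemma om_pos (n : ℕ) : 0 < om n :=
  ENNReal.toReal_pos (measure_ball_pos _ _ one_pos).ne' measure_ball_lt_top.ne

lemma vol_ball (n : ℕ) (x : Sp n) {r : ℝ} (hr : 0 < r) :
    (volume : Measure (Sp n)).real (ball x r) = r ^ n * om n := by
  rw [measureReal_def, Measure.addHaar_ball_of_pos _ x hr, ENNReal.toReal_mul,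
    ENNReal.toReal_ofReal (by positivity), finrank_euclideanSpace_fin]
  rfl

lemma vol_ball' (n : ℕ) (x : Sp n) {r : ℝ} (hr : 0 < r) :
    (volume : Measure (Sp n)) (ball x r) = ENNReal.ofReal (r ^ n * om n) := by
  rw [← vol_ball n x hr, ofReal_measureReal measure_ball_lt_top.ne]

lemma norm_ax (n : ℕ) (ρ : ℝ) : ‖ax n ρ‖ = |ρ| := by
  unfold ax; simp

lemma ax_smul (n : ℕ) (c ρ : ℝ) : c • ax n ρ = ax n (c * ρ) := by
  unfold ax
  ext i
  by_cases h : i = 0
  · subst h; simp
  · simp [h]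

lemma ax_sub (n : ℕ) (c ρ : ℝ) : ax n c - ax n ρ = ax n (c - ρ) := by
  unfold ax
  ext i
  by_cases h : i = 0
  · subst h; simp
  · simp [h]

lemma Psi_mp (n : ℕ) : MeasurePreserving (Psi n) (volume.prod volume) volume := by
  have h1 : MeasurePreserving (Prod.map (id : ℝ → ℝ) (@WithLp.ofLp 2 (Fin n → ℝ)))
      (volume.prod volume) (volume.prod volume) :=
    (MeasurePreserving.id _).prod (PiLp.volume_preserving_ofLp (Fin n))
  have h2 := (volume_preserving_piFinSuccAbove (fun _ : Fin (n + 1) => ℝ) 0).symm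
  have h3 := PiLp.volume_preserving_toLp (Fin (n + 1))
  have h4 := h3.comp (h2.comp h1)
  have h5 : Psi n = WithLp.toLp 2 ∘ ⇑(MeasurableEquiv.piFinSuccAbove (fun _ => ℝ) 0).symm ∘
      Prod.map id WithLp.ofLp := by
    funext q
    simp [Psi, MeasurableEquiv.piFinSuccAbove_symm_apply, Fin.insertNthEquiv]
  rw [h5]
  exact h4

lemma norm_sq_Psi_sub (n : ℕ) (a ρ : ℝ) (z : Sp n) :
    ‖Psi n (a, z) - ax n ρ‖ ^ 2 = (a - ρ) ^ 2 + ‖z‖ ^ 2 := by
  rw [EuclideanSpace.real_norm_sq_eq, EuclideanSpace.real_norm_sq_eq, Fin.sum_univ_succ]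
  simp [Psi, ax]

lemma norm_sq_Psi (n : ℕ) (a : ℝ) (z : Sp n) : ‖Psi n (a, z)‖ ^ 2 = a ^ 2 + ‖z‖ ^ 2 := by
  rw [EuclideanSpace.real_norm_sq_eq, EuclideanSpace.real_norm_sq_eq, Fin.sum_univ_succ]
  simp [Psi]

lemma mem_ball_Psi (n : ℕ) (a ρ : ℝ) (z : Sp n) {r : ℝ} (hr : 0 ≤ r) :
    Psi n (a, z) ∈ ball (ax n ρ) r ↔ (a - ρ) ^ 2 + ‖z‖ ^ 2 < r ^ 2 := by
  rw [mem_ball_iff_norm, ← norm_sq_Psi_sub, sq_lt_sq₀ (norm_nonneg _) hr]

lemma shear (n : ℕ) (X : Set (Sp (n + 1))) (hX : MeasurableSet X) (b : Sp n → ℝ) (ρ₁ ρ₂ : ℝ)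
    (Q : Set (ℝ × Sp n)) (hQ : MeasurableSet Q) (M : ENNReal)
    (h1 : ∀ a z, Psi n (a, z) ∈ X → (a - b z, z) ∈ Q)
    (h2 : ∀ ρ z, (ρ, z) ∈ Q → ρ ∈ Icc ρ₁ ρ₂)
    (h3 : ∀ ρ ∈ Icc ρ₁ ρ₂, volume {z | (ρ, z) ∈ Q} ≤ M) :
    volume X ≤ ENNReal.ofReal (ρ₂ - ρ₁) * M := by
  rw [← (Psi_mp n).measure_preimage hX.nullMeasurableSet,
    Measure.prod_apply_symm ((Psi_mp n).measurable hX)]
  have h4 : ∫⁻ z, volume ((fun a => (a, z)) ⁻¹' (Psi n ⁻¹' X)) ≤
      ∫⁻ z, volume ((fun a => (a, z)) ⁻¹' Q) := by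
    refine lintegral_mono fun z => ?_
    rw [← measure_preimage_add_right volume (-b z) ((fun a => (a, z)) ⁻¹' Q)]
    refine measure_mono fun a ha => ?_
    have := h1 a z ha
    simpa [sub_eq_add_neg] using this
  refine h4.trans ?_
  rw [← Measure.prod_apply_symm hQ, Measure.prod_apply hQ]
  have h5 : ∫⁻ ρ, volume (Prod.mk ρ ⁻¹' Q) ≤ ∫⁻ ρ, (Icc ρ₁ ρ₂).indicator (fun _ => M) ρ := by
    refine lintegral_mono fun ρ => ?_
    by_cases h : ρ ∈ Icc ρ₁ ρ₂
    · rw [indicator_of_mem h]; exact h3 ρ h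
    · have : Prod.mk ρ ⁻¹' Q = ∅ := eq_empty_of_forall_notMem fun z hz => h (h2 ρ z hz)
      simp [this]
  refine h5.trans ?_
  rw [lintegral_indicator_const measurableSet_Icc, Real.volume_Icc, mul_comm]

/-- half chord length -/
noncomputable def chord (n : ℕ) (r : ℝ) (z : Sp n) : ℝ := √(r ^ 2 - ‖z‖ ^ 2)

lemma continuous_chord (n : ℕ) (r : ℝ) : Continuous (chord n r) := by
  unfold chord; fun_prop

lemma chord_front {n : ℕ} {r ρ₁ ρ₂ a : ℝ} {z : Sp n} (hr : 0 < r) (h : ρ₁ ≤ ρ₂)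
    (hy : Psi n (a, z) ∈ ball (ax n ρ₂) r \ ball (ax n ρ₁) r) :
    ‖z‖ < r ∧ a - chord n r z ∈ Icc ρ₁ ρ₂ := by
  obtain ⟨h1, h2⟩ := hy
  rw [mem_ball_Psi n _ _ _ hr.le] at h1 h2
  have h3 : ‖z‖ ^ 2 < r ^ 2 := by nlinarith [sq_nonneg (a - ρ₂)]
  have h4 : chord n r z ^ 2 = r ^ 2 - ‖z‖ ^ 2 := Real.sq_sqrt (by linarith)
  have h5 : 0 ≤ chord n r z := Real.sqrt_nonneg _
  have h6 : |a - ρ₂| < chord n r z := abs_lt_of_sq_lt_sq (by linarith) h5
  have h7 : chord n r z ≤ |a - ρ₁| := by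
    by_contra hc
    have := sq_lt_sq' (by linarith [abs_nonneg (a - ρ₁)]) (not_le.1 hc)
    rw [sq_abs] at this
    exact h2 (by linarith)
  have h8 := abs_lt.1 h6
  refine ⟨lt_of_pow_lt_pow_left₀ 2 hr.le h3, ?_, by linarith [h8.2]⟩
  rcases le_abs.1 h7 with h9 | h9 <;> linarith [h8.1]

lemma chord_back {n : ℕ} {r ρ₁ ρ₂ a : ℝ} {z : Sp n} (hr : 0 < r) (h : ρ₁ ≤ ρ₂)
    (hy : Psi n (a, z) ∈ ball (ax n ρ₁) r \ ball (ax n ρ₂) r) :
    ‖z‖ < r ∧ a - -chord n r z ∈ Icc ρ₁ ρ₂ := by
  obtain ⟨h1, h2⟩ := hy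
  rw [mem_ball_Psi n _ _ _ hr.le] at h1 h2
  have h3 : ‖z‖ ^ 2 < r ^ 2 := by nlinarith [sq_nonneg (a - ρ₁)]
  have h4 : chord n r z ^ 2 = r ^ 2 - ‖z‖ ^ 2 := Real.sq_sqrt (by linarith)
  have h5 : 0 ≤ chord n r z := Real.sqrt_nonneg _
  have h6 : |a - ρ₁| < chord n r z := abs_lt_of_sq_lt_sq (by linarith) h5
  have h7 : chord n r z ≤ |a - ρ₂| := by
    by_contra hc
    have := sq_lt_sq' (by linarith [abs_nonneg (a - ρ₂)]) (not_le.1 hc)
    rw [sq_abs] at this
    exact h2 (by linarith)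
  have h8 := abs_lt.1 h6
  refine ⟨lt_of_pow_lt_pow_left₀ 2 hr.le h3, by linarith [h8.1], ?_⟩
  rcases le_abs.1 h7 with h9 | h9 <;> linarith [h8.2]

/-- volume of the difference of two translated balls -/
lemma vol_diff_le (n : ℕ) {r : ℝ} (hr : 0 < r) (ρ₁ ρ₂ : ℝ) :
    (volume : Measure (Sp (n + 1))).real (ball (ax n ρ₂) r \ ball (ax n ρ₁) r) ≤
      |ρ₂ - ρ₁| * (r ^ n * om n) := by
  have hb : ∀ ρ ∈ Icc (min ρ₁ ρ₂) (max ρ₁ ρ₂),
      volume {z : Sp n | (ρ, z) ∈ Icc (min ρ₁ ρ₂) (max ρ₁ ρ₂) ×ˢ ball (0 : Sp n) r} ≤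
        ENNReal.ofReal (r ^ n * om n) := by
    intro ρ _
    rw [← vol_ball' n 0 hr]
    exact measure_mono fun z hz => hz.2
  have key : (volume : Measure (Sp (n + 1))) (ball (ax n ρ₂) r \ ball (ax n ρ₁) r) ≤
      ENNReal.ofReal (max ρ₁ ρ₂ - min ρ₁ ρ₂) * ENNReal.ofReal (r ^ n * om n) := by
    rcases le_total ρ₁ ρ₂ with h | h
    · refine shear n _ (measurableSet_ball.diff measurableSet_ball) (chord n r) _ _ _
        (measurableSet_Icc.prod measurableSet_ball) _ (fun a z hy => ?_) (fun ρ z hz => hz.1) hb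
      obtain ⟨h1, h2⟩ := chord_front hr h hy
      rw [min_eq_left h, max_eq_right h]
      exact ⟨h2, by simpa using h1⟩
    · refine shear n _ (measurableSet_ball.diff measurableSet_ball) (fun z => -chord n r z) _ _ _
        (measurableSet_Icc.prod measurableSet_ball) _ (fun a z hy => ?_) (fun ρ z hz => hz.1) hb
      obtain ⟨h1, h2⟩ := chord_back hr h hy
      rw [min_eq_right h, max_eq_left h]
      exact ⟨h2, by simpa using h1⟩
  rw [max_sub_min_eq_abs, ← ENNReal.ofReal_mul (abs_nonneg _)] at key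
  exact ENNReal.toReal_le_of_le_ofReal (by have := om_pos n; positivity) key

lemma vol_shell_le (n : ℕ) {r : ℝ} (hr : 0 < r) (β₀ γ : ℝ) :
    volume {z : Sp (n + 1) | ‖z‖ < r ∧ β₀ ≤ chord (n + 1) r z ∧ chord (n + 1) r z ≤ β₀ + γ} ≤
      ENNReal.ofReal ((n + 1) * r ^ n * √(2 * r * γ) * om (n + 1)) := by
  set b₁ := max β₀ 0 with hb₁
  set b₂ := min (β₀ + γ) r with hb₂
  by_cases hb : b₁ ≤ b₂
  swap
  · have : {z : Sp (n + 1) | ‖z‖ < r ∧ β₀ ≤ chord (n + 1) r z ∧ chord (n + 1) r z ≤ β₀ + γ} = ∅ := by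
      refine eq_empty_of_forall_notMem fun z hz => hb ?_
      have h1 : chord (n + 1) r z ≤ r := by
        unfold chord
        rw [Real.sqrt_le_left hr.le]
        nlinarith [sq_nonneg ‖z‖]
      exact (max_le hz.2.1 (Real.sqrt_nonneg _)).trans (le_min hz.2.2 h1)
    simp [this]
  have hb10 : 0 ≤ b₁ := le_max_right _ _
  have hb2r : b₂ ≤ r := min_le_right _ _
  have hb12 : b₂ - b₁ ≤ γ := by
    have h1 : b₂ ≤ β₀ + γ := min_le_left _ _
    have h2 : β₀ ≤ b₁ := le_max_left _ _
    linarith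
  set a₁ := √(r ^ 2 - b₁ ^ 2) with ha₁
  set a₂ := √(r ^ 2 - b₂ ^ 2) with ha₂
  have e1 : a₁ ^ 2 = r ^ 2 - b₁ ^ 2 := Real.sq_sqrt (by nlinarith)
  have e2 : a₂ ^ 2 = r ^ 2 - b₂ ^ 2 := Real.sq_sqrt (by nlinarith)
  have p1 : 0 ≤ a₁ := Real.sqrt_nonneg _
  have p2 : 0 ≤ a₂ := Real.sqrt_nonneg _
  have p21 : a₂ ≤ a₁ := Real.sqrt_le_sqrt (by nlinarith)
  have p1r : a₁ ≤ r := by rw [ha₁, Real.sqrt_le_left hr.le]; nlinarith
  have hsub : {z : Sp (n + 1) | ‖z‖ < r ∧ β₀ ≤ chord (n + 1) r z ∧ chord (n + 1) r z ≤ β₀ + γ} ⊆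
      closedBall 0 a₁ \ ball 0 a₂ := by
    intro z hz
    have h0 : 0 ≤ chord (n + 1) r z := Real.sqrt_nonneg _
    have h3 : ‖z‖ ^ 2 < r ^ 2 := by nlinarith [hz.1, norm_nonneg z]
    have h4 : chord (n + 1) r z ^ 2 = r ^ 2 - ‖z‖ ^ 2 := Real.sq_sqrt (by linarith)
    have h1 : chord (n + 1) r z ≤ r := by nlinarith [sq_nonneg ‖z‖]
    have h5 : b₁ ≤ chord (n + 1) r z := max_le hz.2.1 h0
    have h6 : chord (n + 1) r z ≤ b₂ := le_min hz.2.2 h1
    constructor
    · rw [mem_closedBall_zero_iff]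
      exact Real.le_sqrt_of_sq_le (by nlinarith)
    · rw [mem_ball_zero_iff, not_lt]
      exact Real.sqrt_le_iff.2 ⟨norm_nonneg _, by nlinarith⟩
  refine (measure_mono hsub).trans ?_
  have hv1 : (volume : Measure (Sp (n + 1))) (closedBall 0 a₁) =
      ENNReal.ofReal (a₁ ^ (n + 1) * om (n + 1)) := by
    rw [Measure.addHaar_closedBall _ _ p1, finrank_euclideanSpace_fin,
      ENNReal.ofReal_mul (by positivity), om, ofReal_measureReal measure_ball_lt_top.ne]
  have hv2 : (volume : Measure (Sp (n + 1))) (ball 0 a₂) =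
      ENNReal.ofReal (a₂ ^ (n + 1) * om (n + 1)) := by
    rw [Measure.addHaar_ball _ _ p2, finrank_euclideanSpace_fin,
      ENNReal.ofReal_mul (by positivity), om, ofReal_measureReal measure_ball_lt_top.ne]
  rw [measure_sdiff (ball_subset_closedBall.trans (closedBall_subset_closedBall p21))
    measurableSet_ball.nullMeasurableSet measure_ball_lt_top.ne, hv1, hv2,
    ← ENNReal.ofReal_sub _ (by have := om_pos (n + 1); positivity)]
  refine ENNReal.ofReal_le_ofReal ?_
  rw [← sub_mul]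
  refine mul_le_mul_of_nonneg_right ?_ (om_pos _).le
  have h1 := abs_pow_sub_pow_le a₁ a₂ (n + 1)
  rw [abs_of_nonneg p1, abs_of_nonneg p2, max_eq_left p21, abs_of_nonneg (sub_nonneg.2 p21),
    Nat.add_sub_cancel] at h1
  have h2 : a₁ - a₂ ≤ √(2 * r * γ) := Real.le_sqrt_of_sq_le (by nlinarith)
  have h3 : a₁ ^ n ≤ r ^ n := pow_le_pow_left₀ p1 p1r n
  calc a₁ ^ (n + 1) - a₂ ^ (n + 1) ≤ (a₁ - a₂) * ((n + 1 : ℕ) : ℝ) * a₁ ^ n :=
        (le_abs_self _).trans h1
    _ ≤ √(2 * r * γ) * ((n + 1 : ℕ) : ℝ) * r ^ n := by gcongr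
    _ = _ := by push_cast; ring

/-- Hoelder bound for the part of the symmetric difference inside a thin annulus -/
lemma vol_diff_annulus_le (n : ℕ) {r c t t' : ℝ} (hr : 0 < r) (hc : 0 < c) (ρ₁ ρ₂ : ℝ)
    (h₁ : c ≤ ρ₁) (h₂ : c ≤ ρ₂) (ht : 0 ≤ t) (htt : t ≤ t') (ht' : t' ≤ 6 * c) :
    (volume : Measure (Sp (n + 2))).real ((ball (ax (n + 1) ρ₂) r \ ball (ax (n + 1) ρ₁) r) ∩
      {y | t ≤ ‖y‖ ∧ ‖y‖ < t'}) ≤
      |ρ₂ - ρ₁| * ((n + 1) * r ^ n * √(2 * r * (6 * (t' - t))) * om (n + 1)) := by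
  have hm : MeasurableSet ((ball (ax (n + 1) ρ₂) r \ ball (ax (n + 1) ρ₁) r) ∩
      {y : Sp (n + 2) | t ≤ ‖y‖ ∧ ‖y‖ < t'}) :=
    (measurableSet_ball.diff measurableSet_ball).inter
      ((measurableSet_le measurable_const measurable_norm).inter
        (measurableSet_lt measurable_norm measurable_const))
  have gen : ∀ σ : ℝ, σ = 1 ∨ σ = -1 →
      (∀ a z, Psi (n + 1) (a, z) ∈ ball (ax (n + 1) ρ₂) r \ ball (ax (n + 1) ρ₁) r →
        ‖z‖ < r ∧ a - σ * chord (n + 1) r z ∈ Icc (min ρ₁ ρ₂) (max ρ₁ ρ₂)) →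
      (volume : Measure (Sp (n + 2))) ((ball (ax (n + 1) ρ₂) r \ ball (ax (n + 1) ρ₁) r) ∩
        {y | t ≤ ‖y‖ ∧ ‖y‖ < t'}) ≤ ENNReal.ofReal (max ρ₁ ρ₂ - min ρ₁ ρ₂) *
        ENNReal.ofReal ((n + 1) * r ^ n * √(2 * r * (6 * (t' - t))) * om (n + 1)) := by
    intro σ hσ hy
    have hσ2 : σ ^ 2 = 1 := by rcases hσ with h | h <;> rw [h] <;> norm_num
    refine shear (n + 1) _ hm (fun z => σ * chord (n + 1) r z) _ _
      {q : ℝ × Sp (n + 1) | q.1 ∈ Icc (min ρ₁ ρ₂) (max ρ₁ ρ₂) ∧ ‖q.2‖ < r ∧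
        t ^ 2 ≤ q.1 ^ 2 + 2 * q.1 * (σ * chord (n + 1) r q.2) + r ^ 2 ∧
        q.1 ^ 2 + 2 * q.1 * (σ * chord (n + 1) r q.2) + r ^ 2 ≤ t' ^ 2} ?_ _ ?_
      (fun ρ z hz => hz.1) ?_
    · have hch := continuous_chord (n + 1) r
      have c1 : Continuous fun q : ℝ × Sp (n + 1) =>
          q.1 ^ 2 + 2 * q.1 * (σ * chord (n + 1) r q.2) + r ^ 2 := by fun_prop
      exact (measurableSet_Icc.preimage measurable_fst).inter
        ((measurableSet_lt (measurable_norm.comp measurable_snd) measurable_const).inter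
          ((measurableSet_le measurable_const c1.measurable).inter
            (measurableSet_le c1.measurable measurable_const)))
    · intro a z hz
      obtain ⟨h1, h2⟩ := hy a z hz.1
      have h3 : ‖z‖ ^ 2 < r ^ 2 := by nlinarith [norm_nonneg z]
      have h4 : chord (n + 1) r z ^ 2 = r ^ 2 - ‖z‖ ^ 2 := Real.sq_sqrt (by linarith)
      have h5 := norm_sq_Psi (n + 1) a z
      have h6 : (a - σ * chord (n + 1) r z) ^ 2 +
          2 * (a - σ * chord (n + 1) r z) * (σ * chord (n + 1) r z) + r ^ 2 =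
          ‖Psi (n + 1) (a, z)‖ ^ 2 := by
        rw [h5]
        have : (σ * chord (n + 1) r z) ^ 2 = r ^ 2 - ‖z‖ ^ 2 := by rw [mul_pow, hσ2, h4, one_mul]
        nlinarith
      refine ⟨h2, h1, ?_, ?_⟩
      · simp only
        rw [h6]
        exact pow_le_pow_left₀ ht hz.2.1 2
      · simp only
        rw [h6]
        exact pow_le_pow_left₀ (norm_nonneg _) hz.2.2.le 2
    · intro ρ hρ
      have hρc : c ≤ ρ := (le_min h₁ h₂).trans hρ.1
      have hρ0 : 0 < ρ := hc.trans_le hρc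
      set g := (t ^ 2 - ρ ^ 2 - r ^ 2) / (2 * ρ) with hg
      have hgρ : g * (2 * ρ) = t ^ 2 - ρ ^ 2 - r ^ 2 := by rw [hg]; field_simp
      have hγ : t' ^ 2 - t ^ 2 ≤ 6 * (t' - t) * (2 * ρ) := by nlinarith
      have hint : ∀ z : Sp (n + 1),
          t ^ 2 ≤ ρ ^ 2 + 2 * ρ * (σ * chord (n + 1) r z) + r ^ 2 →
          ρ ^ 2 + 2 * ρ * (σ * chord (n + 1) r z) + r ^ 2 ≤ t' ^ 2 →
          g ≤ σ * chord (n + 1) r z ∧ σ * chord (n + 1) r z ≤ g + 6 * (t' - t) := by
        intro z h1 h2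
        constructor
        · refine le_of_mul_le_mul_right ?_ (by linarith : 0 < 2 * ρ)
          nlinarith
        · refine le_of_mul_le_mul_right ?_ (by linarith : 0 < 2 * ρ)
          nlinarith
      rcases hσ with h | h
      · refine le_trans (measure_mono fun z hz => ?_)
          (vol_shell_le n hr g (6 * (t' - t)))
        have := hint z hz.2.2.1 hz.2.2.2
        rw [h, one_mul] at this
        exact ⟨hz.2.1, this⟩
      · refine le_trans (measure_mono fun z hz => ?_)
          (vol_shell_le n hr (-g - 6 * (t' - t)) (6 * (t' - t)))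
        have := hint z hz.2.2.1 hz.2.2.2
        rw [h] at this
        exact ⟨hz.2.1, by linarith [this.2], by linarith [this.1]⟩
  have key : (volume : Measure (Sp (n + 2))) ((ball (ax (n + 1) ρ₂) r \ ball (ax (n + 1) ρ₁) r) ∩
        {y | t ≤ ‖y‖ ∧ ‖y‖ < t'}) ≤ ENNReal.ofReal (max ρ₁ ρ₂ - min ρ₁ ρ₂) *
        ENNReal.ofReal ((n + 1) * r ^ n * √(2 * r * (6 * (t' - t))) * om (n + 1)) := by
    rcases le_total ρ₁ ρ₂ with h | h
    · refine gen 1 (Or.inl rfl) fun a z hy => ?_
      rw [min_eq_left h, max_eq_right h, one_mul]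
      exact chord_front hr h hy
    · refine gen (-1) (Or.inr rfl) fun a z hy => ?_
      rw [min_eq_right h, max_eq_left h, neg_one_mul]
      exact chord_back hr h hy
  rw [max_sub_min_eq_abs, ← ENNReal.ofReal_mul (abs_nonneg _)] at key
  exact ENNReal.toReal_le_of_le_ofReal (by have := om_pos (n + 1); positivity) key

/-- reflection: the front part of the symmetric difference is further from the origin -/
lemma vol_reflect (n : ℕ) {r : ℝ} (hr : 0 < r) {ρ₁ ρ₂ : ℝ} (h₁ : 0 ≤ ρ₁) (h : ρ₁ ≤ ρ₂) (t : ℝ) :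
    (volume : Measure (Sp (n + 1))).real
        ((ball (ax n ρ₁) r \ ball (ax n ρ₂) r) ∩ {y | t ≤ ‖y‖}) ≤
      (volume : Measure (Sp (n + 1))).real
        ((ball (ax n ρ₂) r \ ball (ax n ρ₁) r) ∩ {y | t ≤ ‖y‖}) := by
  have hm : ∀ a b : ℝ, MeasurableSet ((ball (ax n a) r \ ball (ax n b) r) ∩
      {y : Sp (n + 1) | t ≤ ‖y‖}) := fun a b =>
    (measurableSet_ball.diff measurableSet_ball).inter
      (measurableSet_le measurable_const measurable_norm)
  refine ENNReal.toReal_mono ((measure_mono (inter_subset_left.trans sdiff_subset)).trans_lt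
    measure_ball_lt_top).ne ?_
  have hσ : MeasurePreserving (Prod.map (fun a : ℝ => (ρ₁ + ρ₂) - a) (id : Sp n → Sp n))
      (volume.prod volume) (volume.prod volume) :=
    (Measure.measurePreserving_sub_left volume (ρ₁ + ρ₂)).prod (MeasurePreserving.id _)
  rw [← (Psi_mp n).measure_preimage (hm ρ₁ ρ₂).nullMeasurableSet,
    ← ((Psi_mp n).comp hσ).measure_preimage (hm ρ₂ ρ₁).nullMeasurableSet]
  refine measure_mono ?_
  rintro ⟨a, z⟩ ⟨⟨h1, h2⟩, h3⟩
  rw [mem_ball_Psi n _ _ _ hr.le] at h1 h2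
  have h4 : a < (ρ₁ + ρ₂) / 2 ∨ ρ₁ = ρ₂ := by
    rcases eq_or_lt_of_le h with h5 | h5
    · exact Or.inr h5
    · left; nlinarith
  rcases h4 with h4 | h4
  swap
  · exact absurd (h4 ▸ h1) h2
  refine ⟨⟨?_, ?_⟩, ?_⟩
  · change Psi n (ρ₁ + ρ₂ - a, z) ∈ _
    rw [mem_ball_Psi n _ _ _ hr.le]; nlinarith
  · change Psi n (ρ₁ + ρ₂ - a, z) ∉ _
    rw [mem_ball_Psi n _ _ _ hr.le]; intro h5; exact h2 (by nlinarith)
  · change t ≤ ‖Psi n (ρ₁ + ρ₂ - a, z)‖
    refine le_trans h3 ?_
    refine le_of_sq_le_sq (b := ‖Psi n (ρ₁ + ρ₂ - a, z)‖) ?_ (norm_nonneg _)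
    rw [norm_sq_Psi, norm_sq_Psi]
    nlinarith

end Pool.Agent.MP_bf8c07_an_h89

end

-- part MP_bf8c07_an_h89.Avg
section

/-!
Ball averages of radial functions.
-/

set_option autoImplicit false
open MeasureTheory Set Metric
open scoped Pointwise

namespace Pool.Agent.MP_bf8c07_an_h89

/-- average of the radial function with profile `F` over the ball of radius `r` centred at
height `ρ` on the first axis -/
noncomputable def avg (n : ℕ) (F : ℝ → ℝ) (ρ r : ℝ) : ℝ :=
  (∫ y in ball (ax n ρ) r, F ‖y‖) / (r ^ (n + 1) * om (n + 1))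

/-- the same average written over the unit ball -/
noncomputable def avU (n : ℕ) (F : ℝ → ℝ) (ρ r : ℝ) : ℝ :=
  (∫ y in closedBall (0 : Sp (n + 1)) 1, F ‖ax n ρ + r • y‖) / om (n + 1)

lemma setIntegral_ball_affine (n : ℕ) (G : Sp n → ℝ) (x c : Sp n) {r : ℝ} (hr : 0 < r) (s : ℝ) :
    ∫ y in ball (x + r • c) (r * s), G y = r ^ n * ∫ y in ball c s, G (x + r • y) := by
  have h1 := Measure.setIntegral_comp_smul_of_pos volume (fun y => G (x + y)) (ball c s) hr
  rw [finrank_euclideanSpace_fin, _root_.smul_ball hr.ne', Real.norm_of_nonneg hr.le] at h1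
  have h2 := (measurePreserving_add_left (volume : Measure (Sp n)) x).setIntegral_preimage_emb
    (measurableEmbedding_addLeft x) G (ball (x + r • c) (r * s))
  have h3 : (fun y => x + y) ⁻¹' ball (x + r • c) (r * s) = ball (r • c) (r * s) := by
    ext y; simp
  rw [h3] at h2
  rw [h1, ← h2, smul_eq_mul]
  field_simp

lemma avg_eq_avU (n : ℕ) (F : ℝ → ℝ) (ρ : ℝ) {r : ℝ} (hr : 0 < r) : avg n F ρ r = avU n F ρ r := by
  have h1 := setIntegral_ball_affine (n + 1) (fun y => F ‖y‖) (ax n ρ) 0 hr 1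
  rw [smul_zero, add_zero, mul_one] at h1
  have h2 : (ball (0 : Sp (n + 1)) 1 : Set _) =ᵐ[volume] closedBall 0 1 := by
    refine (ae_eq_set.2 ⟨?_, ?_⟩)
    · rw [sdiff_eq_empty.2 ball_subset_closedBall]; simp
    · rw [closedBall_sdiff_ball]; exact Measure.addHaar_sphere _ _ _
  unfold avg avU
  rw [h1, setIntegral_congr_set h2]
  have := om_pos (n + 1)
  field_simp

lemma continuous_avU (n : ℕ) {F : ℝ → ℝ} (hF : Continuous F) (ρ : ℝ) :
    Continuous (avU n F ρ) := by
  unfold avU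
  refine Continuous.div_const ?_ _
  refine continuous_parametric_integral_of_continuous
    (f := fun (r : ℝ) (y : Sp (n + 1)) => F ‖ax n ρ + r • y‖) ?_ (isCompact_closedBall _ _)
  exact hF.comp (by fun_prop)

lemma avU_zero (n : ℕ) (F : ℝ → ℝ) {ρ : ℝ} (hρ : 0 ≤ ρ) : avU n F ρ 0 = F ρ := by
  unfold avU
  simp only [zero_smul, add_zero, norm_ax, abs_of_nonneg hρ, setIntegral_const, smul_eq_mul]
  rw [Measure.addHaar_real_closedBall _ _ zero_le_one, one_pow, one_mul]
  have := om_pos (n + 1)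
  change om (n + 1) * F ρ / om (n + 1) = F ρ
  field_simp

lemma norm_mem_ball {n : ℕ} {ρ r : ℝ} (hρ : 0 ≤ ρ) {y : Sp (n + 1)} (hy : y ∈ ball (ax n ρ) r) :
    ρ - r < ‖y‖ ∧ ‖y‖ < ρ + r := by
  rw [mem_ball_iff_norm] at hy
  have h1 := abs_norm_sub_norm_le y (ax n ρ)
  rw [norm_ax, abs_of_nonneg hρ] at h1
  have h2 := abs_lt.1 (h1.trans_lt hy)
  constructor <;> linarith [h2.1, h2.2]

lemma norm_notMem_ball {n : ℕ} {ρ r : ℝ} (hρ : 0 ≤ ρ) {y : Sp (n + 1)}
    (hy : y ∉ ball (ax n ρ) r) : r - ρ ≤ ‖y‖ := by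
  rw [mem_ball_iff_norm, not_lt] at hy
  have h1 := norm_sub_le y (ax n ρ)
  rw [norm_ax, abs_of_nonneg hρ] at h1
  linarith

lemma integrableOn_ball_of_continuous (n : ℕ) {F : ℝ → ℝ} (hF : Continuous F) (x : Sp n) (r : ℝ) :
    IntegrableOn (fun y : Sp n => F ‖y‖) (ball x r) :=
  ((hF.comp continuous_norm).continuousOn.integrableOn_compact
    (isCompact_closedBall x r)).mono_set ball_subset_closedBall

lemma setIntegral_le_const {n : ℕ} {G : Sp n → ℝ} {s : Set (Sp n)} (hs : MeasurableSet s)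
    (hfin : volume s ≠ ⊤) (hG : IntegrableOn G s) {c : ℝ} (h : ∀ y ∈ s, G y ≤ c) :
    ∫ y in s, G y ≤ c * volume.real s := by
  have := setIntegral_mono_on hG (integrableOn_const hfin) hs h
  rwa [setIntegral_const, smul_eq_mul, mul_comm] at this

lemma const_le_setIntegral {n : ℕ} {G : Sp n → ℝ} {s : Set (Sp n)} (hs : MeasurableSet s)
    (hfin : volume s ≠ ⊤) (hG : IntegrableOn G s) {c : ℝ} (h : ∀ y ∈ s, c ≤ G y) :
    c * volume.real s ≤ ∫ y in s, G y := by
  have := setIntegral_mono_on (integrableOn_const hfin) hG hs h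
  rwa [setIntegral_const, smul_eq_mul, mul_comm] at this

lemma avg_le {n : ℕ} {F : ℝ → ℝ} {ρ r c : ℝ} (hr : 0 < r)
    (hi : IntegrableOn (fun y : Sp (n + 1) => F ‖y‖) (ball (ax n ρ) r))
    (h : ∀ y ∈ ball (ax n ρ) r, F ‖y‖ ≤ c) : avg n F ρ r ≤ c := by
  have h1 := setIntegral_le_const measurableSet_ball measure_ball_lt_top.ne hi h
  rw [vol_ball _ _ hr] at h1
  unfold avg
  rwa [div_le_iff₀ (by have := om_pos (n + 1); positivity)]

lemma le_avg {n : ℕ} {F : ℝ → ℝ} {ρ r c : ℝ} (hr : 0 < r)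
    (hi : IntegrableOn (fun y : Sp (n + 1) => F ‖y‖) (ball (ax n ρ) r))
    (h : ∀ y ∈ ball (ax n ρ) r, c ≤ F ‖y‖) : c ≤ avg n F ρ r := by
  have h1 := const_le_setIntegral measurableSet_ball measure_ball_lt_top.ne hi h
  rw [vol_ball _ _ hr] at h1
  unfold avg
  rwa [le_div_iff₀ (by have := om_pos (n + 1); positivity)]

lemma avg_le' {n : ℕ} {F : ℝ → ℝ} (hF : Continuous F) {ρ r c : ℝ} (hr : 0 < r) (hρ : 0 ≤ ρ)
    (h : ∀ t, ρ - r ≤ t → t ≤ ρ + r → F t ≤ c) : avg n F ρ r ≤ c :=
  avg_le hr (integrableOn_ball_of_continuous _ hF _ _) fun _ hy =>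
    h _ (norm_mem_ball hρ hy).1.le (norm_mem_ball hρ hy).2.le

lemma le_avg' {n : ℕ} {F : ℝ → ℝ} (hF : Continuous F) {ρ r c : ℝ} (hr : 0 < r) (hρ : 0 ≤ ρ)
    (h : ∀ t, ρ - r ≤ t → t ≤ ρ + r → c ≤ F t) : c ≤ avg n F ρ r :=
  le_avg hr (integrableOn_ball_of_continuous _ hF _ _) fun _ hy =>
    h _ (norm_mem_ball hρ hy).1.le (norm_mem_ball hρ hy).2.le

lemma avg_sub {n : ℕ} {F : ℝ → ℝ} {ρ₁ ρ₂ r : ℝ}
    (h₁ : IntegrableOn (fun y : Sp (n + 1) => F ‖y‖) (ball (ax n ρ₁) r))
    (h₂ : IntegrableOn (fun y : Sp (n + 1) => F ‖y‖) (ball (ax n ρ₂) r)) :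
    avg n F ρ₂ r - avg n F ρ₁ r =
      ((∫ y in ball (ax n ρ₂) r \ ball (ax n ρ₁) r, F ‖y‖) -
        ∫ y in ball (ax n ρ₁) r \ ball (ax n ρ₂) r, F ‖y‖) / (r ^ (n + 1) * om (n + 1)) := by
  unfold avg
  rw [← sub_div, ← integral_inter_add_sdiff (t := ball (ax n ρ₁) r) measurableSet_ball h₂,
    ← integral_inter_add_sdiff (t := ball (ax n ρ₂) r) measurableSet_ball h₁, inter_comm]
  ring

lemma vol_diff_eq (n : ℕ) (ρ₁ ρ₂ r : ℝ) :
    (volume : Measure (Sp (n + 1))).real (ball (ax n ρ₁) r \ ball (ax n ρ₂) r) =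
      (volume : Measure (Sp (n + 1))).real (ball (ax n ρ₂) r \ ball (ax n ρ₁) r) := by
  have h1 := measureReal_inter_add_sdiff (μ := (volume : Measure (Sp (n + 1))))
    (s := ball (ax n ρ₁) r) (t := ball (ax n ρ₂) r) measurableSet_ball measure_ball_lt_top.ne
  have h2 := measureReal_inter_add_sdiff (μ := (volume : Measure (Sp (n + 1))))
    (s := ball (ax n ρ₂) r) (t := ball (ax n ρ₁) r) measurableSet_ball measure_ball_lt_top.ne
  rw [Measure.addHaar_real_ball_center] at h1 h2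
  rw [inter_comm] at h2
  linarith

/-- translation bound by the oscillation on the symmetric difference -/
lemma avg_translate {n : ℕ} {F : ℝ → ℝ} {ρ₁ ρ₂ r lo hi : ℝ} (hr : 0 < r) (hlh : lo ≤ hi)
    (h₁ : IntegrableOn (fun y : Sp (n + 1) => F ‖y‖) (ball (ax n ρ₁) r))
    (h₂ : IntegrableOn (fun y : Sp (n + 1) => F ‖y‖) (ball (ax n ρ₂) r))
    (hlo : ∀ y ∈ ball (ax n ρ₁) r \ ball (ax n ρ₂) r, lo ≤ F ‖y‖)
    (hhi : ∀ y ∈ ball (ax n ρ₂) r \ ball (ax n ρ₁) r, F ‖y‖ ≤ hi) :
    avg n F ρ₂ r - avg n F ρ₁ r ≤ (hi - lo) * |ρ₂ - ρ₁| * (om n / om (n + 1)) / r := by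
  rw [avg_sub h₁ h₂]
  have e1 := setIntegral_le_const (measurableSet_ball.diff measurableSet_ball)
    ((measure_mono sdiff_subset).trans_lt measure_ball_lt_top).ne (h₂.mono_set sdiff_subset) hhi
  have e2 := const_le_setIntegral (measurableSet_ball.diff measurableSet_ball)
    ((measure_mono sdiff_subset).trans_lt measure_ball_lt_top).ne (h₁.mono_set sdiff_subset) hlo
  rw [vol_diff_eq] at e2
  have e3 := mul_le_mul_of_nonneg_left (vol_diff_le n hr ρ₁ ρ₂) (sub_nonneg.2 hlh)
  have h0 := om_pos (n + 1)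
  rw [div_le_iff₀ (by positivity)]
  have e4 : (hi - lo) * |ρ₂ - ρ₁| * (om n / om (n + 1)) / r * (r ^ (n + 1) * om (n + 1)) =
      (hi - lo) * (|ρ₂ - ρ₁| * (r ^ n * om n)) := by
    field_simp
    ring
  rw [e4]
  linarith

/-- splitting a ball average along a smaller ball -/
lemma avg_shrink {n : ℕ} {F : ℝ → ℝ} (hF : Continuous F) {ρ ρ' r r' c m : ℝ} (hr' : 0 < r')
    (hsub : |ρ - ρ'| + r' ≤ r) (hm : avg n F ρ' r' ≤ m)
    (hc : ∀ y ∈ ball (ax n ρ) r \ ball (ax n ρ') r', F ‖y‖ ≤ c) :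
    r ^ (n + 1) * avg n F ρ r ≤ r' ^ (n + 1) * m + (r ^ (n + 1) - r' ^ (n + 1)) * c := by
  have hr : 0 < r := by linarith [abs_nonneg (ρ - ρ')]
  have hs : ball (ax n ρ') r' ⊆ ball (ax n ρ) r := by
    refine ball_subset_ball' ?_
    rw [dist_eq_norm, ax_sub, norm_ax, abs_sub_comm]
    linarith
  have hi := integrableOn_ball_of_continuous (n + 1) hF (ax n ρ) r
  have e0 := setIntegral_sdiff measurableSet_ball hi hs
  have e1 := setIntegral_le_const (measurableSet_ball.diff measurableSet_ball)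
    ((measure_mono sdiff_subset).trans_lt measure_ball_lt_top).ne (hi.mono_set sdiff_subset) hc
  rw [measureReal_sdiff hs measurableSet_ball measure_ball_lt_top.ne, vol_ball _ _ hr,
    vol_ball _ _ hr', e0] at e1
  have h0 := om_pos (n + 1)
  unfold avg at hm ⊢
  rw [div_le_iff₀ (by positivity)] at hm
  have e4 : r ^ (n + 1) * ((∫ y in ball (ax n ρ) r, F ‖y‖) / (r ^ (n + 1) * om (n + 1))) =
      (∫ y in ball (ax n ρ) r, F ‖y‖) / om (n + 1) := by field_simp
  rw [e4, div_le_iff₀ h0]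
  nlinarith

end Pool.Agent.MP_bf8c07_an_h89

end

-- part MP_bf8c07_an_h89.AC
section

/-!
One-dimensional tools: variation bounds, absolute continuity, and the fundamental theorem of
calculus for a function squeezed between absolutely continuous functions.
-/

set_option autoImplicit false
open MeasureTheory Set Filter Topology

namespace Pool.Agent.MP_bf8c07_an_h89

lemma ac_of_le {f g k : ℝ → ℝ} {a b : ℝ} (hg : AbsolutelyContinuousOnInterval g a b)
    (hk : AbsolutelyContinuousOnInterval k a b)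
    (h : ∀ x ∈ uIcc a b, ∀ y ∈ uIcc a b, |f x - f y| ≤ |g x - g y| + |k x - k y|) :
    AbsolutelyContinuousOnInterval f a b := by
  rw [absolutelyContinuousOnInterval_iff] at hg hk ⊢
  intro ε hε
  obtain ⟨δ₁, h1, H1⟩ := hg (ε / 2) (by positivity)
  obtain ⟨δ₂, h2, H2⟩ := hk (ε / 2) (by positivity)
  refine ⟨min δ₁ δ₂, lt_min h1 h2, fun E hE hs => ?_⟩
  have e1 := H1 E hE (hs.trans_le (min_le_left _ _))
  have e2 := H2 E hE (hs.trans_le (min_le_right _ _))
  have e3 : ∑ i ∈ Finset.range E.1, dist (f (E.2 i).1) (f (E.2 i).2) ≤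
      ∑ i ∈ Finset.range E.1, (dist (g (E.2 i).1) (g (E.2 i).2) +
        dist (k (E.2 i).1) (k (E.2 i).2)) := by
    refine Finset.sum_le_sum fun i hi => ?_
    simp only [Real.dist_eq]
    exact h _ (hE.1 i hi).1 _ (hE.1 i hi).2
  rw [Finset.sum_add_distrib] at e3
  linarith

/-- a bound on all variation sums gives bounded variation and a bound on the derivative -/
lemma var_bound {M : ℝ → ℝ} {a b V : ℝ} (hab : a ≤ b)
    (h : ∀ (N : ℕ) (ρ : ℕ → ℝ), Monotone ρ → (∀ i, ρ i ∈ Icc a b) →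
      ∑ i ∈ Finset.range N, |M (ρ (i + 1)) - M (ρ i)| ≤ V) :
    BoundedVariationOn M (uIcc a b) ∧ ∫ x in a..b, |deriv M x| ≤ V := by
  have hV : 0 ≤ V := by
    simpa using h 0 (fun _ => a) monotone_const (fun _ => ⟨le_rfl, hab⟩)
  have h1 : eVariationOn M (Icc a b) ≤ ENNReal.ofReal V := by
    refine iSup_le fun p => ?_
    have e1 : ∑ i ∈ Finset.range p.1, edist (M (p.2.1 (i + 1))) (M (p.2.1 i)) =
        ENNReal.ofReal (∑ i ∈ Finset.range p.1, |M (p.2.1 (i + 1)) - M (p.2.1 i)|) := by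
      rw [ENNReal.ofReal_sum_of_nonneg (fun _ _ => abs_nonneg _)]
      refine Finset.sum_congr rfl fun i _ => ?_
      rw [edist_dist, Real.dist_eq]
    rw [e1]
    exact ENNReal.ofReal_le_ofReal (h _ _ p.2.2.1 p.2.2.2)
  have hB : BoundedVariationOn M (uIcc a b) := by
    rw [uIcc_of_le hab]
    exact (h1.trans_lt ENNReal.ofReal_lt_top).ne
  refine ⟨hB, ?_⟩
  obtain ⟨p, q, hp, hq, hM, hpq⟩ := hB.locallyBoundedVariationOn.exists_monotoneOn_sub_monotoneOn'
  have e1 := hpq a left_mem_uIcc b right_mem_uIcc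
  rw [variationOnFromTo.eq_of_le _ _ hab, uIcc_of_le hab, inter_self] at e1
  have e2 : (eVariationOn M (Icc a b)).toReal ≤ V := ENNReal.toReal_le_of_le_ofReal hV h1
  have ep := hp.intervalIntegral_deriv_mem_uIcc
  have eq := hq.intervalIntegral_deriv_mem_uIcc
  have pab : p a ≤ p b := hp left_mem_uIcc right_mem_uIcc hab
  have qab : q a ≤ q b := hq left_mem_uIcc right_mem_uIcc hab
  rw [uIcc_of_le (by linarith)] at ep eq
  have e3 : ∫ x in a..b, |deriv M x| ≤ ∫ x in a..b, (deriv p x + deriv q x) := by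
    refine intervalIntegral.integral_mono_ae_restrict hab hB.intervalIntegrable_deriv.abs
      (hp.intervalIntegrable_deriv.add hq.intervalIntegrable_deriv) ?_
    rw [Filter.EventuallyLE, ← restrict_Ioo_eq_restrict_Icc, ae_restrict_iff' measurableSet_Ioo]
    filter_upwards [hp.ae_differentiableWithinAt_of_mem, hq.ae_differentiableWithinAt_of_mem]
      with x hx₁ hx₂ hx
    have hn : uIcc a b ∈ 𝓝 x := by rw [uIcc_of_le hab]; exact Icc_mem_nhds hx.1 hx.2
    have hx₅ : x ∈ uIcc a b := mem_of_mem_nhds hn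
    have d1 := ((hx₁ hx₅).differentiableAt hn).hasDerivAt
    have d2 := ((hx₂ hx₅).differentiableAt hn).hasDerivAt
    have d3 : deriv M x = deriv p x - deriv q x := by rw [hM]; exact (d1.sub d2).deriv
    have p0 : 0 ≤ deriv p x := by
      rw [← derivWithin_of_mem_nhds hn]; exact hp.derivWithin_nonneg
    have q0 : 0 ≤ deriv q x := by
      rw [← derivWithin_of_mem_nhds hn]; exact hq.derivWithin_nonneg
    rw [d3, abs_le]
    constructor <;> linarith
  rw [intervalIntegral.integral_add hp.intervalIntegrable_deriv hq.intervalIntegrable_deriv] at e3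
  linarith [ep.2, eq.2]

lemma deriv_eq_of_touch {f g : ℝ → ℝ} {x : ℝ} (hf : DifferentiableAt ℝ f x)
    (hg : DifferentiableAt ℝ g x) (hle : ∀ᶠ y in 𝓝 x, g y ≤ f y) (he : f x = g x) :
    deriv f x = deriv g x := by
  have h1 : IsLocalMin (fun y => f y - g y) x := by
    filter_upwards [hle] with y hy
    simp only [he]
    linarith
  have h2 := h1.hasDerivAt_eq_zero (hf.hasDerivAt.sub hg.hasDerivAt)
  linarith

/-- fundamental theorem of calculus for a function of bounded variation lying above an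
absolutely continuous function, when all the maxima `max M (ϕ + ε)` are absolutely continuous -/
lemma ftc_of_approx {M ϕ : ℝ → ℝ} {a b : ℝ} (hab : a ≤ b) (hM : BoundedVariationOn M (uIcc a b))
    (hϕ : AbsolutelyContinuousOnInterval ϕ a b) (hle : ∀ x ∈ Icc a b, ϕ x ≤ M x)
    (hN : ∀ ε > 0, AbsolutelyContinuousOnInterval (fun x => max (M x) (ϕ x + ε)) a b) :
    M b - M a = ∫ x in a..b, deriv M x := by
  set e : ℕ → ℝ := fun k => 1 / ((k : ℝ) + 1) with he
  have he0 : ∀ k, 0 < e k := fun k => Nat.one_div_pos_of_nat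
  have hel : Tendsto e atTop (𝓝 0) := tendsto_one_div_add_atTop_nhds_zero_nat
  set N : ℕ → ℝ → ℝ := fun k x => max (M x) (ϕ x + e k) with hNdef
  have hlim : ∀ x ∈ Icc a b, Tendsto (fun k => N k x) atTop (𝓝 (M x)) := by
    intro x hx
    have h1 : Tendsto (fun k => max (M x) (ϕ x + e k)) atTop (𝓝 (max (M x) (ϕ x + 0))) :=
      tendsto_const_nhds.max (tendsto_const_nhds.add hel)
    rwa [add_zero, max_eq_left (hle x hx)] at h1
  have hA : ∀ᵐ x, x ∈ uIoc a b → (∀ k, |deriv (N k) x| ≤ |deriv M x| + |deriv ϕ x|) ∧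
      Tendsto (fun k => deriv (N k) x) atTop (𝓝 (deriv M x)) := by
    have h₂ : ∀ᵐ x : ℝ, x ≠ b := by simp [ae_iff, measure_singleton]
    have h₃ : ∀ᵐ x : ℝ, ∀ k, x ∈ uIcc a b → DifferentiableAt ℝ (N k) x :=
      ae_all_iff.2 fun k => (hN _ (he0 k)).ae_differentiableAt
    filter_upwards [h₂, h₃, hM.ae_differentiableAt_of_mem_uIcc, hϕ.ae_differentiableAt]
      with x x1 x2 x3 x4 hx
    have hx' : x ∈ uIcc a b := uIoc_subset_uIcc hx
    rw [uIoc_of_le hab] at hx
    have hn : Icc a b ∈ 𝓝 x := Icc_mem_nhds hx.1 (lt_of_le_of_ne hx.2 x1)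
    have c1 : ∀ k, ϕ x + e k ≤ M x → deriv (N k) x = deriv M x := fun k hk =>
      deriv_eq_of_touch (x2 k hx') (x3 hx') (Eventually.of_forall fun y => le_max_left _ _)
        (max_eq_left hk)
    have c2 : ∀ k, M x ≤ ϕ x + e k → deriv (N k) x = deriv ϕ x := fun k hk => by
      have := deriv_eq_of_touch (x2 k hx') ((x4 hx').add_const (e k))
        (Eventually.of_forall fun y => le_max_right _ _) (max_eq_right hk)
      rwa [deriv_add_const] at this
    constructor
    · intro k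
      rcases le_total (ϕ x + e k) (M x) with hk | hk
      · rw [c1 k hk]; linarith [abs_nonneg (deriv ϕ x)]
      · rw [c2 k hk]; linarith [abs_nonneg (deriv M x)]
    · rcases (hle x (mem_of_mem_nhds hn)).eq_or_lt with h0 | h0
      · have c3 : deriv M x = deriv ϕ x :=
          deriv_eq_of_touch (x3 hx') (x4 hx') (by filter_upwards [hn] with y hy using hle y hy)
            h0.symm
        refine tendsto_const_nhds.congr fun k => ?_
        rw [c2 k (by linarith [he0 k]), c3]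
      · refine tendsto_const_nhds.congr' ?_
        filter_upwards [hel.eventually (gt_mem_nhds (sub_pos.2 h0))] with k hk
        rw [c1 k (by linarith)]
  have hD : Tendsto (fun k => ∫ x in a..b, deriv (N k) x) atTop (𝓝 (∫ x in a..b, deriv M x)) := by
    refine intervalIntegral.tendsto_integral_filter_of_dominated_convergence
      (fun x => |deriv M x| + |deriv ϕ x|) (Eventually.of_forall fun k => ?_)
      (Eventually.of_forall fun k => ?_)
      (hM.intervalIntegrable_deriv.abs.add hϕ.intervalIntegrable_deriv.abs) ?_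
    · exact (measurable_deriv _).aestronglyMeasurable
    · filter_upwards [hA] with x hx hx' using (hx hx').1 k
    · filter_upwards [hA] with x hx hx' using (hx hx').2
  have hE : Tendsto (fun k => ∫ x in a..b, deriv (N k) x) atTop (𝓝 (M b - M a)) := by
    refine ((hlim b ⟨hab, le_rfl⟩).sub (hlim a ⟨le_rfl, hab⟩)).congr fun k => ?_
    exact ((hN _ (he0 k)).integral_deriv_eq_sub).symm
  exact tendsto_nhds_unique hE hD

end Pool.Agent.MP_bf8c07_an_h89

end

-- part MP_bf8c07_an_h89.Large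
section

/-!
Averages over balls whose radius is comparable to, or larger than, the distance to the origin.
-/

set_option autoImplicit false
open MeasureTheory Set Metric Filter Topology

namespace Pool.Agent.MP_bf8c07_an_h89

/-- a nonnegative radial profile `F` whose oscillation is controlled by the density `a` -/
structure Prof (n : ℕ) (F a : ℝ → ℝ) : Prop where
  F0 : ∀ t, 0 ≤ F t
  Fi : Integrable (fun y : Sp (n + 1) => F ‖y‖)
  a0 : ∀ t, 0 ≤ a t
  am : Measurable a
  ai : IntegrableOn (fun t => t ^ n * a t) (Ioi 0)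
  osc : ∀ x y, 0 < x → x ≤ y → |F y - F x| ≤ ∫ t in x..y, a t

/-- a telescoping kernel comparable to `min (t / R) (R / t)` -/
noncomputable def kern (t R : ℝ) : ℝ := t * R / ((t + R) * (t + 2 * R))

/-- the weight of the block `[R, 2R]` -/
noncomputable def W (n : ℕ) (a : ℝ → ℝ) (R : ℝ) : ℝ := ∫ t in Ioi 0, t ^ n * a t * kern t R

lemma kern_nonneg {t R : ℝ} (ht : 0 < t) (hR : 0 < R) : 0 ≤ kern t R := by
  unfold kern; positivity

lemma kern_le_one {t R : ℝ} (ht : 0 < t) (hR : 0 < R) : kern t R ≤ 1 := by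
  unfold kern
  rw [div_le_one (by positivity)]
  nlinarith [mul_pos ht hR, sq_nonneg t, sq_nonneg R]

lemma intervalIntegrable_of_weight {n : ℕ} {a : ℝ → ℝ}
    (ai : IntegrableOn (fun t => t ^ n * a t) (Ioi 0)) {x y : ℝ} (hx : 0 < x) (hy : 0 < y) :
    IntervalIntegrable a volume x y := by
  have hs : uIcc x y ⊆ Ioi 0 := fun t ht => (lt_min hx hy).trans_le ht.1
  have h1 : IntervalIntegrable (fun t => t ^ n * a t) volume x y :=
    (ai.mono_set hs).intervalIntegrable
  have h2 : ContinuousOn (fun t : ℝ => (t ^ n)⁻¹) (uIcc x y) :=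
    ContinuousOn.inv₀ (by fun_prop) fun t ht => pow_ne_zero _ (ne_of_gt (hs ht))
  refine (h1.continuousOn_mul h2).congr fun t ht => ?_
  have : t ≠ 0 := ne_of_gt (hs (uIoc_subset_uIcc ht))
  field_simp

namespace Prof

variable {n : ℕ} {F a : ℝ → ℝ}

lemma ii (P : Prof n F a) {x y : ℝ} (hx : 0 < x) (hy : 0 < y) :
    IntervalIntegrable a volume x y := intervalIntegrable_of_weight P.ai hx hy

lemma osc' (P : Prof n F a) {x y : ℝ} (hx : 0 < x) (hy : 0 < y) :
    |F y - F x| ≤ |∫ t in x..y, a t| := by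
  rcases le_total x y with h | h
  · exact (P.osc x y hx h).trans (le_abs_self _)
  · rw [abs_sub_comm, intervalIntegral.integral_symm, abs_neg]
    exact (P.osc y x hy h).trans (le_abs_self _)

lemma ac (P : Prof n F a) {x y : ℝ} (hx : 0 < x) (hy : 0 < y) :
    AbsolutelyContinuousOnInterval F x y := by
  have h1 := (P.ii hx hy).absolutelyContinuousOnInterval_intervalIntegral (c := x) left_mem_uIcc
  refine ac_of_le h1 h1 fun u hu v hv => ?_
  have hu0 : 0 < u := (lt_min hx hy).trans_le hu.1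
  have hv0 : 0 < v := (lt_min hx hy).trans_le hv.1
  rw [intervalIntegral.integral_interval_sub_left (P.ii hx hu0) (P.ii hx hv0)]
  linarith [P.osc' hv0 hu0, abs_nonneg (∫ t in v..u, a t)]

lemma cont (P : Prof n F a) : ContinuousOn F (Ioi 0) := by
  intro x hx
  have hx0 : (0 : ℝ) < x := hx
  have h1 := (P.ac (half_pos hx0) (by positivity : 0 < 2 * x)).continuousOn
  rw [uIcc_of_le (by linarith)] at h1
  exact (h1.continuousAt (Icc_mem_nhds (by linarith) (by linarith))).continuousWithinAt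

lemma wi (P : Prof n F a) {R : ℝ} (hR : 0 < R) :
    IntegrableOn (fun t => t ^ n * a t * kern t R) (Ioi 0) := by
  refine Integrable.mul_bdd (c := 1) P.ai ?_ ?_
  · refine Measurable.aestronglyMeasurable ?_
    unfold kern
    fun_prop
  · filter_upwards [ae_restrict_mem measurableSet_Ioi] with t ht
    rw [Real.norm_of_nonneg (kern_nonneg ht hR)]
    exact kern_le_one ht hR

lemma w0 (P : Prof n F a) {R t : ℝ} (hR : 0 < R) (ht : 0 < t) : 0 ≤ t ^ n * a t * kern t R :=
  mul_nonneg (mul_nonneg (pow_nonneg ht.le _) (P.a0 t)) (kern_nonneg ht hR)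

lemma W0 (P : Prof n F a) {R : ℝ} (hR : 0 < R) : 0 ≤ W n a R :=
  setIntegral_nonneg measurableSet_Ioi fun _ ht => P.w0 hR ht

lemma le_W (P : Prof n F a) {R c : ℝ} (hR : 0 < R) (hc : 0 ≤ c) {S : Set ℝ} (hS : MeasurableSet S)
    (hS0 : S ⊆ Ioi 0) {g : ℝ → ℝ} (hg : IntegrableOn g S)
    (h : ∀ t ∈ S, g t ≤ c * (t ^ n * a t * kern t R)) : ∫ t in S, g t ≤ c * W n a R := by
  have h1 := setIntegral_mono_on hg (((P.wi hR).mono_set hS0).const_mul c) hS h
  rw [integral_const_mul] at h1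
  refine h1.trans (mul_le_mul_of_nonneg_left ?_ hc)
  refine setIntegral_mono_set (P.wi hR) ?_ hS0.eventuallyLE
  filter_upwards [ae_restrict_mem measurableSet_Ioi] with t ht using P.w0 hR ht

lemma W1 (P : Prof n F a) {R : ℝ} (hR : 0 < R) :
    ∫ t in (R / 2)..(3 * R), a t ≤ 40 * 2 ^ n / R ^ n * W n a R := by
  rw [intervalIntegral.integral_of_le (by linarith)]
  refine P.le_W hR (by positivity) measurableSet_Ioc (fun t ht => (half_pos hR).trans ht.1)
    (P.ii (half_pos hR) (by positivity)).1 fun t ht => ?_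
  have ht0 : 0 < t := (half_pos hR).trans ht.1
  have e1 : 1 / 40 ≤ kern t R := by
    unfold kern
    rw [le_div_iff₀ (by positivity)]
    nlinarith [ht.1, ht.2, mul_le_mul ht.2 ht.2 ht0.le (by positivity)]
  have e2 : R ^ n ≤ 2 ^ n * t ^ n := by
    rw [← mul_pow]; exact pow_le_pow_left₀ hR.le (by linarith [ht.1]) _
  have e3 : 1 ≤ 40 * 2 ^ n / R ^ n * (t ^ n * kern t R) := by
    rw [div_mul_eq_mul_div, le_div_iff₀ (by positivity)]
    have : (0 : ℝ) < 2 ^ n * t ^ n := by positivity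
    nlinarith
  have := mul_le_mul_of_nonneg_right e3 (P.a0 t)
  linarith

lemma wi2 (P : Prof n F a) (b : ℝ) : IntegrableOn (fun t => t ^ (n + 1) * a t) (Ioo 0 b) := by
  have h1 : IntegrableOn (fun t => t ^ n * a t * t) (Ioo 0 b) := by
    refine Integrable.mul_bdd (c := b) (P.ai.mono_set Ioo_subset_Ioi_self)
      measurable_id.aestronglyMeasurable ?_
    filter_upwards [ae_restrict_mem measurableSet_Ioo] with t ht
    rw [Real.norm_of_nonneg ht.1.le]
    exact ht.2.le
  refine h1.congr_fun (fun t _ => ?_) measurableSet_Ioo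
  ring

lemma W2 (P : Prof n F a) {R : ℝ} (hR : 0 < R) :
    ∫ t in Ioo 0 (10 * R), t ^ (n + 1) * a t ≤ 132 * R * W n a R := by
  refine P.le_W hR (by positivity) measurableSet_Ioo Ioo_subset_Ioi_self (P.wi2 _) fun t ht => ?_
  have ht0 : 0 < t := ht.1
  have e1 : t ≤ 132 * R * kern t R := by
    unfold kern
    rw [← mul_div_assoc, le_div_iff₀ (by positivity)]
    have : (t + R) * (t + 2 * R) ≤ (11 * R) * (12 * R) :=
      mul_le_mul (by linarith [ht.2]) (by linarith [ht.2]) (by positivity) (by positivity)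
    nlinarith
  have := mul_le_mul_of_nonneg_right e1 (mul_nonneg (pow_nonneg ht0.le n) (P.a0 t))
  calc t ^ (n + 1) * a t = t * (t ^ n * a t) := by ring
    _ ≤ _ := this
    _ = _ := by ring

lemma W3 (P : Prof n F a) {R r : ℝ} (hR : 0 < R) (hr : 4 * R ≤ r) :
    ∫ t in (r / 2)..(3 * r / 2), a t ≤ 5 * r / R ^ (n + 1) * W n a R := by
  have hr0 : 0 < r := by linarith
  rw [intervalIntegral.integral_of_le (by linarith)]
  refine P.le_W hR (by positivity) measurableSet_Ioc (fun t ht => (half_pos hr0).trans ht.1)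
    (P.ii (half_pos hr0) (by positivity)).1 fun t ht => ?_
  have ht0 : 0 < t := (half_pos hr0).trans ht.1
  have htR : 2 * R ≤ t := by linarith [ht.1]
  have e1 : R ≤ 5 * r * kern t R := by
    unfold kern
    rw [← mul_div_assoc, le_div_iff₀ (by positivity)]
    have h1 : (t + R) * (t + 2 * R) ≤ (3 * t / 2) * (2 * t) :=
      mul_le_mul (by linarith) (by linarith) (by positivity) (by positivity)
    have h2 : t * t ≤ t * (3 * r / 2) := mul_le_mul_of_nonneg_left ht.2 ht0.le
    have h3 : (t + R) * (t + 2 * R) ≤ 5 * r * t := by nlinarith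
    nlinarith
  have e2 : R ^ n ≤ t ^ n := pow_le_pow_left₀ hR.le (by linarith) _
  have e3 : 1 ≤ 5 * r / R ^ (n + 1) * (t ^ n * kern t R) := by
    rw [div_mul_eq_mul_div, le_div_iff₀ (by positivity), pow_succ]
    have := mul_le_mul e2 e1 hR.le (by positivity)
    linarith
  have := mul_le_mul_of_nonneg_right e3 (P.a0 t)
  linarith

/-- the one-dimensional dilation estimate -/
lemma dil_1d (P : Prof n F a) {R ρ₁ ρ₂ : ℝ} (hR : 0 < R) (h1 : R ≤ ρ₁) (h12 : ρ₁ ≤ ρ₂)
    (h2 : ρ₂ ≤ 2 * R)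
    (hi : IntegrableOn (fun u => u ^ n * |F (ρ₂ * u) - F (ρ₁ * u)|) (Ioo 0 5)) :
    ∫ u in Ioo 0 5, u ^ n * |F (ρ₂ * u) - F (ρ₁ * u)| ≤
      (ρ₂ - ρ₁) / R ^ (n + 2) * ∫ t in Ioo 0 (10 * R), t ^ (n + 1) * a t := by
  have hρ₁ : 0 < ρ₁ := by linarith
  have hρ₂ : 0 < ρ₂ := by linarith
  have hc : 0 ≤ (ρ₂ - ρ₁) / R ^ (n + 2) := div_nonneg (by linarith) (by positivity)
  have hnn : 0 ≤ ∫ t in Ioo 0 (10 * R), t ^ (n + 1) * a t :=
    setIntegral_nonneg measurableSet_Ioo fun t ht => mul_nonneg (pow_nonneg ht.1.le _) (P.a0 t)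
  rw [← ENNReal.ofReal_le_ofReal_iff (mul_nonneg hc hnn), ofReal_integral_eq_lintegral_ofReal hi
    (by filter_upwards [ae_restrict_mem measurableSet_Ioo] with u hu
          using mul_nonneg (pow_nonneg hu.1.le _) (abs_nonneg _)),
    ← integral_const_mul, ofReal_integral_eq_lintegral_ofReal ((P.wi2 _).const_mul _)
    (by filter_upwards [ae_restrict_mem measurableSet_Ioo] with u hu
          using mul_nonneg hc (mul_nonneg (pow_nonneg hu.1.le _) (P.a0 u)))]
  set S : Set (ℝ × ℝ) := {q | ρ₁ * q.1 < q.2 ∧ q.2 ≤ ρ₂ * q.1} with hS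
  have hSm : MeasurableSet S :=
    (measurableSet_lt (f := fun q : ℝ × ℝ => ρ₁ * q.1) (g := fun q => q.2) (by fun_prop)
      (by fun_prop)).inter
      (measurableSet_le (f := fun q : ℝ × ℝ => q.2) (g := fun q => ρ₂ * q.1) (by fun_prop)
        (by fun_prop))
  set K : ℝ × ℝ → ENNReal := S.indicator fun q => ENNReal.ofReal (q.1 ^ n * a q.2) with hK
  have hKm : Measurable K := by
    refine Measurable.indicator ?_ hSm
    exact ((measurable_fst.pow_const n).mul (P.am.comp measurable_snd)).ennreal_ofReal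
  calc ∫⁻ u in Ioo 0 5, ENNReal.ofReal (u ^ n * |F (ρ₂ * u) - F (ρ₁ * u)|)
      ≤ ∫⁻ u in Ioo 0 5, ∫⁻ t, K (u, t) := by
        refine setLIntegral_mono' measurableSet_Ioo fun u hu => ?_
        have hu0 : 0 < u := hu.1
        have e1 : ρ₁ * u ≤ ρ₂ * u := mul_le_mul_of_nonneg_right h12 hu0.le
        have e2 := P.osc _ _ (mul_pos hρ₁ hu0) e1
        have e3 : ∫⁻ t, K (u, t) = ∫⁻ t in Ioc (ρ₁ * u) (ρ₂ * u), ENNReal.ofReal (u ^ n * a t) := by
          rw [← lintegral_indicator measurableSet_Ioc]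
          refine lintegral_congr fun t => ?_
          simp only [hK, hS, indicator, mem_ofPred_eq, mem_Ioc]
        rw [e3, ← ofReal_integral_eq_lintegral_ofReal
          ((P.ii (mul_pos hρ₁ hu0) (mul_pos hρ₂ hu0)).1.const_mul _)
          (Eventually.of_forall fun t => mul_nonneg (pow_nonneg hu0.le _) (P.a0 t)),
          integral_const_mul, ← intervalIntegral.integral_of_le e1]
        exact ENNReal.ofReal_le_ofReal (mul_le_mul_of_nonneg_left e2 (pow_nonneg hu0.le _))
    _ = ∫⁻ t, ∫⁻ u in Ioo 0 5, K (u, t) :=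
        lintegral_lintegral_swap (f := fun u t => K (u, t)) hKm.aemeasurable
    _ ≤ _ := by
        rw [← lintegral_indicator measurableSet_Ioo]
        refine lintegral_mono fun t => ?_
        by_cases ht : t ∈ Ioo 0 (10 * R)
        · rw [indicator_of_mem ht]
          have ht0 : 0 < t := ht.1
          calc ∫⁻ u in Ioo 0 5, K (u, t)
              ≤ ∫⁻ u, (Ico (t / ρ₂) (t / ρ₁)).indicator
                  (fun _ => ENNReal.ofReal ((t / R) ^ n * a t)) u := by
                refine (setLIntegral_le_lintegral _ _).trans (lintegral_mono fun u => ?_)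
                by_cases hu : (u, t) ∈ S
                · have m1 : u ∈ Ico (t / ρ₂) (t / ρ₁) := by
                    refine ⟨?_, ?_⟩
                    · rw [div_le_iff₀ hρ₂]; linarith [hu.2]
                    · rw [lt_div_iff₀ hρ₁]; linarith [hu.1]
                  have hu0 : 0 ≤ u := (div_pos ht0 hρ₂).le.trans m1.1
                  have m2 : u ≤ t / R := m1.2.le.trans (div_le_div_of_nonneg_left ht0.le hR h1)
                  simp only [hK, indicator_of_mem hu, indicator_of_mem m1]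
                  exact ENNReal.ofReal_le_ofReal (mul_le_mul_of_nonneg_right
                    (pow_le_pow_left₀ hu0 m2 _) (P.a0 t))
                · simp only [hK, indicator_of_notMem hu, zero_le]
            _ = ENNReal.ofReal ((t / R) ^ n * a t * (t / ρ₁ - t / ρ₂)) := by
                rw [lintegral_indicator measurableSet_Ico, setLIntegral_const, Real.volume_Ico,
                  ← ENNReal.ofReal_mul (mul_nonneg (by positivity) (P.a0 t))]
            _ ≤ _ := by
                refine ENNReal.ofReal_le_ofReal ?_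
                have e1 : t / ρ₁ - t / ρ₂ ≤ t * (ρ₂ - ρ₁) / R ^ 2 := by
                  rw [div_sub_div _ _ hρ₁.ne' hρ₂.ne']
                  have : t * ρ₂ - ρ₁ * t = t * (ρ₂ - ρ₁) := by ring
                  rw [this]
                  refine div_le_div_of_nonneg_left (mul_nonneg ht0.le (by linarith))
                    (by positivity) ?_
                  rw [sq]
                  exact mul_le_mul h1 (by linarith) hR.le hρ₁.le
                refine (mul_le_mul_of_nonneg_left e1 (mul_nonneg (by positivity) (P.a0 t))).trans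
                  (le_of_eq ?_)
                rw [div_pow]
                field_simp
                ring
        · rw [indicator_of_notMem ht]
          refine le_of_eq ?_
          rw [setLIntegral_congr_fun measurableSet_Ioo (g := fun _ => 0), lintegral_zero]
          intro u hu
          refine indicator_of_notMem (fun hS' => ht ⟨?_, ?_⟩) _
          · exact (mul_pos hρ₁ hu.1).trans hS'.1
          · have e1 : t ≤ ρ₂ * u := hS'.2
            have e2 : ρ₂ * u < ρ₂ * 5 := mul_lt_mul_of_pos_left hu.2 hρ₂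
            linarith

end Prof

lemma setIntegral_ball_norm (n : ℕ) (D : ℝ → ℝ) (r : ℝ) :
    ∫ y in ball (0 : Sp (n + 1)) r, D ‖y‖ =
      (n + 1) * om (n + 1) * ∫ u in Ioo 0 r, u ^ n * D u := by
  have h1 := integral_fun_norm_addHaar (volume : Measure (Sp (n + 1))) ((Iio r).indicator D)
  rw [finrank_euclideanSpace_fin] at h1
  have h2 : ∫ y in ball (0 : Sp (n + 1)) r, D ‖y‖ = ∫ y : Sp (n + 1), (Iio r).indicator D ‖y‖ := by
    rw [← integral_indicator measurableSet_ball]
    refine integral_congr_ae (Eventually.of_forall fun y => ?_)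
    simp [indicator]
  have h3 : ∫ y in Ioi (0 : ℝ), y ^ (n + 1 - 1) • (Iio r).indicator D y =
      ∫ u in Ioo 0 r, u ^ n * D u := by
    rw [← Ioi_inter_Iio, ← setIntegral_indicator measurableSet_Iio]
    refine integral_congr_ae (Eventually.of_forall fun y => ?_)
    by_cases hy : y ∈ Iio r <;> simp [hy]
  rw [h2, h1, h3]
  simp only [om, nsmul_eq_mul, smul_eq_mul]
  push_cast
  ring

end Pool.Agent.MP_bf8c07_an_h89

end

-- part MP_bf8c07_an_h89.Polar
section

/-!
Polar coordinates, derivatives of radial functions, and one-dimensional test functions.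
-/

set_option autoImplicit false
open MeasureTheory Set Metric Filter Topology
open scoped ContDiff

namespace Pool.Agent.MP_bf8c07_an_h89

/-- integral over the sphere of radius `t` (for the surface measure of the unit sphere) -/
noncomputable def sph (n : ℕ) (G : Sp (n + 1) → ℝ) (t : ℝ) : ℝ :=
  ∫ θ : sphere (0 : Sp (n + 1)) 1, G (t • (θ : Sp (n + 1))) ∂(volume : Measure (Sp (n + 1))).toSphere

lemma polar (n : ℕ) {G : Sp (n + 1) → ℝ} (hG : Integrable G) :
    IntegrableOn (fun t => t ^ n * sph n G t) (Ioi 0) ∧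
      ∫ x, G x = ∫ t in Ioi 0, t ^ n * sph n G t := by
  have hmp := (volume : Measure (Sp (n + 1))).measurePreserving_homeomorphUnitSphereProd
  rw [finrank_euclideanSpace_fin, Nat.add_sub_cancel] at hmp
  set H : sphere (0 : Sp (n + 1)) 1 × Ioi (0 : ℝ) → ℝ :=
    fun q => G ((q.2 : ℝ) • (q.1 : Sp (n + 1))) with hH
  have hc : H ∘ homeomorphUnitSphereProd (Sp (n + 1)) = G ∘ Subtype.val := by
    ext x
    have hx : ‖(x : Sp (n + 1))‖ ≠ 0 := norm_ne_zero_iff.2 x.2
    simp [hH, smul_smul, hx]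
  have hms : MeasurableSet ({0}ᶜ : Set (Sp (n + 1))) := (measurableSet_singleton _).compl
  have h1 : Integrable H ((volume : Measure (Sp (n + 1))).toSphere.prod
      (Measure.volumeIoiPow n)) := by
    rw [← hmp.integrable_comp_emb (Homeomorph.measurableEmbedding _), hc,
      ← integrableOn_iff_comap_subtypeVal hms]
    exact hG.integrableOn
  have h2 : ∫ x, G x = ∫ q, H q ∂((volume : Measure (Sp (n + 1))).toSphere.prod
      (Measure.volumeIoiPow n)) := by
    rw [← hmp.integral_comp (Homeomorph.measurableEmbedding _) H]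
    change _ = ∫ x, (H ∘ homeomorphUnitSphereProd (Sp (n + 1))) x ∂_
    rw [hc]
    change _ = ∫ x : ({0}ᶜ : Set (Sp (n + 1))), G x ∂_
    rw [integral_subtype_comap hms G, restrict_compl_singleton]
  have h3 : Integrable (fun t : Ioi (0 : ℝ) => sph n G t) (Measure.volumeIoiPow n) :=
    h1.integral_prod_right
  have hm : Measurable fun r : Ioi (0 : ℝ) => ENNReal.ofReal (r.1 ^ n) := by fun_prop
  have he : (fun t : Ioi (0 : ℝ) => (ENNReal.ofReal (t.1 ^ n)).toReal • sph n G t) =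
      fun t : Ioi (0 : ℝ) => t.1 ^ n * sph n G t := by
    ext t
    rw [ENNReal.toReal_ofReal (pow_nonneg (le_of_lt t.2) _), smul_eq_mul]
  constructor
  · rw [Measure.volumeIoiPow, integrable_withDensity_iff_integrable_smul' hm (by simp), he] at h3
    rw [integrableOn_iff_comap_subtypeVal measurableSet_Ioi]
    exact h3
  · rw [h2, integral_prod_symm _ h1]
    change ∫ t : Ioi (0 : ℝ), sph n G t ∂_ = _
    rw [Measure.volumeIoiPow, integral_withDensity_eq_integral_toReal_smul hm (by simp), he,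
      integral_subtype_comap measurableSet_Ioi fun t => t ^ n * sph n G t]

lemma sph_mul (n : ℕ) (G : Sp (n + 1) → ℝ) (m : ℝ → ℝ) {t : ℝ} (ht : 0 < t) :
    sph n (fun x => m ‖x‖ * G x) t = m t * sph n G t := by
  unfold sph
  rw [← integral_const_mul]
  refine integral_congr_ae (Eventually.of_forall fun θ => ?_)
  simp only [norm_smul, Real.norm_of_nonneg ht.le, norm_eq_of_mem_sphere, mul_one]

lemma polar_mul (n : ℕ) (G : Sp (n + 1) → ℝ) (m : ℝ → ℝ) (h : Integrable fun x => m ‖x‖ * G x) :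
    ∫ x, m ‖x‖ * G x = ∫ t in Ioi 0, m t * (t ^ n * sph n G t) := by
  rw [(polar n h).2]
  refine setIntegral_congr_fun measurableSet_Ioi fun t ht => ?_
  simp only [sph_mul n G m ht]
  ring

lemma measurable_sph (n : ℕ) {G : Sp (n + 1) → ℝ} (hG : Measurable G) : Measurable (sph n G) := by
  have h : StronglyMeasurable fun q : sphere (0 : Sp (n + 1)) 1 × ℝ =>
      G (q.2 • (q.1 : Sp (n + 1))) := (hG.comp (by fun_prop)).stronglyMeasurable
  exact (h.integral_prod_left' (μ := (volume : Measure (Sp (n + 1))).toSphere)).measurable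

lemma abs_sph_le (n : ℕ) (G : Sp (n + 1) → ℝ) (t : ℝ) :
    |sph n G t| ≤ sph n (fun x => |G x|) t := abs_integral_le_integral_abs

lemma integral_norm_eq (n : ℕ) (D : ℝ → ℝ) :
    ∫ x : Sp (n + 1), D ‖x‖ = (n + 1) * om (n + 1) * ∫ t in Ioi 0, t ^ n * D t := by
  have h1 := integral_fun_norm_addHaar (volume : Measure (Sp (n + 1))) D
  rw [finrank_euclideanSpace_fin] at h1
  rw [h1]
  simp only [om, nsmul_eq_mul, smul_eq_mul, Nat.add_sub_cancel]
  push_cast
  ring

lemma integrable_norm_iff (n : ℕ) (D : ℝ → ℝ) :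
    Integrable (fun x : Sp (n + 1) => D ‖x‖) ↔ IntegrableOn (fun t => t ^ n * D t) (Ioi 0) := by
  have h1 := integrable_fun_norm_addHaar (volume : Measure (Sp (n + 1))) (f := D)
  rw [finrank_euclideanSpace_fin] at h1
  exact h1

lemma ae_norm_eq (n : ℕ) {u w : ℝ → ℝ} (h : ∀ᵐ t, t ∈ Ioi (0 : ℝ) → u t = w t) :
    ∀ᵐ x : Sp (n + 1), u ‖x‖ = w ‖x‖ := by
  have h0 : (fun t => t ^ n * |u t - w t|) =ᵐ[volume.restrict (Ioi 0)] 0 := by
    rw [Filter.EventuallyEq, ae_restrict_iff' measurableSet_Ioi]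
    filter_upwards [h] with t ht ht'
    simp [ht ht']
  have h1 : Integrable fun x : Sp (n + 1) => |u ‖x‖ - w ‖x‖| :=
    (integrable_norm_iff n fun t => |u t - w t|).2 ((integrable_zero _ _ _).congr h0.symm)
  have h2 := integral_norm_eq n fun t => |u t - w t|
  rw [integral_congr_ae h0] at h2
  simp only [Pi.zero_apply, integral_zero, mul_zero] at h2
  rw [integral_eq_zero_iff_of_nonneg (fun _ => abs_nonneg _) h1] at h2
  filter_upwards [h2] with x hx
  simpa [sub_eq_zero] using hx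

lemma ae_ne_zero (n : ℕ) : ∀ᵐ x : Sp (n + 1), x ≠ 0 := by
  simp [ae_iff, measure_singleton]

lemma hasFDerivAt_radial {m : ℕ} {ζ ζ' : ℝ → ℝ} (h : ∀ t, HasDerivAt ζ (ζ' t) t) (h0 : ζ' 0 = 0)
    (x : Sp m) : HasFDerivAt (fun y : Sp m => ζ ‖y‖) ((ζ' ‖x‖ / ‖x‖) • innerSL ℝ x) x := by
  rcases eq_or_ne x 0 with rfl | hx
  · have h1 := h 0
    rw [h0, hasDerivAt_iff_isLittleO_nhds_zero] at h1
    rw [hasFDerivAt_iff_isLittleO_nhds_zero]
    have h2 := h1.comp_tendsto (tendsto_norm_zero (E := Sp m))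
    simp only [zero_add, smul_zero, sub_zero, map_zero, _root_.zero_apply,
      norm_zero] at h2 ⊢
    exact Asymptotics.isLittleO_norm_right.1 h2
  · have hx' : ‖x‖ ≠ 0 := norm_ne_zero_iff.2 hx
    have h1 := (hasStrictFDerivAt_norm_sq x).hasFDerivAt.sqrt (pow_ne_zero 2 hx')
    simp only [Real.sqrt_sq (norm_nonneg _)] at h1
    have h2 := (h ‖x‖).comp_hasFDerivAt x h1
    refine h2.congr_fderiv ?_
    ext v
    simp only [_root_.smul_apply, smul_eq_mul, nsmul_eq_mul]
    push_cast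
    field_simp

lemma exists_Icc {K : Set ℝ} (hK : IsCompact K) (h : K ⊆ Ioi 0) :
    ∃ a b, 0 < a ∧ a ≤ b ∧ K ⊆ Icc a b := by
  rcases K.eq_empty_or_nonempty with rfl | hne
  · exact ⟨1, 1, one_pos, le_rfl, empty_subset _⟩
  · obtain ⟨a, ha⟩ := hK.exists_isLeast hne
    obtain ⟨b, hb⟩ := hK.exists_isGreatest hne
    exact ⟨a, b, h ha.1, ha.2 hb.1, fun t ht => ⟨ha.2 ht, hb.2 ht⟩⟩

/-- a locally integrable function on the half line with vanishing distributional derivative is
constant -/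
lemma dbr {u : ℝ → ℝ} (hu : LocallyIntegrableOn u (Ioi 0))
    (h : ∀ η : ℝ → ℝ, ContDiff ℝ ∞ η → HasCompactSupport η → tsupport η ⊆ Ioi 0 →
      ∫ t, deriv η t * u t = 0) : ∃ c, ∀ᵐ t, t ∈ Ioi (0 : ℝ) → u t = c := by
  let b : ContDiffBump (2 : ℝ) := ⟨1 / 2, 1, by norm_num, by norm_num⟩
  set ρ := b.normed volume with hρ
  have ρ1 : ContDiff ℝ ∞ ρ := b.contDiff_normed
  have ρ2 : HasCompactSupport ρ := b.hasCompactSupport_normed
  have ρ3 : tsupport ρ ⊆ Ioi 0 := by
    rw [hρ, b.tsupport_normed_eq]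
    intro t ht
    rw [mem_closedBall, Real.dist_eq, abs_le] at ht
    have : b.rOut = 1 := rfl
    rw [mem_Ioi]
    linarith [ht.1]
  have ρ4 : ∫ t, ρ t = 1 := b.integral_normed
  have hint : ∀ ψ : ℝ → ℝ, Continuous ψ → HasCompactSupport ψ → tsupport ψ ⊆ Ioi 0 →
      Integrable fun t => ψ t * u t := fun ψ p1 p2 p3 => by
    have := (hu.integrableOn_compact_subset p3 p2).continuousOn_mul p1.continuousOn p2
    refine (integrableOn_iff_integrable_of_support_subset ?_).1 this
    exact (Function.support_mul_subset_left _ _).trans (subset_tsupport _)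
  refine ⟨∫ t, ρ t * u t, ?_⟩
  set c := ∫ t, ρ t * u t with hc
  have key := IsOpen.ae_eq_zero_of_integral_contDiff_smul_eq_zero (μ := volume)
    (f := fun t => u t - c) isOpen_Ioi
    (hu.sub (locallyIntegrableOn_const c)) fun ψ p1 p2 p3 => by
      set I := ∫ t, ψ t with hI
      set θ : ℝ → ℝ := fun t => ψ t - I * ρ t with hθ
      have θ1 : ContDiff ℝ ∞ θ := p1.sub (contDiff_const.mul ρ1)
      obtain ⟨α, β, a0, ab, hK⟩ := exists_Icc (IsCompact.union p2 ρ2) (union_subset p3 ρ3)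
      have θ2 : ∀ t, t ∉ Icc α β → θ t = 0 := fun t ht => by
        have e1 : ψ t = 0 := image_eq_zero_of_notMem_tsupport fun h' => ht (hK (Or.inl h'))
        have e2 : ρ t = 0 := image_eq_zero_of_notMem_tsupport fun h' => ht (hK (Or.inr h'))
        simp [hθ, e1, e2]
      have iψ : Integrable ψ := p1.continuous.integrable_of_hasCompactSupport p2
      have iρ : Integrable ρ := ρ1.continuous.integrable_of_hasCompactSupport ρ2
      have θ3 : ∫ t, θ t = 0 := by
        rw [hθ, integral_sub iψ (iρ.const_mul _), integral_const_mul, ρ4]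
        simp [hI]
      set η : ℝ → ℝ := fun t => ∫ s in (0 : ℝ)..t, θ s with hη
      have η0 : deriv η = θ := by
        ext t; exact θ1.continuous.deriv_integral θ 0 t
      have η1 : ContDiff ℝ ∞ η := by
        rw [contDiff_infty_iff_deriv, η0]
        exact ⟨fun t => (θ1.continuous.integral_hasStrictDerivAt 0 t).hasDerivAt.differentiableAt,
          θ1⟩
      have η2 : Function.support η ⊆ Icc α β := by
        intro t ht
        by_contra hn
        refine ht ?_
        rcases lt_or_ge t α with h1 | h1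
        · refine (intervalIntegral.integral_congr (g := fun _ => 0) fun s hs => θ2 s fun hs' => ?_).trans
            (by simp)
          have := hs.2
          have : max 0 t < α := max_lt a0 h1
          linarith [hs'.1]
        · have h2 : β < t := by
            by_contra h2
            exact hn ⟨h1, not_lt.1 h2⟩
          change ∫ s in (0 : ℝ)..t, θ s = 0
          rw [intervalIntegral.integral_eq_integral_of_support_subset, θ3]
          intro s hs
          by_contra hs'
          exact hs (θ2 s fun h' => hs' ⟨a0.trans_le h'.1, h'.2.trans h2.le⟩)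
      have η3 : tsupport η ⊆ Icc α β := closure_minimal η2 isClosed_Icc
      have e := h η η1 (isCompact_Icc.of_isClosed_subset (isClosed_tsupport _) η3)
        (η3.trans fun t ht => a0.trans_le ht.1)
      rw [η0] at e
      have e1 : ∫ t, θ t * u t = (∫ t, ψ t * u t) - I * c := by
        rw [hc, ← integral_const_mul, ← integral_sub (hint ψ p1.continuous p2 p3)
          ((hint ρ ρ1.continuous ρ2 ρ3).const_mul _)]
        refine integral_congr_ae (Eventually.of_forall fun t => ?_)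
        simp only [hθ]
        ring
      have e2 : ∫ t, ψ t • (u t - c) = (∫ t, ψ t * u t) - I * c := by
        rw [hI, ← integral_mul_const, ← integral_sub (hint ψ p1.continuous p2 p3)
          (iψ.mul_const _)]
        refine integral_congr_ae (Eventually.of_forall fun t => ?_)
        simp only [smul_eq_mul]
        ring
      rw [e2, ← e1, e]
  filter_upwards [key] with t ht ht'
  exact sub_eq_zero.1 (ht ht')

end Pool.Agent.MP_bf8c07_an_h89

end

-- part MP_bf8c07_an_h89.Radial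
section

/-!
The weak gradient of a radial function with a locally absolutely continuous profile.
-/

set_option autoImplicit false
open MeasureTheory Set Metric Filter Topology
open scoped ContDiff

namespace Pool.Agent.MP_bf8c07_an_h89

lemma fub (n : ℕ) {m : ℝ → ℝ} (hm : Measurable m)
    (hi : IntegrableOn (fun t => t ^ n * |m t|) (Ioi 0)) {k : Sp (n + 1) → ℝ} (hk : Measurable k)
    (hki : Integrable k) {c : ℝ} (hc : ∀ x, |k x| ≤ c) :
    Integrable (fun x : Sp (n + 1) => (∫ s in Ioi ‖x‖, m s) * k x) ∧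
      ∫ x : Sp (n + 1), (∫ s in Ioi ‖x‖, m s) * k x =
        ∫ s in Ioi 0, m s * ∫ x in ball (0 : Sp (n + 1)) s, k x := by
  set S : Set (Sp (n + 1) × ℝ) := {q | ‖q.1‖ < q.2} with hS
  have hSm : MeasurableSet S :=
    measurableSet_lt (f := fun q : Sp (n + 1) × ℝ => ‖q.1‖) (g := fun q => q.2) (by fun_prop)
      (by fun_prop)
  set K : Sp (n + 1) × ℝ → ℝ := S.indicator fun q => m q.2 * k q.1 with hK
  have hKm : Measurable K := ((hm.comp measurable_snd).mul (hk.comp measurable_fst)).indicator hSm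
  have hc0 : 0 ≤ c := (abs_nonneg _).trans (hc 0)
  have e1 : ∀ s, (fun x => K (x, s)) = (ball (0 : Sp (n + 1)) s).indicator fun x => m s * k x := by
    intro s; ext x
    simp only [hK, hS, indicator, mem_ofPred_eq, mem_ball_zero_iff]
  have e2 : ∀ x : Sp (n + 1), ∫ s in Ioi 0, K (x, s) = (∫ s in Ioi ‖x‖, m s) * k x := by
    intro x
    have : (fun s => K (x, s)) = (Ioi ‖x‖).indicator fun s => m s * k x := by
      ext s
      simp only [hK, hS, indicator, mem_ofPred_eq, mem_Ioi]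
    rw [this, setIntegral_indicator measurableSet_Ioi,
      inter_eq_right.2 (Ioi_subset_Ioi (norm_nonneg x)), integral_mul_const]
  have h0 := om_pos (n + 1)
  have hI0 : 0 ≤ ∫ x, |k x| := integral_nonneg fun _ => abs_nonneg _
  have hKi : Integrable K (volume.prod (volume.restrict (Ioi (0 : ℝ)))) := by
    rw [integrable_prod_iff' hKm.aestronglyMeasurable]
    refine ⟨Eventually.of_forall fun s => ?_, ?_⟩
    · rw [e1]
      exact (hki.const_mul _).indicator measurableSet_ball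
    · refine Integrable.mono' (hi.const_mul (c * om (n + 1) + ∫ x, |k x|))
        (hKm.stronglyMeasurable.norm.integral_prod_left').aestronglyMeasurable ?_
      filter_upwards [ae_restrict_mem measurableSet_Ioi] with s hs
      have hs0 : 0 < s := hs
      have e3 : ∫ x, ‖K (x, s)‖ = |m s| * ∫ x in ball (0 : Sp (n + 1)) s, |k x| := by
        rw [← integral_const_mul, ← integral_indicator measurableSet_ball]
        refine integral_congr_ae (Eventually.of_forall fun x => ?_)
        have := congrFun (e1 s) x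
        simp only at this ⊢
        rw [this, norm_indicator_eq_indicator_norm]
        simp only [Real.norm_eq_abs, abs_mul]
      rw [Real.norm_of_nonneg (integral_nonneg fun _ => norm_nonneg _), e3]
      have e4 : ∫ x in ball (0 : Sp (n + 1)) s, |k x| ≤ (c * om (n + 1) + ∫ x, |k x|) * s ^ n := by
        rcases le_total s 1 with h | h
        · have a1 := setIntegral_le_const measurableSet_ball measure_ball_lt_top.ne
            (hki.abs.integrableOn (s := ball (0 : Sp (n + 1)) s)) fun y _ => hc y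
          rw [vol_ball _ _ hs0] at a1
          have a2 : s ^ (n + 1) ≤ s ^ n := pow_le_pow_of_le_one hs0.le h (Nat.le_succ n)
          have a3 := mul_le_mul_of_nonneg_left a2 (mul_nonneg hc0 h0.le)
          have a4 : 0 ≤ (∫ x, |k x|) * s ^ n := by positivity
          linarith
        · have a1 := setIntegral_le_integral (s := ball (0 : Sp (n + 1)) s) hki.abs
            (Eventually.of_forall fun _ => abs_nonneg _)
          have a2 : 1 ≤ s ^ n := one_le_pow₀ h
          have a3 := mul_le_mul_of_nonneg_left a2 hI0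
          have a4 : 0 ≤ c * om (n + 1) * s ^ n := by positivity
          linarith
      have := mul_le_mul_of_nonneg_left e4 (abs_nonneg (m s))
      linarith
  constructor
  · have := hKi.integral_prod_left
    simpa only [e2] using this
  · have := integral_integral_swap (f := fun x s => K (x, s)) hKi
    simp only [e2] at this
    rw [this]
    refine integral_congr_ae (Eventually.of_forall fun s => ?_)
    simp only
    rw [e1, integral_indicator measurableSet_ball, integral_const_mul]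

lemma exists_abs_bound {m : ℕ} {k : Sp m → ℝ} (hk : Continuous k) (hs : HasCompactSupport k) :
    ∃ c, ∀ x, |k x| ≤ c := hk.bounded_above_of_compact_support hs

lemma fderiv_apply_cont {m : ℕ} {ψ : Sp m → ℝ} (h : ContDiff ℝ ∞ ψ) (v : Sp m) :
    Continuous fun x => fderiv ℝ ψ x v :=
  (h.continuous_fderiv (by simp)).clm_apply continuous_const

lemma abs_inner_div_le {m : ℕ} (x v : Sp m) : |inner ℝ x v / ‖x‖| ≤ ‖v‖ := by
  rcases eq_or_ne x 0 with rfl | hx
  · simp
  · rw [abs_div, abs_norm, div_le_iff₀ (norm_pos_iff.2 hx), mul_comm]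
    exact abs_real_inner_le_norm x v

lemma integrable_dir {m : ℕ} {ψ : Sp m → ℝ} (hψ : Integrable ψ) (v : Sp m) :
    Integrable fun x => inner ℝ x v / ‖x‖ * ψ x :=
  hψ.bdd_mul (c := ‖v‖) (Measurable.aestronglyMeasurable (by fun_prop))
    (Eventually.of_forall fun x => abs_inner_div_le x v)

/-- the divergence theorem for almost every ball centred at the origin -/
lemma div_ball (n : ℕ) {ψ : Sp (n + 1) → ℝ} (h1 : ContDiff ℝ ∞ ψ) (h2 : HasCompactSupport ψ)
    (v : Sp (n + 1)) : ∀ᵐ s, s ∈ Ioi (0 : ℝ) →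
      ∫ x in ball (0 : Sp (n + 1)) s, fderiv ℝ ψ x v =
        s ^ n * sph n (fun x => inner ℝ x v / ‖x‖ * ψ x) s := by
  have kc := fderiv_apply_cont h1 v
  have ks : HasCompactSupport fun x => fderiv ℝ ψ x v := h2.fderiv_apply ℝ v
  have ki : Integrable fun x => fderiv ℝ ψ x v := kc.integrable_of_hasCompactSupport ks
  obtain ⟨c, hc⟩ := exists_abs_bound kc ks
  have ψi : Integrable ψ := h1.continuous.integrable_of_hasCompactSupport h2
  have gi := integrable_dir ψi v
  set D : ℝ → ℝ := fun s => ∫ x in ball (0 : Sp (n + 1)) s, fderiv ℝ ψ x v with hD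
  set k : ℝ → ℝ := fun s => s ^ n * sph n (fun x => inner ℝ x v / ‖x‖ * ψ x) s with hk
  have k1 : IntegrableOn k (Ioi 0) := (polar n gi).1
  have Dm : Measurable D := by
    have hSm : MeasurableSet {q : Sp (n + 1) × ℝ | ‖q.1‖ < q.2} :=
      measurableSet_lt (f := fun q : Sp (n + 1) × ℝ => ‖q.1‖) (g := fun q => q.2) (by fun_prop)
        (by fun_prop)
    have := (((kc.measurable.comp measurable_fst).indicator hSm).stronglyMeasurable.integral_prod_left'
      (μ := (volume : Measure (Sp (n + 1))))).measurable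
    refine (congrArg Measurable ?_).mp this
    ext s
    rw [hD]
    simp only
    rw [← integral_indicator measurableSet_ball]
    refine integral_congr_ae (Eventually.of_forall fun x => ?_)
    simp only [indicator, mem_ofPred_eq, mem_ball_zero_iff, Function.comp]
  have Db : ∀ s, ‖D s‖ ≤ ∫ x, ‖fderiv ℝ ψ x v‖ := fun s =>
    (norm_integral_le_integral_norm _).trans
      (setIntegral_le_integral ki.norm (Eventually.of_forall fun _ => norm_nonneg _))
  have Dl : LocallyIntegrableOn D (Ioi 0) := by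
    refine LocallyIntegrable.locallyIntegrableOn (fun x => ?_) _
    refine ⟨ball x 1, ball_mem_nhds x one_pos, ?_⟩
    exact Measure.integrableOn_of_bounded measure_ball_lt_top.ne Dm.aestronglyMeasurable
      (Eventually.of_forall Db)
  have key := IsOpen.ae_eq_zero_of_integral_contDiff_smul_eq_zero (μ := volume)
    (f := fun t => D t - k t) isOpen_Ioi (Dl.sub k1.locallyIntegrableOn) fun η p1 p2 p3 => by
      have ηi : Integrable η := p1.continuous.integrable_of_hasCompactSupport p2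
      have η0 : ∀ t, t ∉ Ioi (0 : ℝ) → η t = 0 := fun t ht =>
        image_eq_zero_of_notMem_tsupport fun h' => ht (p3 h')
      obtain ⟨c', hc'⟩ := p1.continuous.bounded_above_of_compact_support p2
      have ηw : IntegrableOn (fun t => t ^ n * |η t|) (Ioi 0) :=
        (((continuous_pow n).mul p1.continuous.abs).integrable_of_hasCompactSupport
          p2.abs.mul_left).integrableOn
      obtain ⟨f1, f2⟩ := fub n p1.continuous.measurable ηw kc.measurable ki hc
      have hH : ∀ t, HasDerivAt (fun t => ∫ s in Ioi t, η s) (-η t) t := by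
        intro t
        have a1 : (fun t => ∫ s in Ioi t, η s) = fun t => (∫ s in Ioi 0, η s) - ∫ s in (0 : ℝ)..t, η s := by
          ext t
          rw [← intervalIntegral.integral_Ioi_sub_Ioi' ηi.integrableOn ηi.integrableOn]
          ring
        rw [a1]
        exact (p1.continuous.integral_hasStrictDerivAt 0 t).hasDerivAt.const_sub _
      have hF := hasFDerivAt_radial (m := n + 1) hH (by simp [η0 0 (by simp)])
      have hFc : Continuous fun y : Sp (n + 1) => ∫ s in Ioi ‖y‖, η s :=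
        continuous_iff_continuousAt.2 fun y => (hF y).continuousAt
      have e0 : ∀ x : Sp (n + 1), fderiv ℝ (fun y : Sp (n + 1) => ∫ s in Ioi ‖y‖, η s) x v * ψ x =
          -(η ‖x‖ * (inner ℝ x v / ‖x‖ * ψ x)) := fun x => by
        rw [(hF x).fderiv]
        simp only [_root_.smul_apply, innerSL_apply_apply, smul_eq_mul]
        ring
      have gi' : Integrable fun x : Sp (n + 1) => η ‖x‖ * (inner ℝ x v / ‖x‖ * ψ x) :=
        gi.bdd_mul (c := c') (p1.continuous.comp continuous_norm).aestronglyMeasurable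
          (Eventually.of_forall fun x => hc' _)
      have e1 := integral_mul_fderiv_eq_neg_fderiv_mul_of_integrable (μ := volume) (v := v)
        (f := fun y : Sp (n + 1) => ∫ s in Ioi ‖y‖, η s) (g := ψ)
        (by simp only [e0]; exact gi'.neg) f1
        ((hFc.mul h1.continuous).integrable_of_hasCompactSupport h2.mul_left)
        (fun x _ => (hF x).differentiableAt)
        (fun x _ => h1.differentiable (by simp) x)
      simp only [e0] at e1
      rw [integral_neg, neg_neg, f2, polar_mul n _ η gi'] at e1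
      have i1 : IntegrableOn (fun s => η s * D s) (Ioi 0) :=
        (ηi.mul_bdd Dm.aestronglyMeasurable (Eventually.of_forall Db)).integrableOn
      have i2 : IntegrableOn (fun s => η s * k s) (Ioi 0) :=
        Integrable.bdd_mul (c := c') k1 p1.continuous.aestronglyMeasurable
          (Eventually.of_forall hc')
      rw [← setIntegral_eq_integral_of_forall_compl_eq_zero (s := Ioi 0)
        fun t ht => by simp [η0 t ht]]
      simp only [smul_eq_mul, mul_sub]
      rw [integral_sub i1 i2]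
      exact sub_eq_zero.2 e1
  filter_upwards [key] with t ht ht'
  exact sub_eq_zero.1 (ht ht')

theorem radial_weak (n : ℕ) {M M1 : ℝ → ℝ} (hm : Measurable M1)
    (hftc : ∀ x y, 0 < x → 0 < y → M y - M x = ∫ t in x..y, M1 t)
    (hi : IntegrableOn (fun t => t ^ n * |M1 t|) (Ioi 0)) :
    Integrable (fun x : Sp (n + 1) => (M1 ‖x‖ / ‖x‖) • x) ∧
    LocallyIntegrable (fun x : Sp (n + 1) => M ‖x‖) ∧
    (∀ ψ : Sp (n + 1) → ℝ, ContDiff ℝ ∞ ψ → HasCompactSupport ψ → ∀ v : Sp (n + 1),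
      ∫ x, M ‖x‖ * fderiv ℝ ψ x v = - ∫ x, inner ℝ ((M1 ‖x‖ / ‖x‖) • x) v * ψ x) ∧
    ∫ x : Sp (n + 1), ‖(M1 ‖x‖ / ‖x‖) • x‖ =
      (n + 1) * om (n + 1) * ∫ t in Ioi 0, t ^ n * |M1 t| := by
  have hG : ∀ᵐ x : Sp (n + 1), ‖(M1 ‖x‖ / ‖x‖) • x‖ = |M1 ‖x‖| := by
    filter_upwards [ae_ne_zero n] with x hx
    have := norm_pos_iff.2 hx
    rw [norm_smul, Real.norm_eq_abs, abs_div, abs_norm]
    field_simp
  have hA : Integrable fun x : Sp (n + 1) => |M1 ‖x‖| :=
    (integrable_norm_iff n fun t => |M1 t|).2 hi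
  have hA' : Integrable fun x : Sp (n + 1) => M1 ‖x‖ :=
    (MeasureTheory.integrable_norm_iff (hm.comp measurable_norm).aestronglyMeasurable).1 hA
  have hT : ∀ t, 0 < t → IntegrableOn M1 (Ioi t) := fun t ht => by
    refine Integrable.mono' ((hi.mono_set (Ioi_subset_Ioi ht.le)).const_mul (t ^ n)⁻¹)
      hm.aestronglyMeasurable ?_
    filter_upwards [ae_restrict_mem measurableSet_Ioi] with s hs
    rw [Real.norm_eq_abs, ← mul_assoc]
    refine le_mul_of_one_le_left (abs_nonneg _) ?_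
    rw [inv_mul_eq_div, one_le_div (by positivity)]
    exact pow_le_pow_left₀ ht.le (le_of_lt hs) _
  set c := M 1 + ∫ s in Ioi 1, M1 s with hc
  have hM : ∀ᵐ x : Sp (n + 1), M ‖x‖ = c - ∫ s in Ioi ‖x‖, M1 s := by
    filter_upwards [ae_ne_zero n] with x hx
    have hx' := norm_pos_iff.2 hx
    have e1 := intervalIntegral.integral_Ioi_sub_Ioi' (hT 1 one_pos) (hT _ hx')
    have e2 := hftc 1 _ one_pos hx'
    linarith
  refine ⟨?_, ?_, fun ψ h1 h2 v => ?_, ?_⟩
  · refine hA.mono' (Measurable.aestronglyMeasurable ?_) (hG.mono fun x hx => hx.le)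
    exact ((hm.comp measurable_norm).div measurable_norm).smul measurable_id
  · intro x
    refine ⟨ball x 1, ball_mem_nhds x one_pos, ?_⟩
    have := (fub n hm hi (k := (ball x 1).indicator fun _ => 1) (c := 1)
      (measurable_const.indicator measurableSet_ball)
      ((integrable_indicator_iff measurableSet_ball).2 (integrableOn_const measure_ball_lt_top.ne))
      fun y => by by_cases hy : y ∈ ball x 1 <;> simp [hy]).1
    have h3 : IntegrableOn (fun y : Sp (n + 1) => ∫ s in Ioi ‖y‖, M1 s) (ball x 1) :=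
      this.integrableOn.congr_fun (fun y hy => by simp [hy]) measurableSet_ball
    exact ((integrableOn_const (C := c) measure_ball_lt_top.ne).sub h3).congr
      (ae_restrict_of_ae (hM.mono fun y hy => hy.symm))
  · have kc := fderiv_apply_cont h1 v
    have ks : HasCompactSupport fun x => fderiv ℝ ψ x v := h2.fderiv_apply ℝ v
    have ki : Integrable fun x => fderiv ℝ ψ x v := kc.integrable_of_hasCompactSupport ks
    obtain ⟨b, hb⟩ := exists_abs_bound kc ks
    obtain ⟨b', hb'⟩ := exists_abs_bound h1.continuous h2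
    have ψi : Integrable ψ := h1.continuous.integrable_of_hasCompactSupport h2
    obtain ⟨f1, f2⟩ := fub n hm hi kc.measurable ki hb
    have e0 := integral_mul_fderiv_eq_neg_fderiv_mul_of_integrable (μ := volume) (v := v)
      (f := fun _ : Sp (n + 1) => c) (g := ψ) (by simp) (ki.const_mul c) (ψi.const_mul c)
      (fun x _ => differentiableAt_const c) (fun x _ => h1.differentiable (by simp) x)
    simp only [fderiv_fun_const, Pi.zero_apply, _root_.zero_apply, zero_mul, integral_zero,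
      neg_zero] at e0
    have e1 : ∫ x, M ‖x‖ * fderiv ℝ ψ x v = (∫ x, c * fderiv ℝ ψ x v) -
        ∫ x : Sp (n + 1), (∫ s in Ioi ‖x‖, M1 s) * fderiv ℝ ψ x v := by
      rw [← integral_sub (ki.const_mul c) f1]
      refine integral_congr_ae (hM.mono fun x hx => ?_)
      simp only [hx]
      ring
    have gi : Integrable fun x : Sp (n + 1) => M1 ‖x‖ * (inner ℝ x v / ‖x‖ * ψ x) := by
      refine hA'.mul_bdd (c := ‖v‖ * b') (integrable_dir ψi v).1 (Eventually.of_forall fun x => ?_)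
      rw [Real.norm_eq_abs, abs_mul]
      exact mul_le_mul (abs_inner_div_le x v) (hb' x) (abs_nonneg _) (norm_nonneg _)
    have e2 : ∫ x, inner ℝ ((M1 ‖x‖ / ‖x‖) • x) v * ψ x =
        ∫ x : Sp (n + 1), M1 ‖x‖ * (inner ℝ x v / ‖x‖ * ψ x) := by
      refine integral_congr_ae (Eventually.of_forall fun x => ?_)
      simp only [real_inner_smul_left]
      ring
    rw [e1, e0, f2, e2, polar_mul n _ M1 gi, zero_sub, neg_inj]
    refine setIntegral_congr_ae measurableSet_Ioi ?_
    filter_upwards [div_ball n h1 h2 v] with s hs hs'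
    rw [hs hs']
  · rw [integral_congr_ae hG]
    exact integral_norm_eq n fun t => |M1 t|

end Pool.Agent.MP_bf8c07_an_h89

end

-- part MP_bf8c07_an_h89.Profile
section

/-!
The profile of a radial Sobolev function.
-/

set_option autoImplicit false
open MeasureTheory Set Metric Filter Topology
open scoped ContDiff

namespace Pool.Agent.MP_bf8c07_an_h89

lemma locInt_of_ii {u : ℝ → ℝ} (h : ∀ x y, 0 < x → 0 < y → IntervalIntegrable u volume x y) :
    LocallyIntegrableOn u (Ioi 0) := by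
  intro x hx
  have hx0 : (0 : ℝ) < x := hx
  exact ⟨Ioc (x / 2) (2 * x), mem_nhdsWithin_of_mem_nhds (Ioc_mem_nhds (by linarith) (by linarith)),
    (h _ _ (half_pos hx0) (by positivity)).1⟩

lemma contDiff_radial {m : ℕ} {ζ : ℝ → ℝ} (h : ContDiff ℝ ∞ ζ) (h0 : (0 : ℝ) ∉ tsupport ζ) :
    ContDiff ℝ ∞ fun x : Sp m => ζ ‖x‖ := by
  refine contDiff_iff_contDiffAt.2 fun x => ?_
  rcases eq_or_ne x 0 with rfl | hx
  · have h1 := notMem_tsupport_iff_eventuallyEq.1 h0
    have h2 : (fun x : Sp m => ζ ‖x‖) =ᶠ[𝓝 0] fun _ => 0 :=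
      (tendsto_norm_zero (E := Sp m)).eventually h1
    exact contDiffAt_const.congr_of_eventuallyEq h2
  · exact h.contDiffAt.comp x (contDiffAt_norm ℝ hx)

/-- testing the weak gradient against radial vector fields -/
lemma test_field (n : ℕ) {f : Sp (n + 1) → ℝ} {g : Sp (n + 1) → Sp (n + 1)} (hf : Integrable f)
    (hg : Integrable g)
    (hw : ∀ φ : Sp (n + 1) → ℝ, ContDiff ℝ ∞ φ → HasCompactSupport φ → ∀ v : Sp (n + 1),
      ∫ x, f x * fderiv ℝ φ x v = - ∫ x, inner ℝ (g x) v * φ x)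
    {ζ : ℝ → ℝ} (z1 : ContDiff ℝ ∞ ζ) (z2 : HasCompactSupport ζ) (z3 : tsupport ζ ⊆ Ioi 0) :
    ∫ x, f x * (deriv ζ ‖x‖ * ‖x‖ + (n + 1) * ζ ‖x‖) = - ∫ x, ζ ‖x‖ * inner ℝ (g x) x := by
  have z0 : (0 : ℝ) ∉ tsupport ζ := fun h => lt_irrefl (0 : ℝ) (z3 h)
  obtain ⟨α, β, a0, ab, hK⟩ := exists_Icc z2 z3
  set b := EuclideanSpace.basisFun (Fin (n + 1)) ℝ with hb
  set φ : Fin (n + 1) → Sp (n + 1) → ℝ := fun i x => ζ ‖x‖ * innerSL ℝ (b i) x with hφ
  have r2 : HasCompactSupport fun x : Sp (n + 1) => ζ ‖x‖ :=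
    HasCompactSupport.intro (isCompact_closedBall 0 β) fun x hx =>
      image_eq_zero_of_notMem_tsupport fun h' => hx (mem_closedBall_zero_iff.2 (hK h').2)
  have φ1 : ∀ i, ContDiff ℝ ∞ (φ i) := fun i =>
    (contDiff_radial z1 z0).mul (innerSL ℝ (b i)).contDiff
  have φ2 : ∀ i, HasCompactSupport (φ i) := fun i => r2.mul_right
  have hd0 : deriv ζ 0 = 0 := by
    rw [(notMem_tsupport_iff_eventuallyEq.1 z0).deriv_eq]
    simp
  have hF := hasFDerivAt_radial (m := n + 1)
    (fun t => (z1.differentiable (by simp) t).hasDerivAt) hd0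
  have e1 : ∀ i x, fderiv ℝ (φ i) x (b i) =
      ζ ‖x‖ + deriv ζ ‖x‖ / ‖x‖ * (inner ℝ x (b i) * inner ℝ (b i) x) := fun i x => by
    have := ((hF x).fun_mul (innerSL ℝ (b i)).hasFDerivAt).fderiv
    rw [hφ]
    simp only
    rw [this]
    simp only [_root_.add_apply, _root_.smul_apply, innerSL_apply_apply, smul_eq_mul,
      real_inner_self_eq_norm_sq, b.norm_eq_one]
    ring
  have e2 : ∀ x, ∑ i, f x * fderiv ℝ (φ i) x (b i) =
      f x * (deriv ζ ‖x‖ * ‖x‖ + (n + 1) * ζ ‖x‖) := fun x => by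
    simp only [e1]
    rw [← Finset.mul_sum, Finset.sum_add_distrib, ← Finset.mul_sum, b.sum_inner_mul_inner,
      real_inner_self_eq_norm_sq]
    congr 1
    simp only [Finset.sum_const, Finset.card_univ, Fintype.card_fin, nsmul_eq_mul]
    push_cast
    rcases eq_or_ne ‖x‖ 0 with h | h
    · simp [h]
    · field_simp
      ring
  have e3 : ∀ x, ∑ i, inner ℝ (g x) (b i) * φ i x = ζ ‖x‖ * inner ℝ (g x) x := fun x => by
    rw [← b.sum_inner_mul_inner (g x) x, Finset.mul_sum]
    refine Finset.sum_congr rfl fun i _ => ?_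
    simp only [hφ, innerSL_apply_apply]
    ring
  simp only [← e2, ← e3]
  rw [integral_finsetSum, integral_finsetSum, ← Finset.sum_neg_distrib]
  · exact Finset.sum_congr rfl fun i _ => hw _ (φ1 i) (φ2 i) _
  · intro i _
    obtain ⟨c, hc⟩ := exists_abs_bound (φ1 i).continuous (φ2 i)
    exact (hg.inner_const (b i)).mul_bdd (φ1 i).continuous.aestronglyMeasurable
      (Eventually.of_forall hc)
  · intro i _
    obtain ⟨c, hc⟩ := exists_abs_bound (fderiv_apply_cont (φ1 i) (b i))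
      ((φ2 i).fderiv_apply ℝ (b i))
    exact hf.mul_bdd (fderiv_apply_cont (φ1 i) (b i)).aestronglyMeasurable
      (Eventually.of_forall hc)

lemma ibp_prim {h : ℝ → ℝ} (hi : ∀ x y, 0 < x → 0 < y → IntervalIntegrable h volume x y)
    {η : ℝ → ℝ} (p1 : ContDiff ℝ ∞ η) (p2 : HasCompactSupport η) (p3 : tsupport η ⊆ Ioi 0) :
    ∫ t, deriv η t * ∫ s in (1 : ℝ)..t, h s = - ∫ t, η t * h t := by
  obtain ⟨α, β, a0, ab, hK⟩ := exists_Icc (p2.isCompact.union (isCompact_singleton (x := 1)))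
    (union_subset p3 (singleton_subset_iff.2 (mem_Ioi.2 one_pos)))
  have h1 : (1 : ℝ) ∈ Icc α β := hK (Or.inr rfl)
  have hK' : tsupport η ⊆ Icc α β := subset_union_left.trans hK
  have hsub : Icc α β ⊆ Ioc (α / 2) (β + 1) := fun t ht => ⟨by linarith [ht.1], by linarith [ht.2]⟩
  have hle : α / 2 ≤ β + 1 := by linarith
  have hI := hi (α / 2) (β + 1) (half_pos a0) (by linarith)
  have h1' : (1 : ℝ) ∈ uIcc (α / 2) (β + 1) := by
    rw [uIcc_of_le hle]; exact Ioc_subset_Icc_self (hsub h1)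
  have hac := hI.absolutelyContinuousOnInterval_intervalIntegral h1'
  have hη : AbsolutelyContinuousOnInterval η (α / 2) (β + 1) :=
    ContDiffOn.absolutelyContinuousOnInterval (p1.of_le (by simp)).contDiffOn
  have e := hac.integral_mul_deriv_eq_deriv_mul hη
  have η1 : η (α / 2) = 0 :=
    image_eq_zero_of_notMem_tsupport fun h' => by linarith [(hK' h').1]
  have η2 : η (β + 1) = 0 :=
    image_eq_zero_of_notMem_tsupport fun h' => by linarith [(hK' h').2]
  rw [η1, η2, mul_zero, mul_zero, sub_zero, zero_sub] at e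
  have e1 : ∫ x in (α / 2)..(β + 1), deriv (fun x => ∫ v in (1 : ℝ)..x, h v) x * η x =
      ∫ x in (α / 2)..(β + 1), η x * h x := by
    refine intervalIntegral.integral_congr_ae ?_
    filter_upwards [hI.ae_hasDerivAt_integral] with x hx hx'
    rw [(hx (uIoc_subset_uIcc hx') 1 h1').deriv, mul_comm]
  rw [e1, intervalIntegral.integral_eq_integral_of_support_subset,
    intervalIntegral.integral_eq_integral_of_support_subset] at e
  · rw [← e]
    exact integral_congr_ae (Eventually.of_forall fun t => mul_comm _ _)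
  · exact (Function.support_mul_subset_left _ _).trans ((subset_tsupport _).trans (hK'.trans hsub))
  · exact (Function.support_mul_subset_right _ _).trans
      (support_deriv_subset.trans (hK'.trans hsub))

theorem profile (n : ℕ) {f : Sp (n + 1) → ℝ} {g : Sp (n + 1) → Sp (n + 1)}
    (hr : ∀ x y, ‖x‖ = ‖y‖ → f x = f y) (hf : Integrable f) (hg : Integrable g)
    (hw : ∀ φ : Sp (n + 1) → ℝ, ContDiff ℝ ∞ φ → HasCompactSupport φ → ∀ v : Sp (n + 1),
      ∫ x, f x * fderiv ℝ φ x v = - ∫ x, inner ℝ (g x) v * φ x) :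
    ∃ F a : ℝ → ℝ, Prof n F a ∧
      (n + 1) * om (n + 1) * ∫ t in Ioi 0, t ^ n * a t ≤ ∫ x, ‖g x‖ ∧ ∀ᵐ x, |f x| = F ‖x‖ := by
  set f₀ : ℝ → ℝ := fun t => f (ax n t) with hf₀
  have hff : ∀ x, f x = f₀ ‖x‖ := fun x => hr _ _ (by rw [norm_ax, abs_norm])
  have h0 := om_pos (n + 1)
  set κ : ℝ := (n + 1) * om (n + 1) with hκ
  have κ0 : 0 < κ := by positivity
  set G₀ : Sp (n + 1) → ℝ := fun x => inner ℝ x (g x) / ‖x‖ with hG₀
  have G₀i : Integrable G₀ := by
    refine hg.norm.mono' ((aestronglyMeasurable_id.inner hg.1).aemeasurable.div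
      measurable_norm.aemeasurable).aestronglyMeasurable
      (Eventually.of_forall fun x => abs_inner_div_le x (g x))
  set G := G₀i.1.mk G₀ with hG
  have Gm : Measurable G := G₀i.1.stronglyMeasurable_mk.measurable
  have Ge : G₀ =ᵐ[volume] G := G₀i.1.ae_eq_mk
  have Gi : Integrable G := G₀i.congr Ge
  set h : ℝ → ℝ := fun t => sph n G t / κ with hh
  have hm : Measurable h := (measurable_sph n Gm).div_const κ
  have hi : IntegrableOn (fun t => t ^ n * h t) (Ioi 0) := by
    have := (polar n Gi).1.div_const κ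
    simp only [mul_div_assoc] at this
    exact this
  have hi' : IntegrableOn (fun t => t ^ n * |h t|) (Ioi 0) :=
    IntegrableOn.congr_fun hi.abs (fun t ht => by
      have ht0 : (0 : ℝ) ≤ t ^ n := pow_nonneg (le_of_lt ht) n
      simp only [abs_mul, abs_of_nonneg ht0]) measurableSet_Ioi
  have hii : ∀ x y, 0 < x → 0 < y → IntervalIntegrable h volume x y := fun x y hx hy =>
    intervalIntegrable_of_weight hi hx hy
  have fi : IntegrableOn (fun t => t ^ n * f₀ t) (Ioi 0) :=
    (integrable_norm_iff n f₀).1 (hf.congr (Eventually.of_forall hff))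
  have fl : LocallyIntegrableOn f₀ (Ioi 0) :=
    locInt_of_ii fun x y hx hy => intervalIntegrable_of_weight fi hx hy
  set H : ℝ → ℝ := fun t => ∫ s in (1 : ℝ)..t, h s with hH
  have Hc : ContinuousOn H (Ioi 0) := by
    intro x hx
    have hx0 : (0 : ℝ) < x := hx
    have m1 : min (x / 2) 1 ≤ max (2 * x) 1 := (min_le_right _ _).trans (le_max_right _ _)
    have a1 := ((hii (min (x / 2) 1) (max (2 * x) 1) (lt_min (half_pos hx0) one_pos)
      (one_pos.trans_le (le_max_right _ _))).absolutelyContinuousOnInterval_intervalIntegral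
      (c := 1) (by rw [uIcc_of_le m1]; exact ⟨min_le_right _ _, le_max_right _ _⟩)).continuousOn
    rw [uIcc_of_le m1] at a1
    exact (a1.continuousAt (Icc_mem_nhds ((min_le_left _ _).trans_lt (by linarith))
      (lt_of_lt_of_le (by linarith) (le_max_left _ _)))).continuousWithinAt
  have Hl : LocallyIntegrableOn H (Ioi 0) := Hc.locallyIntegrableOn measurableSet_Ioi
  obtain ⟨c, hc⟩ := dbr (u := fun t => f₀ t - H t) (fl.sub Hl) fun η p1 p2 p3 => by
    have hint : ∀ u : ℝ → ℝ, LocallyIntegrableOn u (Ioi 0) →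
        Integrable fun t => deriv η t * u t := fun u hu => by
      have := (hu.integrableOn_compact_subset p3 p2).continuousOn_mul
        (p1.continuous_deriv (by simp)).continuousOn p2
      refine (integrableOn_iff_integrable_of_support_subset ?_).1 this
      exact (Function.support_mul_subset_left _ _).trans support_deriv_subset
    simp only [mul_sub]
    rw [integral_sub (hint _ fl) (hint _ Hl), ibp_prim hii p1 p2 p3]
    have η0 : ∀ t, t ∉ Ioi (0 : ℝ) → η t = 0 := fun t ht =>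
      image_eq_zero_of_notMem_tsupport fun h' => ht (p3 h')
    have η0' : ∀ t, t ∉ Ioi (0 : ℝ) → deriv η t = 0 := fun t ht => by
      by_contra hne
      exact ht (p3 (support_deriv_subset hne))
    set ζ : ℝ → ℝ := fun t => η t * (t ^ (n + 1))⁻¹ with hζ
    have z3 : tsupport ζ ⊆ tsupport η := tsupport_mul_subset_left
    have z2 : HasCompactSupport ζ := p2.mul_right
    have z1 : ContDiff ℝ ∞ ζ := by
      refine contDiff_iff_contDiffAt.2 fun t => ?_
      rcases eq_or_ne t 0 with rfl | ht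
      · exact contDiffAt_const.congr_of_eventuallyEq
          (notMem_tsupport_iff_eventuallyEq.1 fun h' => lt_irrefl (0 : ℝ) (p3 (z3 h')))
      · exact p1.contDiffAt.mul ((contDiffAt_id.pow _).inv (pow_ne_zero _ ht))
    have zd : ∀ t, 0 < t → deriv η t = t ^ n * (deriv ζ t * t + (n + 1) * ζ t) := fun t ht => by
      have a1 : η =ᶠ[𝓝 t] fun s => ζ s * s ^ (n + 1) := by
        filter_upwards [Ioi_mem_nhds ht] with s hs
        have : s ≠ 0 := ne_of_gt hs
        simp only [hζ]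
        field_simp
      rw [a1.deriv_eq, ((z1.differentiable (by simp) t).hasDerivAt.fun_mul
        (hasDerivAt_pow (n + 1) t)).deriv]
      push_cast
      ring
    have e := test_field n hf hg hw z1 z2 (z3.trans p3)
    have e1 : ∫ x, f x * (deriv ζ ‖x‖ * ‖x‖ + (n + 1) * ζ ‖x‖) = κ * ∫ t, deriv η t * f₀ t := by
      simp only [hff]
      rw [integral_norm_eq n fun t => f₀ t * (deriv ζ t * t + (n + 1) * ζ t),
        ← setIntegral_eq_integral_of_forall_compl_eq_zero (s := Ioi 0)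
          (f := fun t => deriv η t * f₀ t) fun t ht => by simp [η0' t ht]]
      congr 1
      refine setIntegral_congr_fun measurableSet_Ioi fun t ht => ?_
      simp only [zd t ht]
      ring
    have e2 : ∫ x, ζ ‖x‖ * inner ℝ (g x) x = κ * ∫ t, η t * h t := by
      have a1 : ∫ x, ζ ‖x‖ * inner ℝ (g x) x = ∫ x, (ζ ‖x‖ * ‖x‖) * G x := by
        refine integral_congr_ae ?_
        filter_upwards [Ge, ae_ne_zero n] with x hx hx0
        have : ‖x‖ ≠ 0 := norm_ne_zero_iff.2 hx0
        rw [← hx, real_inner_comm]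
        simp only [hG₀]
        field_simp
      obtain ⟨c', hc'⟩ := (z1.continuous.mul continuous_id).bounded_above_of_compact_support
        z2.mul_right
      rw [a1, polar_mul n G (fun t => ζ t * t) (Gi.bdd_mul (c := c')
        ((z1.continuous.comp continuous_norm).mul continuous_norm).aestronglyMeasurable
        (Eventually.of_forall fun x => hc' _)),
        ← setIntegral_eq_integral_of_forall_compl_eq_zero (s := Ioi 0)
          (f := fun t => η t * h t) fun t ht => by simp [η0 t ht], ← integral_const_mul]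
      refine setIntegral_congr_fun measurableSet_Ioi fun t ht => ?_
      have : t ≠ 0 := ne_of_gt ht
      simp only [hζ, hh]
      field_simp
      ring
    rw [e1, e2, ← mul_neg, mul_right_inj' κ0.ne'] at e
    rw [e, sub_self]
  have hae : ∀ᵐ x, |f x| = |c + H ‖x‖| := by
    have := ae_norm_eq n (u := f₀) (w := fun t => c + H t)
      (hc.mono fun t ht ht' => by linarith [ht ht'])
    filter_upwards [this] with x hx
    rw [hff, hx]
  refine ⟨fun t => |c + H t|, fun t => |h t|, ⟨fun _ => abs_nonneg _, hf.abs.congr hae,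
    fun _ => abs_nonneg _, hm.abs, hi', fun x y hx hxy => ?_⟩, ?_, hae⟩
  · refine (abs_abs_sub_abs_le_abs_sub _ _).trans ?_
    rw [add_sub_add_left_eq_sub, hH]
    simp only
    rw [intervalIntegral.integral_interval_sub_left (hii 1 y one_pos (hx.trans_le hxy))
      (hii 1 x one_pos hx)]
    exact intervalIntegral.abs_integral_le_integral_abs hxy
  · rw [← integral_const_mul]
    calc ∫ t in Ioi 0, κ * (t ^ n * |h t|) ≤ ∫ t in Ioi 0, t ^ n * sph n (fun x => |G x|) t := by
          refine setIntegral_mono_on (hi'.const_mul κ) (polar n Gi.abs).1 measurableSet_Ioi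
            fun t ht => ?_
          have a1 : κ * (t ^ n * |h t|) = t ^ n * |sph n G t| := by
            simp only [hh, abs_div, abs_of_pos κ0]
            field_simp
          rw [a1]
          exact mul_le_mul_of_nonneg_left (abs_sph_le n G t) (pow_nonneg (le_of_lt ht) _)
      _ = ∫ x, |G x| := (polar n Gi.abs).2.symm
      _ ≤ ∫ x, ‖g x‖ := by
          refine integral_mono_ae Gi.abs hg.norm ?_
          filter_upwards [Ge] with x hx
          rw [← hx]
          exact abs_inner_div_le x (g x)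

end Pool.Agent.MP_bf8c07_an_h89

end

-- part MP_bf8c07_an_h89.Level
section

/-!
Level-set bookkeeping: indicator functions of half-open intervals of levels, and the discrete
gap / hill functional used to bound signed sums.
-/

set_option autoImplicit false
open MeasureTheory Set Finset

namespace Pool.Agent.MP_bf8c07_an_h89

/-- indicator of the level interval from `a` (included) to `b` (excluded) -/
noncomputable def ind (a b l : ℝ) : ℝ := if a ≤ l ∧ l < b then 1 else 0

lemma ind_nonneg (a b l : ℝ) : 0 ≤ ind a b l := by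
  unfold ind; split_ifs <;> norm_num

lemma ind_le_one (a b l : ℝ) : ind a b l ≤ 1 := by
  unfold ind; split_ifs <;> norm_num

lemma ind_of {a b l : ℝ} (h1 : a ≤ l) (h2 : l < b) : ind a b l = 1 := by
  unfold ind; rw [if_pos ⟨h1, h2⟩]

lemma ind_of_lt {a b l : ℝ} (h1 : l < a) : ind a b l = 0 := by
  unfold ind; rw [if_neg]; intro h; linarith [h.1]

lemma ind_of_le {a b l : ℝ} (h1 : b ≤ l) : ind a b l = 0 := by
  unfold ind; rw [if_neg]; intro h; linarith [h.2]

lemma ind_eq_indicator (a b : ℝ) : ind a b = (Set.Ico a b).indicator (fun _ => (1 : ℝ)) := by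
  funext l
  unfold ind
  by_cases h : a ≤ l ∧ l < b
  · rw [if_pos h, Set.indicator_of_mem (by exact h)]
  · rw [if_neg h, Set.indicator_of_notMem (by exact h)]

/-- `F` is integrable in the level variable, with integral `v` -/
def Lev (F : ℝ → ℝ) (v : ℝ) : Prop := Integrable F ∧ ∫ l, F l = v

lemma Lev.ind (a b : ℝ) : Lev (ind a b) (max (b - a) 0) := by
  rw [ind_eq_indicator]
  refine ⟨?_, ?_⟩
  · rw [integrable_indicator_iff measurableSet_Ico]
    exact integrableOn_const (by simp)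
  · rw [integral_indicator measurableSet_Ico]
    simp [Measure.real, ENNReal.toReal_ofReal']

lemma Lev.zero : Lev (fun _ => 0) 0 := ⟨integrable_zero _ _ _, by simp⟩

lemma Lev.add {F G : ℝ → ℝ} {v w : ℝ} (hF : Lev F v) (hG : Lev G w) :
    Lev (fun l => F l + G l) (v + w) :=
  ⟨hF.1.add hG.1, by rw [integral_add hF.1 hG.1, hF.2, hG.2]⟩

lemma Lev.sub {F G : ℝ → ℝ} {v w : ℝ} (hF : Lev F v) (hG : Lev G w) :
    Lev (fun l => F l - G l) (v - w) :=
  ⟨hF.1.sub hG.1, by rw [integral_sub hF.1 hG.1, hF.2, hG.2]⟩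

lemma Lev.const_mul {F : ℝ → ℝ} {v : ℝ} (c : ℝ) (hF : Lev F v) :
    Lev (fun l => c * F l) (c * v) :=
  ⟨hF.1.const_mul c, by rw [integral_const_mul, hF.2]⟩

lemma Lev.mul_const {F : ℝ → ℝ} {v : ℝ} (c : ℝ) (hF : Lev F v) :
    Lev (fun l => F l * c) (v * c) :=
  ⟨hF.1.mul_const c, by rw [integral_mul_const, hF.2]⟩

lemma Lev.sum {ι : Type*} (s : Finset ι) {F : ι → ℝ → ℝ} {v : ι → ℝ}
    (h : ∀ i ∈ s, Lev (F i) (v i)) : Lev (fun l => ∑ i ∈ s, F i l) (∑ i ∈ s, v i) := by
  refine ⟨integrable_finsetSum s fun i hi => (h i hi).1, ?_⟩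
  rw [integral_finsetSum s fun i hi => (h i hi).1]
  exact Finset.sum_congr rfl fun i hi => (h i hi).2

lemma Lev.le {F G : ℝ → ℝ} {v w : ℝ} (hF : Lev F v) (hG : Lev G w) (h : ∀ l, F l ≤ G l) :
    v ≤ w := by
  rw [← hF.2, ← hG.2]
  exact integral_mono hF.1 hG.1 h

/-- at level `l` the indices in `(c, c']` form a gap -/
def gapP (φ : ℕ → ℝ) (c c' : ℕ) (l : ℝ) : Prop :=
  l < φ c ∧ l < φ (c' + 1) ∧ ∀ j, c < j → j ≤ c' → φ j ≤ l

/-- at level `l` the indices in `(c, c']` form a hill -/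
def hillP (φ : ℕ → ℝ) (c c' : ℕ) (l : ℝ) : Prop :=
  φ c ≤ l ∧ φ (c' + 1) ≤ l ∧ ∀ j, c < j → j ≤ c' → l < φ j

open Classical in
/-- indicator of gap or hill -/
noncomputable def pairInd (φ : ℕ → ℝ) (c c' : ℕ) (l : ℝ) : ℝ :=
  if gapP φ c c' l ∨ hillP φ c c' l then 1 else 0

lemma pairInd_nonneg (φ : ℕ → ℝ) (c c' : ℕ) (l : ℝ) : 0 ≤ pairInd φ c c' l := by
  unfold pairInd; split_ifs <;> norm_num

lemma pairInd_of {φ : ℕ → ℝ} {c c' : ℕ} {l : ℝ} (h : gapP φ c c' l ∨ hillP φ c c' l) :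
    pairInd φ c c' l = 1 := by
  unfold pairInd; rw [if_pos h]

lemma measurable_pairInd (φ : ℕ → ℝ) (c c' : ℕ) : Measurable (pairInd φ c c') := by
  have h1 : MeasurableSet {l | gapP φ c c' l} := by
    have : {l | gapP φ c c' l} =
        Set.Iio (φ c) ∩ (Set.Iio (φ (c' + 1)) ∩ ⋂ j, ⋂ (_ : c < j), ⋂ (_ : j ≤ c'), Set.Ici (φ j)) := by
      ext l; simp [gapP]
    rw [this]
    exact measurableSet_Iio.inter (measurableSet_Iio.inter
      (MeasurableSet.iInter fun j => MeasurableSet.iInter fun _ =>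
        MeasurableSet.iInter fun _ => measurableSet_Ici))
  have h2 : MeasurableSet {l | hillP φ c c' l} := by
    have : {l | hillP φ c c' l} =
        Set.Ici (φ c) ∩ (Set.Ici (φ (c' + 1)) ∩ ⋂ j, ⋂ (_ : c < j), ⋂ (_ : j ≤ c'), Set.Iio (φ j)) := by
      ext l; simp [hillP]
    rw [this]
    exact measurableSet_Ici.inter (measurableSet_Ici.inter
      (MeasurableSet.iInter fun j => MeasurableSet.iInter fun _ =>
        MeasurableSet.iInter fun _ => measurableSet_Iio))
  unfold pairInd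
  exact Measurable.ite (h1.union h2) measurable_const measurable_const

/-- for fixed `c` at most one `c'` closes a gap or hill, and only if the level is crossed at `c` -/
lemma sum_pairInd_le (φ : ℕ → ℝ) (c : ℕ) (s : Finset ℕ) (hs : ∀ c' ∈ s, c < c') (l : ℝ) :
    ∑ c' ∈ s, pairInd φ c c' l ≤ ind (φ c) (φ (c + 1)) l + ind (φ (c + 1)) (φ c) l := by
  classical
  by_cases hex : ∃ c' ∈ s, gapP φ c c' l ∨ hillP φ c c' l
  · obtain ⟨c₀, hc₀, h₀⟩ := hex
    have huniq : ∀ c' ∈ s, c' ≠ c₀ → pairInd φ c c' l = 0 := by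
      intro c' hc' hne
      unfold pairInd
      rw [if_neg]
      intro h'
      have hlt := hs c' hc'
      have hlt₀ := hs c₀ hc₀
      rcases lt_or_gt_of_ne hne with hh | hh
      · rcases h' with h' | h' <;> rcases h₀ with h₀ | h₀
        · have := h₀.2.2 (c' + 1) (by omega) (by omega); linarith [h'.2.1]
        · linarith [h'.1, h₀.1]
        · linarith [h'.1, h₀.1]
        · have := h₀.2.2 (c' + 1) (by omega) (by omega); linarith [h'.2.1]
      · rcases h' with h' | h' <;> rcases h₀ with h₀ | h₀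
        · have := h'.2.2 (c₀ + 1) (by omega) (by omega); linarith [h₀.2.1]
        · linarith [h'.1, h₀.1]
        · linarith [h'.1, h₀.1]
        · have := h'.2.2 (c₀ + 1) (by omega) (by omega); linarith [h₀.2.1]
    rw [Finset.sum_eq_single_of_mem c₀ hc₀ huniq, pairInd_of h₀]
    have hlt₀ := hs c₀ hc₀
    rcases h₀ with h₀ | h₀
    · have := h₀.2.2 (c + 1) (by omega) (by omega)
      rw [ind_of this h₀.1]
      linarith [ind_nonneg (φ c) (φ (c + 1)) l]
    · have := h₀.2.2 (c + 1) (by omega) (by omega)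
      rw [ind_of h₀.1 this]
      linarith [ind_nonneg (φ (c + 1)) (φ c) l]
  · push Not at hex
    have : ∑ c' ∈ s, pairInd φ c c' l = 0 := by
      refine Finset.sum_eq_zero fun c' hc' => ?_
      unfold pairInd
      rw [if_neg]
      intro h'
      rcases h' with h' | h'
      · exact (hex c' hc').1 h'
      · exact (hex c' hc').2 h'
    rw [this]
    linarith [ind_nonneg (φ c) (φ (c + 1)) l, ind_nonneg (φ (c + 1)) (φ c) l]

lemma integrable_pairInd (φ : ℕ → ℝ) {c c' : ℕ} (h : c < c') : Integrable (pairInd φ c c') := by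
  refine Integrable.mono' ((Lev.ind (φ c) (φ (c + 1))).add (Lev.ind (φ (c + 1)) (φ c))).1
    (measurable_pairInd φ c c').aestronglyMeasurable (ae_of_all _ fun l => ?_)
  rw [Real.norm_of_nonneg (pairInd_nonneg _ _ _ _)]
  have := sum_pairInd_le φ c {c'} (by simpa using h) l
  simpa using this

/-- total level length of the gap or hill on `(c, c']` -/
noncomputable def depth (φ : ℕ → ℝ) (c c' : ℕ) : ℝ := ∫ l, pairInd φ c c' l

lemma depth_nonneg (φ : ℕ → ℝ) (c c' : ℕ) : 0 ≤ depth φ c c' :=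
  integral_nonneg fun l => pairInd_nonneg φ c c' l

lemma Lev.pair (φ : ℕ → ℝ) {c c' : ℕ} (h : c < c') : Lev (pairInd φ c c') (depth φ c c') :=
  ⟨integrable_pairInd φ h, rfl⟩

lemma max_add_max_eq_abs (x y : ℝ) : max (y - x) 0 + max (x - y) 0 = |y - x| := by
  rcases le_total x y with h | h
  · rw [max_eq_left (by linarith), max_eq_right (by linarith), abs_of_nonneg (by linarith)]; ring
  · rw [max_eq_right (by linarith), max_eq_left (by linarith), abs_of_nonpos (by linarith)]; ring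

lemma sum_depth_le (φ : ℕ → ℝ) (c : ℕ) (s : Finset ℕ) (hs : ∀ c' ∈ s, c < c') :
    ∑ c' ∈ s, depth φ c c' ≤ |φ (c + 1) - φ c| := by
  rw [← max_add_max_eq_abs]
  exact (Lev.sum s fun c' hc' => Lev.pair φ (hs c' hc')).le
    ((Lev.ind (φ c) (φ (c + 1))).add (Lev.ind (φ (c + 1)) (φ c))) (sum_pairInd_le φ c s hs)

/-- level-wise pairing, starting above the level -/
lemma pairing_gap (φ S : ℕ → ℝ) (w : ℕ → ℕ → ℝ) (a : ℕ) (l : ℝ) (ha : l < φ a) :
    ∀ b, a ≤ b → (∀ c c', a ≤ c → c < c' → c' < b → 0 ≤ w c c' ∧ S c' - S c ≤ w c c') →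
      (l < φ b → ∑ c ∈ Finset.Ico a b, (ind (φ c) (φ (c + 1)) l - ind (φ (c + 1)) (φ c) l) * S c ≤
          ∑ c' ∈ Finset.Ico a b, ∑ c ∈ Finset.Ico a c', w c c' * pairInd φ c c' l) ∧
      (φ b ≤ l → ∃ c, a ≤ c ∧ c < b ∧ l < φ c ∧ (∀ j, c < j → j ≤ b → φ j ≤ l) ∧
        ∑ c ∈ Finset.Ico a b, (ind (φ c) (φ (c + 1)) l - ind (φ (c + 1)) (φ c) l) * S c + S c ≤
          ∑ c' ∈ Finset.Ico a b, ∑ c ∈ Finset.Ico a c', w c c' * pairInd φ c c' l) := by
  intro b hab
  induction b, hab using Nat.le_induction with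
  | base =>
    intro _
    exact ⟨fun _ => by simp, fun h => absurd ha (not_lt.2 h)⟩
  | succ b hab ih =>
    intro hw
    obtain ⟨ih1, ih2⟩ := ih fun c c' h1 h2 h3 => hw c c' h1 h2 (by omega)
    rw [Finset.sum_Ico_succ_top hab, Finset.sum_Ico_succ_top hab]
    have hnn : ∀ c ∈ Finset.Ico a b, 0 ≤ w c b * pairInd φ c b l := fun c hc =>
      mul_nonneg (hw c b (Finset.mem_Ico.1 hc).1 (Finset.mem_Ico.1 hc).2 (by omega)).1
        (pairInd_nonneg _ _ _ _)
    have hnn' := Finset.sum_nonneg hnn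
    rcases lt_or_ge l (φ b) with hb | hb
    · have h1 := ih1 hb
      refine ⟨fun hb' => ?_, fun hb' => ⟨b, hab, by omega, hb, fun j h1 h2 => ?_, ?_⟩⟩
      · rw [ind_of_lt hb, ind_of_lt hb']; linarith
      · have : j = b + 1 := by omega
        rw [this]; exact hb'
      · rw [ind_of_lt hb, ind_of hb' hb]; linarith
    · obtain ⟨c, hc1, hc2, hc3, hc4, hc5⟩ := ih2 hb
      refine ⟨fun hb' => ?_, fun hb' => ⟨c, hc1, by omega, hc3, fun j h1 h2 => ?_, ?_⟩⟩
      · rw [ind_of hb hb', ind_of_lt hb']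
        have h6 : w c b * pairInd φ c b l ≤ ∑ c ∈ Finset.Ico a b, w c b * pairInd φ c b l :=
          Finset.single_le_sum hnn (Finset.mem_Ico.2 ⟨hc1, hc2⟩)
        rw [pairInd_of (Or.inl ⟨hc3, hb', hc4⟩)] at h6
        have := (hw c b hc1 hc2 (by omega)).2
        linarith
      · rcases Nat.lt_or_ge j (b + 1) with h3 | h3
        · exact hc4 j h1 (by omega)
        · have : j = b + 1 := by omega
          rw [this]; exact hb'
      · rw [ind_of_le hb', ind_of_le hb]; linarith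

/-- level-wise pairing, starting below the level -/
lemma pairing_hill (φ S : ℕ → ℝ) (w : ℕ → ℕ → ℝ) (a : ℕ) (l : ℝ) (ha : φ a ≤ l) :
    ∀ b, a ≤ b → (∀ c c', a ≤ c → c < c' → c' < b → 0 ≤ w c c' ∧ S c - S c' ≤ w c c') →
      (φ b ≤ l → ∑ c ∈ Finset.Ico a b, (ind (φ c) (φ (c + 1)) l - ind (φ (c + 1)) (φ c) l) * S c ≤
          ∑ c' ∈ Finset.Ico a b, ∑ c ∈ Finset.Ico a c', w c c' * pairInd φ c c' l) ∧
      (l < φ b → ∃ c, a ≤ c ∧ c < b ∧ φ c ≤ l ∧ (∀ j, c < j → j ≤ b → l < φ j) ∧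
        ∑ c ∈ Finset.Ico a b, (ind (φ c) (φ (c + 1)) l - ind (φ (c + 1)) (φ c) l) * S c - S c ≤
          ∑ c' ∈ Finset.Ico a b, ∑ c ∈ Finset.Ico a c', w c c' * pairInd φ c c' l) := by
  intro b hab
  induction b, hab using Nat.le_induction with
  | base =>
    intro _
    exact ⟨fun _ => by simp, fun h => absurd h (not_lt.2 ha)⟩
  | succ b hab ih =>
    intro hw
    obtain ⟨ih1, ih2⟩ := ih fun c c' h1 h2 h3 => hw c c' h1 h2 (by omega)
    rw [Finset.sum_Ico_succ_top hab, Finset.sum_Ico_succ_top hab]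
    have hnn : ∀ c ∈ Finset.Ico a b, 0 ≤ w c b * pairInd φ c b l := fun c hc =>
      mul_nonneg (hw c b (Finset.mem_Ico.1 hc).1 (Finset.mem_Ico.1 hc).2 (by omega)).1
        (pairInd_nonneg _ _ _ _)
    have hnn' := Finset.sum_nonneg hnn
    rcases lt_or_ge l (φ b) with hb | hb
    · obtain ⟨c, hc1, hc2, hc3, hc4, hc5⟩ := ih2 hb
      refine ⟨fun hb' => ?_, fun hb' => ⟨c, hc1, by omega, hc3, fun j h1 h2 => ?_, ?_⟩⟩
      · rw [ind_of_lt hb, ind_of hb' hb]
        have h6 : w c b * pairInd φ c b l ≤ ∑ c ∈ Finset.Ico a b, w c b * pairInd φ c b l :=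
          Finset.single_le_sum hnn (Finset.mem_Ico.2 ⟨hc1, hc2⟩)
        rw [pairInd_of (Or.inr ⟨hc3, hb', hc4⟩)] at h6
        have := (hw c b hc1 hc2 (by omega)).2
        linarith
      · rcases Nat.lt_or_ge j (b + 1) with h3 | h3
        · exact hc4 j h1 (by omega)
        · have : j = b + 1 := by omega
          rw [this]; exact hb'
      · rw [ind_of_lt hb, ind_of_lt hb']; linarith
    · have h1 := ih1 hb
      refine ⟨fun hb' => ?_, fun hb' => ⟨b, hab, by omega, hb, fun j h1 h2 => ?_, ?_⟩⟩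
      · rw [ind_of_le hb', ind_of_le hb]; linarith
      · have : j = b + 1 := by omega
        rw [this]; exact hb'
      · rw [ind_of hb hb', ind_of_lt hb']; linarith

/-- integrated pairing bound -/
lemma pairing (φ S : ℕ → ℝ) (w : ℕ → ℕ → ℝ) (a b : ℕ) (hab : a ≤ b) (hφ : φ b ≤ φ a)
    (hS : ∀ c, a ≤ c → c < b → 0 ≤ S c)
    (hw : ∀ c c', a ≤ c → c < c' → c' < b → |S c' - S c| ≤ w c c') :
    ∑ c ∈ Finset.Ico a b, (φ (c + 1) - φ c) * S c ≤
      ∑ c' ∈ Finset.Ico a b, ∑ c ∈ Finset.Ico a c', w c c' * depth φ c c' := by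
  have hL : Lev (fun l => ∑ c ∈ Finset.Ico a b,
      (ind (φ c) (φ (c + 1)) l - ind (φ (c + 1)) (φ c) l) * S c)
      (∑ c ∈ Finset.Ico a b, (max (φ (c + 1) - φ c) 0 - max (φ c - φ (c + 1)) 0) * S c) :=
    Lev.sum _ fun c _ => ((Lev.ind _ _).sub (Lev.ind _ _)).mul_const _
  have hR : Lev (fun l => ∑ c' ∈ Finset.Ico a b, ∑ c ∈ Finset.Ico a c', w c c' * pairInd φ c c' l)
      (∑ c' ∈ Finset.Ico a b, ∑ c ∈ Finset.Ico a c', w c c' * depth φ c c') :=
    Lev.sum _ fun c' _ => Lev.sum _ fun c hc => (Lev.pair φ (Finset.mem_Ico.1 hc).2).const_mul _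
  have hmax : ∀ x y : ℝ, max (y - x) 0 - max (x - y) 0 = y - x := by
    intro x y
    rcases le_total x y with h | h
    · rw [max_eq_left (by linarith), max_eq_right (by linarith)]; ring
    · rw [max_eq_right (by linarith), max_eq_left (by linarith)]; ring
  simp only [hmax] at hL
  refine hL.le hR fun l => ?_
  rcases lt_or_ge l (φ a) with ha | ha
  · obtain ⟨h1, h2⟩ := pairing_gap φ S w a l ha b hab fun c c' h1 h2 h3 =>
      ⟨(abs_nonneg _).trans (hw c c' h1 h2 h3), (le_abs_self _).trans (hw c c' h1 h2 h3)⟩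
    rcases lt_or_ge l (φ b) with hb | hb
    · exact h1 hb
    · obtain ⟨c, hc1, hc2, -, -, hc5⟩ := h2 hb
      linarith [hS c hc1 hc2]
  · exact (pairing_hill φ S w a l ha b hab fun c c' h1 h2 h3 =>
      ⟨(abs_nonneg _).trans (hw c c' h1 h2 h3), by
        have := hw c c' h1 h2 h3
        rw [abs_sub_comm] at this
        exact (le_abs_self _).trans this⟩).1 (hφ.trans ha)

end Pool.Agent.MP_bf8c07_an_h89

end

-- part MP_bf8c07_an_h89.Energy
section

/-!
The window energy: a discretised version of the sum over gaps and hills of level sets.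
-/

set_option autoImplicit false
open MeasureTheory Set Finset

namespace Pool.Agent.MP_bf8c07_an_h89

lemma step_approx (ϕ : ℝ → ℝ) (hc : Continuous ϕ) (A δ ω a b : ℝ) (hδ : 0 < δ) (hAa : A ≤ a)
    (hω : ∀ x y, A ≤ x → x ≤ y → y ≤ b → y - x ≤ δ → |ϕ y - ϕ x| ≤ ω)
    (μ : Measure ℝ) [IsFiniteMeasure μ] (hμ : μ (Set.Icc a b)ᶜ = 0) :
    |∫ x, ϕ x ∂μ - (ϕ (A + ⌊(a - A) / δ⌋₊ * δ) * μ.real Set.univ +
      ∑ c ∈ Finset.Ico ⌊(a - A) / δ⌋₊ ⌊(b - A) / δ⌋₊,
        (ϕ (A + ((c + 1 : ℕ) : ℝ) * δ) - ϕ (A + c * δ)) * μ.real (Set.Ici (A + ((c + 1 : ℕ) : ℝ) * δ)))|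
      ≤ ω * μ.real Set.univ := by
  set a' := ⌊(a - A) / δ⌋₊ with ha'
  set b' := ⌊(b - A) / δ⌋₊ with hb'
  set F : ℝ → ℝ := fun x => ϕ (A + a' * δ) + ∑ c ∈ Finset.Ico a' b',
    (ϕ (A + ((c + 1 : ℕ) : ℝ) * δ) - ϕ (A + c * δ)) *
      (Set.Ici (A + ((c + 1 : ℕ) : ℝ) * δ)).indicator (fun _ => (1 : ℝ)) x with hF
  have hind : ∀ c : ℕ, Integrable
      (fun x => (Set.Ici (A + ((c + 1 : ℕ) : ℝ) * δ)).indicator (fun _ => (1 : ℝ)) x) μ :=
    fun c => (integrable_const (1 : ℝ)).indicator measurableSet_Ici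
  have hFi : Integrable F μ :=
    (integrable_const _).add (integrable_finsetSum _ fun c _ => (hind c).const_mul _)
  have hFv : ∫ x, F x ∂μ = ϕ (A + a' * δ) * μ.real Set.univ + ∑ c ∈ Finset.Ico a' b',
      (ϕ (A + ((c + 1 : ℕ) : ℝ) * δ) - ϕ (A + c * δ)) *
        μ.real (Set.Ici (A + ((c + 1 : ℕ) : ℝ) * δ)) := by
    rw [hF, integral_add (integrable_const _)
      (integrable_finsetSum _ fun c _ => (hind c).const_mul _),
      integral_finsetSum _ fun c _ => (hind c).const_mul _]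
    congr 1
    · simp [mul_comm]
    · refine Finset.sum_congr rfl fun c _ => ?_
      rw [integral_const_mul, integral_indicator measurableSet_Ici]
      simp
  have hae : ∀ᵐ x ∂μ, x ∈ Set.Icc a b := hμ
  have hbd : ∀ᵐ x ∂μ, ‖ϕ x - F x‖ ≤ ω := by
    filter_upwards [hae] with x hx
    set k := ⌊(x - A) / δ⌋₊ with hk
    have hx0 : 0 ≤ (x - A) / δ := div_nonneg (by linarith [hx.1]) hδ.le
    have hk1 : (k : ℝ) * δ ≤ x - A := by
      have := Nat.floor_le hx0
      rwa [le_div_iff₀ hδ] at this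
    have hk2 : x - A < (k + 1) * δ := by
      have := Nat.lt_floor_add_one ((x - A) / δ)
      rwa [div_lt_iff₀ hδ] at this
    have hak : a' ≤ k := Nat.floor_mono (div_le_div_of_nonneg_right (by linarith [hx.1]) hδ.le)
    have hkb : k ≤ b' := Nat.floor_mono (div_le_div_of_nonneg_right (by linarith [hx.2]) hδ.le)
    have hFx : F x = ϕ (A + k * δ) := by
      rw [hF]
      simp only
      rw [← Finset.sum_Ico_consecutive _ hak hkb]
      have h1 : ∑ c ∈ Finset.Ico a' k, (ϕ (A + ((c + 1 : ℕ) : ℝ) * δ) - ϕ (A + c * δ)) *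
          (Set.Ici (A + ((c + 1 : ℕ) : ℝ) * δ)).indicator (fun _ => (1 : ℝ)) x =
          ∑ c ∈ Finset.Ico a' k, (ϕ (A + ((c + 1 : ℕ) : ℝ) * δ) - ϕ (A + c * δ)) := by
        refine Finset.sum_congr rfl fun c hc => ?_
        rw [Set.indicator_of_mem, mul_one]
        have h3 : ((c + 1 : ℕ) : ℝ) ≤ k := by exact_mod_cast (Finset.mem_Ico.1 hc).2
        have := mul_le_mul_of_nonneg_right h3 hδ.le
        simp only [Set.mem_Ici]
        linarith
      have h2 : ∑ c ∈ Finset.Ico k b', (ϕ (A + ((c + 1 : ℕ) : ℝ) * δ) - ϕ (A + c * δ)) *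
          (Set.Ici (A + ((c + 1 : ℕ) : ℝ) * δ)).indicator (fun _ => (1 : ℝ)) x = 0 := by
        refine Finset.sum_eq_zero fun c hc => ?_
        rw [Set.indicator_of_notMem, mul_zero]
        have h3 : (k : ℝ) + 1 ≤ ((c + 1 : ℕ) : ℝ) := by
          have := (Finset.mem_Ico.1 hc).1
          push_cast
          exact_mod_cast Nat.succ_le_succ this
        have := mul_le_mul_of_nonneg_right h3 hδ.le
        simp only [Set.mem_Ici, not_le]
        linarith
      rw [h1, h2, Finset.sum_Ico_sub (f := fun c : ℕ => ϕ (A + c * δ)) hak]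
      ring
    rw [hFx, Real.norm_eq_abs]
    have : 0 ≤ (k : ℝ) * δ := by positivity
    exact hω _ _ (by linarith) (by linarith) hx.2 (by linarith)
  have hd : Integrable (fun x => ϕ x - F x) μ :=
    Integrable.of_bound (hc.aestronglyMeasurable.sub hFi.aestronglyMeasurable) ω hbd
  have hϕ : Integrable ϕ μ := by
    have := hd.add hFi
    refine this.congr (ae_of_all _ fun x => ?_)
    simp
  rw [← hFv, ← integral_sub hϕ hFi]
  exact norm_integral_le_of_norm_le_const hbd

theorem energy (A B : ℝ) (hAB : A < B) (ϕ : ℝ → ℝ) (hc : Continuous ϕ) (p : ℝ → ℝ)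
    (hp : ∀ x y, A ≤ x → x ≤ y → y ≤ B → |ϕ y - ϕ x| ≤ p y - p x) (ω : ℝ) (hω : 0 < ω) :
    ∃ (En : ℝ → ℝ → ℝ → ℝ) (side : ℝ → ℝ → Prop),
      (∀ a b L, 0 ≤ En a b L) ∧
      (∀ a b a' b' L, a' ≤ a → b ≤ b' → En a b L ≤ En a' b' L) ∧
      (∀ (a b L H : ℝ) (μ₁ μ₂ : Measure ℝ), IsFiniteMeasure μ₁ → IsFiniteMeasure μ₂ →
        A ≤ a → a ≤ b → b ≤ B → 0 ≤ H → μ₁ (Set.Icc a b)ᶜ = 0 → μ₂ (Set.Icc a b)ᶜ = 0 →
        μ₁.real Set.univ = μ₂.real Set.univ →
        (∀ t, a < t → t ≤ b → μ₁.real (Set.Ici t) ≤ μ₂.real (Set.Ici t)) →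
        (∀ t t', a < t → t ≤ t' → t' ≤ b →
          |(μ₂.real (Set.Ici t') - μ₁.real (Set.Ici t')) -
            (μ₂.real (Set.Ici t) - μ₁.real (Set.Ici t))| ≤ H * √((t' - t) / L)) →
        (side a b → ∫ x, ϕ x ∂μ₂ - ∫ x, ϕ x ∂μ₁ ≤ H * En a b L + 2 * ω * μ₁.real Set.univ) ∧
        (¬ side a b → ∫ x, ϕ x ∂μ₁ - ∫ x, ϕ x ∂μ₂ ≤ H * En a b L + 2 * ω * μ₁.real Set.univ)) ∧
      (∀ (ι : Type) (s : Finset ι) (a b L : ι → ℝ) (K : ℝ), 0 ≤ K →
        (∀ x y, x < y → ∑ i ∈ s, (if a i < x ∧ y ≤ b i then √((y - x) / L i) else 0) ≤ K) →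
        ∑ i ∈ s, En (a i) (b i) (L i) ≤ 2 * K * (p B - p A)) := by
  classical
  obtain ⟨δ₀, hδ₀, hu⟩ := Metric.uniformContinuousOn_iff_le.1
    ((isCompact_Icc (a := A) (b := B)).uniformContinuousOn_of_continuous hc.continuousOn) ω hω
  obtain ⟨J, hJ⟩ := exists_nat_gt ((B - A) / δ₀)
  have hJ0 : (0 : ℝ) < J := lt_trans (div_pos (by linarith) hδ₀) hJ
  set δ := (B - A) / J with hδdef
  have hδ : 0 < δ := div_pos (by linarith) hJ0
  have hδJ : J * δ = B - A := by rw [hδdef]; field_simp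
  have hδle : δ ≤ δ₀ := by
    rw [hδdef, div_le_iff₀ hJ0]
    rw [div_lt_iff₀ hδ₀] at hJ
    linarith
  have hω' : ∀ b, b ≤ B → ∀ x y, A ≤ x → x ≤ y → y ≤ b → y - x ≤ δ → |ϕ y - ϕ x| ≤ ω := by
    intro b hb x y h1 h2 h3 h4
    have := hu y ⟨by linarith, by linarith⟩ x ⟨h1, by linarith⟩
      (by rw [Real.dist_eq, abs_of_nonneg (by linarith)]; linarith)
    rwa [Real.dist_eq] at this
  set t : ℕ → ℝ := fun j => A + j * δ with ht
  set φ : ℕ → ℝ := fun j => ϕ (t j) with hφ
  set D : ℕ → ℕ → ℝ := fun c c' => depth φ c c' + depth (fun j => -φ j) c c' with hD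
  have hD0 : ∀ c c', 0 ≤ D c c' := fun c c' => add_nonneg (depth_nonneg _ _ _) (depth_nonneg _ _ _)
  set W : ℝ → ℝ → ℝ → ℕ → ℕ → ℝ := fun a b L c c' =>
    if a < t (c + 1) ∧ t (c' + 1) ≤ b then √((t (c' + 1) - t (c + 1)) / L) else 0 with hW
  have hW0 : ∀ a b L c c', 0 ≤ W a b L c c' := by
    intro a b L c c'
    simp only [hW]
    split_ifs
    · exact Real.sqrt_nonneg _
    · exact le_rfl
  have htmono : ∀ j j' : ℕ, j ≤ j' → t j ≤ t j' := by
    intro j j' h
    have h3 : (j : ℝ) ≤ j' := by exact_mod_cast h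
    have := mul_le_mul_of_nonneg_right h3 hδ.le
    simp only [ht]; linarith
  refine ⟨fun a b L => ∑ c' ∈ Finset.range J, ∑ c ∈ Finset.range c', W a b L c c' * D c c',
    fun a b => φ ⌊(b - A) / δ⌋₊ ≤ φ ⌊(a - A) / δ⌋₊, ?_, ?_, ?_, ?_⟩
  · intro a b L
    exact Finset.sum_nonneg fun c' _ => Finset.sum_nonneg fun c _ =>
      mul_nonneg (hW0 _ _ _ _ _) (hD0 _ _)
  · intro a b a' b' L h1 h2
    refine Finset.sum_le_sum fun c' _ => Finset.sum_le_sum fun c _ =>
      mul_le_mul_of_nonneg_right ?_ (hD0 _ _)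
    simp only [hW]
    split_ifs with h3 h4
    · exact le_rfl
    · exact absurd ⟨by linarith [h3.1], by linarith [h3.2]⟩ h4
    · exact Real.sqrt_nonneg _
    · exact le_rfl
  · intro a b L H μ₁ μ₂ hf₁ hf₂ hAa hab hbB hH hμ₁ hμ₂ hm hdom hhol
    have s₁ := step_approx ϕ hc A δ ω a b hδ hAa (hω' b hbB) μ₁ hμ₁
    have s₂ := step_approx ϕ hc A δ ω a b hδ hAa (hω' b hbB) μ₂ hμ₂
    set a' := ⌊(a - A) / δ⌋₊ with ha'
    set b' := ⌊(b - A) / δ⌋₊ with hb'
    have hab' : a' ≤ b' := Nat.floor_mono (div_le_div_of_nonneg_right (by linarith) hδ.le)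
    have ha1 : a < t (a' + 1) := by
      have := Nat.lt_floor_add_one ((a - A) / δ)
      rw [div_lt_iff₀ hδ] at this
      simp only [ht]; push_cast; linarith
    have hb1 : t b' ≤ b := by
      have := Nat.floor_le (div_nonneg (by linarith : 0 ≤ b - A) hδ.le)
      rw [le_div_iff₀ hδ] at this
      simp only [ht]; linarith
    have hbJ : b' ≤ J := by
      have : (b - A) / δ ≤ J := by rw [div_le_iff₀ hδ]; linarith
      exact Nat.floor_le_of_le this
    set S : ℕ → ℝ := fun c => μ₂.real (Set.Ici (t (c + 1))) - μ₁.real (Set.Ici (t (c + 1))) with hS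
    have hS0 : ∀ c, a' ≤ c → c < b' → 0 ≤ S c := fun c h1 h2 =>
      sub_nonneg.2 (hdom _ (ha1.trans_le (htmono _ _ (by omega))) ((htmono _ _ h2).trans hb1))
    have hSw : ∀ c c', a' ≤ c → c < c' → c' < b' →
        |S c' - S c| ≤ H * √((t (c' + 1) - t (c + 1)) / L) := fun c c' h1 h2 h3 =>
      hhol _ _ (ha1.trans_le (htmono _ _ (by omega))) (htmono _ _ (by omega))
        ((htmono _ _ h3).trans hb1)
    have hsub : ∀ ψ : ℕ → ℝ, (∀ c c', depth ψ c c' ≤ D c c') →
        ∑ c' ∈ Finset.Ico a' b', ∑ c ∈ Finset.Ico a' c',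
          H * √((t (c' + 1) - t (c + 1)) / L) * depth ψ c c' ≤
        H * ∑ c' ∈ Finset.range J, ∑ c ∈ Finset.range c', W a b L c c' * D c c' := by
      intro ψ hψ
      rw [Finset.mul_sum]
      refine le_trans (Finset.sum_le_sum fun c' hc' => ?_)
        (Finset.sum_le_sum_of_subset_of_nonneg (s := Finset.Ico a' b') ?_ ?_)
      · rw [Finset.mul_sum]
        refine le_trans (Finset.sum_le_sum fun c hc => ?_)
          (Finset.sum_le_sum_of_subset_of_nonneg (s := Finset.Ico a' c') ?_ ?_)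
        · have h1 := Finset.mem_Ico.1 hc
          have h2 := Finset.mem_Ico.1 hc'
          have : W a b L c c' = √((t (c' + 1) - t (c + 1)) / L) := by
            simp only [hW]
            rw [if_pos ⟨ha1.trans_le (htmono _ _ (by omega)), (htmono _ _ h2.2).trans hb1⟩]
          rw [this, mul_assoc]
          exact mul_le_mul_of_nonneg_left
            (mul_le_mul_of_nonneg_left (hψ c c') (Real.sqrt_nonneg _)) hH
        · intro c hc
          exact Finset.mem_range.2 (Finset.mem_Ico.1 hc).2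
        · intro c _ _
          exact mul_nonneg hH (mul_nonneg (hW0 _ _ _ _ _) (hD0 _ _))
      · intro c hc
        exact Finset.mem_range.2 ((Finset.mem_Ico.1 hc).2.trans_le hbJ)
      · intro c' _ _
        exact mul_nonneg hH (Finset.sum_nonneg fun c _ => mul_nonneg (hW0 _ _ _ _ _) (hD0 _ _))
    have hsum : ∑ c ∈ Finset.Ico a' b', (φ (c + 1) - φ c) * S c =
        ∑ c ∈ Finset.Ico a' b', (ϕ (A + ((c + 1 : ℕ) : ℝ) * δ) - ϕ (A + c * δ)) *
          μ₂.real (Set.Ici (A + ((c + 1 : ℕ) : ℝ) * δ)) -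
        ∑ c ∈ Finset.Ico a' b', (ϕ (A + ((c + 1 : ℕ) : ℝ) * δ) - ϕ (A + c * δ)) *
          μ₁.real (Set.Ici (A + ((c + 1 : ℕ) : ℝ) * δ)) := by
      rw [← Finset.sum_sub_distrib]
      refine Finset.sum_congr rfl fun c _ => ?_
      simp only [hS, hφ, ht]
      ring
    rw [← hm] at s₂
    have s₁' := abs_le.1 s₁
    have s₂' := abs_le.1 s₂
    constructor
    · intro hside
      have h1 := pairing φ S (fun c c' => H * √((t (c' + 1) - t (c + 1)) / L)) a' b' hab' hside
        hS0 hSw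
      have h2 := hsub φ fun c c' => le_add_of_nonneg_right (depth_nonneg _ _ _)
      linarith [s₁'.1, s₂'.2]
    · intro hside
      have h1 := pairing (fun j => -φ j) S (fun c c' => H * √((t (c' + 1) - t (c + 1)) / L)) a' b'
        hab' (neg_le_neg (not_le.1 hside).le) hS0 hSw
      have h2 := hsub (fun j => -φ j) fun c c' => le_add_of_nonneg_left (depth_nonneg _ _ _)
      have h3 : ∑ c ∈ Finset.Ico a' b', (-φ (c + 1) - -φ c) * S c =
          -∑ c ∈ Finset.Ico a' b', (φ (c + 1) - φ c) * S c := by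
        rw [← Finset.sum_neg_distrib]
        exact Finset.sum_congr rfl fun c _ => by ring
      linarith [s₁'.2, s₂'.1]
  · intro ι s a b L K hK hcount
    have h1 : ∑ i ∈ s, ∑ c' ∈ Finset.range J, ∑ c ∈ Finset.range c',
        W (a i) (b i) (L i) c c' * D c c' ≤
        ∑ c' ∈ Finset.range J, ∑ c ∈ Finset.range c', K * D c c' := by
      rw [Finset.sum_comm]
      refine Finset.sum_le_sum fun c' _ => ?_
      rw [Finset.sum_comm]
      refine Finset.sum_le_sum fun c hc => ?_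
      rw [← Finset.sum_mul]
      refine mul_le_mul_of_nonneg_right ?_ (hD0 _ _)
      refine hcount (t (c + 1)) (t (c' + 1)) ?_
      have h3 : ((c + 1 : ℕ) : ℝ) < ((c' + 1 : ℕ) : ℝ) := by
        exact_mod_cast Nat.succ_lt_succ (Finset.mem_range.1 hc)
      have := mul_lt_mul_of_pos_right h3 hδ
      simp only [ht]; linarith
    have h2 : ∑ c' ∈ Finset.range J, ∑ c ∈ Finset.range c', K * D c c' =
        K * ∑ c ∈ Finset.range J, ∑ c' ∈ Finset.Ioo c J, D c c' := by
      rw [Finset.mul_sum]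
      simp_rw [Finset.mul_sum]
      refine Finset.sum_comm' fun c' c => ?_
      simp only [Finset.mem_range, Finset.mem_Ioo]
      omega
    have h3 : ∑ c ∈ Finset.range J, ∑ c' ∈ Finset.Ioo c J, D c c' ≤
        ∑ c ∈ Finset.range J, 2 * (p (t (c + 1)) - p (t c)) := by
      refine Finset.sum_le_sum fun c hc => ?_
      simp only [hD]
      rw [Finset.sum_add_distrib]
      have e1 := sum_depth_le φ c (Finset.Ioo c J) fun c' hc' => (Finset.mem_Ioo.1 hc').1
      have e2 := sum_depth_le (fun j => -φ j) c (Finset.Ioo c J)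
        fun c' hc' => (Finset.mem_Ioo.1 hc').1
      have e3 : |-φ (c + 1) - -φ c| = |φ (c + 1) - φ c| := by
        rw [← abs_neg]; congr 1; ring
      have e4 : |φ (c + 1) - φ c| ≤ p (t (c + 1)) - p (t c) := by
        refine hp _ _ ?_ (htmono _ _ (by omega)) ?_
        · have := htmono 0 c (by omega)
          simpa [ht] using this
        · have := htmono (c + 1) J (Finset.mem_range.1 hc)
          simp only [ht] at this ⊢
          linarith
      simp only [e3] at e2
      linarith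
    rw [← Finset.mul_sum, Finset.sum_range_sub (f := fun c => p (t c))] at h3
    have e5 : t J = B := by simp only [ht]; linarith
    have e6 : t 0 = A := by simp [ht]
    rw [e5, e6] at h3
    calc _ ≤ _ := h1
      _ = _ := h2
      _ ≤ K * (2 * (p B - p A)) := mul_le_mul_of_nonneg_left h3 hK
      _ = _ := by ring

end Pool.Agent.MP_bf8c07_an_h89

end
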