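import Pool.Agent.MP_bf8c07_an_h89.Mg.Energy

-- part MP_bf8c07_an_h89.Group
section

/-!
Estimates of differences of ball averages by the window energy.
-/

set_option autoImplicit false
open MeasureTheory Set Metric

namespace Pool.Agent.MP_bf8c07_an_h89

/-- the comparison property of a window energy -/
def EnT (A B ω : ℝ) (ϕ : ℝ → ℝ) (En : ℝ → ℝ → ℝ → ℝ) (side : ℝ → ℝ → Prop) : Prop :=
  ∀ (a b L H : ℝ) (μ₁ μ₂ : Measure ℝ), IsFiniteMeasure μ₁ → IsFiniteMeasure μ₂ →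
    A ≤ a → a ≤ b → b ≤ B → 0 ≤ H → μ₁ (Set.Icc a b)ᶜ = 0 → μ₂ (Set.Icc a b)ᶜ = 0 →
    μ₁.real Set.univ = μ₂.real Set.univ →
    (∀ t, a < t → t ≤ b → μ₁.real (Set.Ici t) ≤ μ₂.real (Set.Ici t)) →
    (∀ t t', a < t → t ≤ t' → t' ≤ b →
      |(μ₂.real (Set.Ici t') - μ₁.real (Set.Ici t')) -
        (μ₂.real (Set.Ici t) - μ₁.real (Set.Ici t))| ≤ H * √((t' - t) / L)) →
    (side a b → ∫ x, ϕ x ∂μ₂ - ∫ x, ϕ x ∂μ₁ ≤ H * En a b L + 2 * ω * μ₁.real Set.univ) ∧
    (¬ side a b → ∫ x, ϕ x ∂μ₁ - ∫ x, ϕ x ∂μ₂ ≤ H * En a b L + 2 * ω * μ₁.real Set.univ)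

lemma EnT.sets {A B ω : ℝ} {ϕ : ℝ → ℝ} {En : ℝ → ℝ → ℝ → ℝ} {side : ℝ → ℝ → Prop}
    (hT : EnT A B ω ϕ En side) (hc : Continuous ϕ) {n : ℕ} (a b L H : ℝ)
    (X₁ X₂ : Set (Sp n)) (N₁ N₂ : Sp n → ℝ) (hX₁ : MeasurableSet X₁) (hX₂ : MeasurableSet X₂)
    (hf₁ : volume X₁ ≠ ⊤) (hf₂ : volume X₂ ≠ ⊤) (hN₁ : Measurable N₁) (hN₂ : Measurable N₂)
    (hA : A ≤ a) (hab : a ≤ b) (hB : b ≤ B) (hH : 0 ≤ H)
    (h₁ : ∀ y ∈ X₁, N₁ y ∈ Icc a b) (h₂ : ∀ y ∈ X₂, N₂ y ∈ Icc a b)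
    (hm : volume.real X₁ = volume.real X₂)
    (hdom : ∀ t, a < t → t ≤ b →
      volume.real (X₁ ∩ {y | t ≤ N₁ y}) ≤ volume.real (X₂ ∩ {y | t ≤ N₂ y}))
    (hh₁ : ∀ t t', a < t → t ≤ t' → t' ≤ b →
      volume.real (X₁ ∩ {y | t ≤ N₁ y ∧ N₁ y < t'}) ≤ H * √((t' - t) / L))
    (hh₂ : ∀ t t', a < t → t ≤ t' → t' ≤ b →
      volume.real (X₂ ∩ {y | t ≤ N₂ y ∧ N₂ y < t'}) ≤ H * √((t' - t) / L)) :
    (side a b → (∫ y in X₂, ϕ (N₂ y)) - ∫ y in X₁, ϕ (N₁ y) ≤
      H * En a b L + 2 * ω * volume.real X₁) ∧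
    (¬ side a b → (∫ y in X₁, ϕ (N₁ y)) - ∫ y in X₂, ϕ (N₂ y) ≤
      H * En a b L + 2 * ω * volume.real X₁) := by
  have fin : ∀ (X : Set (Sp n)) (N : Sp n → ℝ), volume X ≠ ⊤ →
      IsFiniteMeasure (Measure.map N (volume.restrict X)) := by
    intro X N h
    have : IsFiniteMeasure ((volume : Measure (Sp n)).restrict X) := isFiniteMeasure_restrict.2 h
    infer_instance
  have app : ∀ (X : Set (Sp n)) (N : Sp n → ℝ) (s : Set ℝ), MeasurableSet X → Measurable N →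
      MeasurableSet s → (Measure.map N (volume.restrict X)) s = volume (X ∩ N ⁻¹' s) := by
    intro X N s hX hN hs
    rw [Measure.map_apply hN hs, Measure.restrict_apply' hX, inter_comm]
  have appr : ∀ (X : Set (Sp n)) (N : Sp n → ℝ) (s : Set ℝ), MeasurableSet X → Measurable N →
      MeasurableSet s →
      (Measure.map N (volume.restrict X)).real s = volume.real (X ∩ N ⁻¹' s) := by
    intro X N s hX hN hs
    rw [measureReal_def, app X N s hX hN hs, measureReal_def]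
  have supp : ∀ (X : Set (Sp n)) (N : Sp n → ℝ), MeasurableSet X → Measurable N →
      (∀ y ∈ X, N y ∈ Icc a b) → (Measure.map N (volume.restrict X)) (Icc a b)ᶜ = 0 := by
    intro X N hX hN h
    rw [app X N _ hX hN measurableSet_Icc.compl]
    have : X ∩ N ⁻¹' (Icc a b)ᶜ = ∅ := eq_empty_of_forall_notMem fun y hy => hy.2 (h y hy.1)
    rw [this, measure_empty]
  have split : ∀ (X : Set (Sp n)) (N : Sp n → ℝ) (t t' : ℝ), volume X ≠ ⊤ → Measurable N →
      t ≤ t' → volume.real (X ∩ N ⁻¹' Ici t) =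
        volume.real (X ∩ N ⁻¹' Ici t') + volume.real (X ∩ {y | t ≤ N y ∧ N y < t'}) := by
    intro X N t t' h hN htt
    rw [← measureReal_inter_add_sdiff (s := X ∩ N ⁻¹' Ici t) (t := N ⁻¹' Ici t')
      (hN measurableSet_Ici) ((measure_mono inter_subset_left).trans_lt h.lt_top).ne]
    congr 2
    · ext y
      simp only [mem_inter_iff, mem_preimage, mem_Ici]
      exact ⟨fun h => ⟨h.1.1, h.2⟩, fun h => ⟨⟨h.1, htt.trans h.2⟩, h.2⟩⟩
    · ext y
      simp only [mem_inter_iff, mem_preimage, mem_Ici, mem_sdiff, mem_ofPred_eq, not_le]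
      tauto
  have key := hT a b L H _ _ (fin X₁ N₁ hf₁) (fin X₂ N₂ hf₂) hA hab hB hH
    (supp X₁ N₁ hX₁ hN₁ h₁) (supp X₂ N₂ hX₂ hN₂ h₂)
    (by rw [appr X₁ N₁ _ hX₁ hN₁ MeasurableSet.univ, appr X₂ N₂ _ hX₂ hN₂ MeasurableSet.univ]
        simpa using hm)
    (fun t h1 h2 => by
      rw [appr X₁ N₁ _ hX₁ hN₁ measurableSet_Ici, appr X₂ N₂ _ hX₂ hN₂ measurableSet_Ici]
      exact hdom t h1 h2)
    (fun t t' h1 h2 h3 => by
      rw [appr X₁ N₁ _ hX₁ hN₁ measurableSet_Ici, appr X₂ N₂ _ hX₂ hN₂ measurableSet_Ici,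
        appr X₁ N₁ _ hX₁ hN₁ measurableSet_Ici, appr X₂ N₂ _ hX₂ hN₂ measurableSet_Ici,
        split X₁ N₁ t t' hf₁ hN₁ h2, split X₂ N₂ t t' hf₂ hN₂ h2, abs_le]
      have e1 := hh₁ t t' h1 h2 h3
      have e2 := hh₂ t t' h1 h2 h3
      have e3 : 0 ≤ volume.real (X₁ ∩ {y | t ≤ N₁ y ∧ N₁ y < t'}) := measureReal_nonneg
      have e4 : 0 ≤ volume.real (X₂ ∩ {y | t ≤ N₂ y ∧ N₂ y < t'}) := measureReal_nonneg
      constructor <;> linarith)
  rw [integral_map hN₁.aemeasurable hc.aestronglyMeasurable,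
    integral_map hN₂.aemeasurable hc.aestronglyMeasurable,
    appr X₁ N₁ _ hX₁ hN₁ MeasurableSet.univ] at key
  simpa using key

/-- translation estimate in dimension at least two -/
lemma EnT.high {c ω : ℝ} {ϕ : ℝ → ℝ} {En : ℝ → ℝ → ℝ → ℝ} {side : ℝ → ℝ → Prop}
    (hT : EnT c (6 * c) ω ϕ En side) (hc : Continuous ϕ) (hc0 : 0 < c) (hω : 0 ≤ ω)
    (hE : ∀ a b L, 0 ≤ En a b L) (n : ℕ) {a b L r ρ₁ ρ₂ : ℝ}
    (hA : c ≤ a) (hB : b ≤ 6 * c) (hL : 0 < L) (hr : L ≤ r) (h12 : ρ₁ ≤ ρ₂)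
    (ha : a ≤ ρ₁ - r) (hb : ρ₂ + r ≤ b) :
    (side a b → avg (n + 1) ϕ ρ₂ r - avg (n + 1) ϕ ρ₁ r ≤
      (om (n + 1) / om (n + 2) * (4 * (n + 1) * En a b L + 2 * ω) / L) * (ρ₂ - ρ₁)) ∧
    (¬ side a b → avg (n + 1) ϕ ρ₁ r - avg (n + 1) ϕ ρ₂ r ≤
      (om (n + 1) / om (n + 2) * (4 * (n + 1) * En a b L + 2 * ω) / L) * (ρ₂ - ρ₁)) := by
  have hr0 : 0 < r := hL.trans_le hr
  have o1 := om_pos (n + 1)
  have o2 := om_pos (n + 2)
  have hh : 0 ≤ ρ₂ - ρ₁ := sub_nonneg.2 h12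
  have hsq : ∀ t t', t ≤ t' → √(2 * r * (6 * (t' - t))) ≤ 4 * r * √((t' - t) / L) := by
    intro t t' h
    rw [Real.sqrt_le_left (by positivity), mul_pow, Real.sq_sqrt (div_nonneg (by linarith) hL.le)]
    have h1 : (t' - t) / r ≤ (t' - t) / L := div_le_div_of_nonneg_left (by linarith) hL hr
    have h2 : 2 * r * (6 * (t' - t)) = 12 * r ^ 2 * ((t' - t) / r) := by field_simp; ring
    have h3 : 0 ≤ (t' - t) / r := div_nonneg (by linarith) hr0.le
    rw [h2]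
    nlinarith [sq_nonneg r]
  have hhol : ∀ x₁ x₂ t t', c ≤ x₁ → c ≤ x₂ → |x₂ - x₁| = ρ₂ - ρ₁ → a < t → t ≤ t' → t' ≤ b →
      (volume : Measure (Sp (n + 2))).real ((ball (ax (n + 1) x₂) r \ ball (ax (n + 1) x₁) r) ∩
        {y | t ≤ ‖y‖ ∧ ‖y‖ < t'}) ≤
      (ρ₂ - ρ₁) * (4 * (n + 1) * r ^ (n + 1) * om (n + 1)) * √((t' - t) / L) := by
    intro x₁ x₂ t t' h1 h2 h3 h4 h5 h6
    refine (vol_diff_annulus_le n hr0 hc0 x₁ x₂ h1 h2 (by linarith) h5 (by linarith)).trans ?_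
    rw [h3]
    calc _ ≤ (ρ₂ - ρ₁) * ((n + 1) * r ^ n * (4 * r * √((t' - t) / L)) * om (n + 1)) := by
          have := hsq t t' h5
          gcongr
      _ = _ := by ring
  have key := hT.sets hc a b L ((ρ₂ - ρ₁) * (4 * (n + 1) * r ^ (n + 1) * om (n + 1)))
    (ball (ax (n + 1) ρ₁) r \ ball (ax (n + 1) ρ₂) r)
    (ball (ax (n + 1) ρ₂) r \ ball (ax (n + 1) ρ₁) r) norm norm
    (measurableSet_ball.diff measurableSet_ball) (measurableSet_ball.diff measurableSet_ball)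
    ((measure_mono sdiff_subset).trans_lt measure_ball_lt_top).ne
    ((measure_mono sdiff_subset).trans_lt measure_ball_lt_top).ne measurable_norm measurable_norm
    hA (by linarith) hB (by positivity)
    (fun y hy => by
      have := norm_mem_ball (by linarith) hy.1
      exact ⟨by linarith [this.1], by linarith [this.2]⟩)
    (fun y hy => by
      have := norm_mem_ball (by linarith) hy.1
      exact ⟨by linarith [this.1], by linarith [this.2]⟩)
    (vol_diff_eq _ _ _ _) (fun t _ _ => vol_reflect _ hr0 (by linarith) h12 t)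
    (fun t t' h1 h2 h3 => hhol ρ₂ ρ₁ t t' (by linarith) (by linarith)
      (by rw [abs_sub_comm, abs_of_nonneg hh]) h1 h2 h3)
    (fun t t' h1 h2 h3 => hhol ρ₁ ρ₂ t t' (by linarith) (by linarith) (abs_of_nonneg hh) h1 h2 h3)
  have hK := vol_diff_le (n + 1) hr0 ρ₂ ρ₁
  rw [abs_sub_comm, abs_of_nonneg hh] at hK
  have hfin : ∀ D : ℝ, D ≤ (ρ₂ - ρ₁) * (4 * (n + 1) * r ^ (n + 1) * om (n + 1)) * En a b L +
      2 * ω * volume.real (ball (ax (n + 1) ρ₁) r \ ball (ax (n + 1) ρ₂) r) →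
      D / (r ^ (n + 1 + 1) * om (n + 1 + 1)) ≤
        (om (n + 1) / om (n + 2) * (4 * (n + 1) * En a b L + 2 * ω) / L) * (ρ₂ - ρ₁) := by
    intro D hD
    have e0 := hE a b L
    have e1 : D ≤ (ρ₂ - ρ₁) * (r ^ (n + 1) * om (n + 1)) * (4 * (n + 1) * En a b L + 2 * ω) := by
      have := mul_le_mul_of_nonneg_left hK (by linarith : 0 ≤ 2 * ω)
      linarith
    calc D / (r ^ (n + 1 + 1) * om (n + 1 + 1)) ≤
        (ρ₂ - ρ₁) * (r ^ (n + 1) * om (n + 1)) * (4 * (n + 1) * En a b L + 2 * ω) /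
          (r ^ (n + 1 + 1) * om (n + 1 + 1)) := by gcongr
      _ = (om (n + 1) / om (n + 2) * (4 * (n + 1) * En a b L + 2 * ω) / r) * (ρ₂ - ρ₁) := by
          field_simp
          ring
      _ ≤ _ := by gcongr
  have i₁ := integrableOn_ball_of_continuous (n + 2) hc (ax (n + 1) ρ₁) r
  have i₂ := integrableOn_ball_of_continuous (n + 2) hc (ax (n + 1) ρ₂) r
  constructor
  · intro hs
    rw [avg_sub i₁ i₂]
    exact hfin _ (key.1 hs)
  · intro hs
    rw [avg_sub i₂ i₁]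
    exact hfin _ (key.2 hs)

lemma vol_annulus_one {ρ r t t' : ℝ} (hr : 0 < r) (hρ : r ≤ ρ) (htt : t ≤ t') :
    (volume : Measure (Sp 1)).real (ball (ax 0 ρ) r ∩ {y | t ≤ ‖y‖ ∧ ‖y‖ < t'}) ≤ t' - t := by
  have key := shear 0 (ball (ax 0 ρ) r ∩ {y | t ≤ ‖y‖ ∧ ‖y‖ < t'})
    (measurableSet_ball.inter ((measurableSet_le measurable_const measurable_norm).inter
        (measurableSet_lt measurable_norm measurable_const))) (fun _ => 0) t t'
    (Icc t t' ×ˢ univ) (measurableSet_Icc.prod MeasurableSet.univ) 1 ?_ (fun ρ z h => h.1) ?_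
  · rw [mul_one] at key
    exact ENNReal.toReal_le_of_le_ofReal (by linarith) key
  · intro a z hz
    have h1 := hz.1
    rw [mem_ball_Psi 0 _ _ _ hr.le] at h1
    have h2 := norm_sq_Psi 0 a z
    have h3 : ‖z‖ = 0 := by rw [Subsingleton.elim z 0, norm_zero]
    rw [h3] at h1 h2
    have h4 : 0 ≤ a := by nlinarith
    have h5 : ‖Psi 0 (a, z)‖ = a := by
      have := (sq_eq_sq₀ (norm_nonneg (Psi 0 (a, z))) h4).1 (by linarith)
      exact this
    have h6 := hz.2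
    simp only [mem_ofPred_eq, h5] at h6
    exact ⟨⟨by linarith [h6.1], by linarith [h6.2]⟩, mem_univ _⟩
  · intro ρ _
    rw [volume_euclideanSpace_eq_dirac]
    exact prob_le_one

/-- valley estimate in dimension one -/
lemma EnT.valley {A B ω : ℝ} {ϕ : ℝ → ℝ} {En : ℝ → ℝ → ℝ → ℝ} {side : ℝ → ℝ → Prop}
    (hT : EnT A B ω ϕ En side) (hc : Continuous ϕ) (hA0 : 0 ≤ A)
    (hE : ∀ a b L, 0 ≤ En a b L)
    (hmono : ∀ a b a' b' L, a' ≤ a → b ≤ b' → En a b L ≤ En a' b' L) {a b L r ρ s t : ℝ}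
    (hA : A ≤ a) (hB : b ≤ B) (hL : 0 < L) (hr : L / 16 ≤ r) (hab : b - a ≤ 16 * L)
    (hs : a ≤ s) (hs' : s ≤ ρ - r) (ht' : ρ + r ≤ t) (ht : t ≤ b) :
    min (ϕ s) (ϕ t) - avg 0 ϕ ρ r ≤ 64 / om 1 * En a b L + 2 * ω := by
  have hr0 : 0 < r := by linarith
  have o1 := om_pos 1
  have hhol : ∀ τ τ', s < τ → τ ≤ τ' → τ' ≤ t →
      (volume : Measure (Sp 1)).real (ball (ax 0 ρ) r ∩ {y | τ ≤ ‖y‖ ∧ ‖y‖ < τ'}) ≤
        4 * L * √((τ' - τ) / L) := by
    intro τ τ' h1 h2 h3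
    refine (vol_annulus_one hr0 (by linarith) h2).trans ?_
    have h4 : 0 ≤ (τ' - τ) / L := div_nonneg (by linarith) hL.le
    have h5 : (τ' - τ) / L ≤ 16 := by rw [div_le_iff₀ hL]; linarith
    have h6 : (τ' - τ) / L / 4 ≤ √((τ' - τ) / L) := Real.le_sqrt_of_sq_le (by nlinarith)
    have h7 : τ' - τ = 4 * L * ((τ' - τ) / L / 4) := by field_simp
    nlinarith
  have hin : ∀ y ∈ ball (ax 0 ρ) r, ‖y‖ ∈ Icc s t := fun y hy => by
    have := norm_mem_ball (by linarith) hy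
    exact ⟨by linarith [this.1], by linarith [this.2]⟩
  have hV := vol_ball 1 (ax 0 ρ) hr0
  have hfin : ∀ v : ℝ, v * (r ^ 1 * om 1) - ∫ y in ball (ax 0 ρ) r, ϕ ‖y‖ ≤
      4 * L * En s t L + 2 * ω * (r ^ 1 * om 1) →
      v - avg 0 ϕ ρ r ≤ 64 / om 1 * En a b L + 2 * ω := by
    intro v hv
    have e1 : v - avg 0 ϕ ρ r ≤ 4 * L * En s t L / (r ^ 1 * om 1) + 2 * ω := by
      have h0 : 0 < r ^ 1 * om 1 := by positivity
      have h1 : avg 0 ϕ ρ r = (∫ y in ball (ax 0 ρ) r, ϕ ‖y‖) / (r ^ 1 * om 1) := rfl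
      have h2 := div_le_div_of_nonneg_right hv h0.le
      rw [sub_div, add_div, mul_div_assoc v, mul_div_assoc (2 * ω), div_self h0.ne'] at h2
      rw [h1]
      linarith
    refine e1.trans (add_le_add ?_ le_rfl)
    have e2 := hmono s t a b L hs ht
    have e3 := hE s t L
    rw [div_le_iff₀ (by positivity)]
    have e4 : 64 / om 1 * En a b L * (r ^ 1 * om 1) = 64 * r * En a b L := by field_simp
    rw [e4]
    nlinarith
  by_cases hside : side s t
  · have key := (hT.sets hc s t L (4 * L) (ball (ax 0 ρ) r) (ball (ax 0 ρ) r) norm (fun _ => t)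
      measurableSet_ball measurableSet_ball measure_ball_lt_top.ne measure_ball_lt_top.ne
      measurable_norm measurable_const (hA.trans hs) (by linarith) (ht.trans hB) (by positivity)
      hin (fun _ _ => ⟨by linarith, le_rfl⟩) rfl
      (fun τ _ h2 => measureReal_mono (fun y hy => ⟨hy.1, h2⟩)
        ((measure_mono inter_subset_left).trans_lt measure_ball_lt_top).ne)
      hhol (fun τ τ' _ _ h3 => by
        have : ball (ax 0 ρ) r ∩ {y : Sp 1 | τ ≤ t ∧ t < τ'} = ∅ :=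
          eq_empty_of_forall_notMem fun y hy => absurd hy.2.2 (not_lt.2 h3)
        rw [this, measureReal_empty]; positivity)).1 hside
    rw [setIntegral_const, hV, smul_eq_mul, mul_comm] at key
    linarith [hfin _ key, min_le_right (ϕ s) (ϕ t)]
  · have key := (hT.sets hc s t L (4 * L) (ball (ax 0 ρ) r) (ball (ax 0 ρ) r) (fun _ => s) norm
      measurableSet_ball measurableSet_ball measure_ball_lt_top.ne measure_ball_lt_top.ne
      measurable_const measurable_norm (hA.trans hs) (by linarith) (ht.trans hB) (by positivity)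
      (fun _ _ => ⟨le_rfl, by linarith⟩) hin rfl
      (fun τ h1 _ => by
        have : ball (ax 0 ρ) r ∩ {y : Sp 1 | τ ≤ s} = ∅ :=
          eq_empty_of_forall_notMem fun y hy => absurd hy.2 (not_le.2 h1)
        rw [this, measureReal_empty]; exact measureReal_nonneg)
      (fun τ τ' h1 _ _ => by
        have : ball (ax 0 ρ) r ∩ {y : Sp 1 | τ ≤ s ∧ s < τ'} = ∅ :=
          eq_empty_of_forall_notMem fun y hy => absurd hy.2.1 (not_le.2 h1)
        rw [this, measureReal_empty]; positivity) hhol).2 hside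
    rw [setIntegral_const, hV, smul_eq_mul, mul_comm] at key
    linarith [hfin _ key, min_le_left (ϕ s) (ϕ t)]

end Pool.Agent.MP_bf8c07_an_h89

end

-- part MP_bf8c07_an_h89.Group2
section

/-!
The data attached to one group of peaks (one scale, one cell).
-/

set_option autoImplicit false
open MeasureTheory Set Metric

namespace Pool.Agent.MP_bf8c07_an_h89

/-- maximum of `F` on a compact interval -/
noncomputable def mx (F : ℝ → ℝ) (u v : ℝ) : ℝ := sSup (F '' Icc u v)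

lemma mx_attained {F : ℝ → ℝ} (hF : Continuous F) {u v : ℝ} (h : u ≤ v) :
    ∃ s ∈ Icc u v, mx F u v = F s := by
  obtain ⟨s, hs, h1⟩ := (isCompact_Icc (a := u) (b := v)).exists_sSup_image_eq
    (nonempty_Icc.2 h) hF.continuousOn
  exact ⟨s, hs, h1⟩

lemma le_mx {F : ℝ → ℝ} (hF : Continuous F) {u v y : ℝ} (h1 : u ≤ y) (h2 : y ≤ v) :
    F y ≤ mx F u v :=
  le_csSup (isCompact_Icc.bddAbove_image hF.continuousOn) ⟨y, ⟨h1, h2⟩, rfl⟩

lemma mx_le {F : ℝ → ℝ} {u v c : ℝ} (h : u ≤ v) (h1 : ∀ y, u ≤ y → y ≤ v → F y ≤ c) :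
    mx F u v ≤ c :=
  csSup_le ((nonempty_Icc.2 h).image _) (by rintro _ ⟨y, hy, rfl⟩; exact h1 y hy.1 hy.2)

/-- the properties needed for one group -/
def GroupOK (n : ℕ) (ϕ : ℝ → ℝ) (x L cost H κ α β : ℝ) (up : Prop) : Prop :=
  0 ≤ H ∧ 0 ≤ κ ∧ 2 * (κ * (L / 8 + H)) + max (β - α) 0 ≤ cost ∧
  ∀ ρ r, x ≤ ρ → ρ ≤ x + L / 8 → L < r → r ≤ 2 * L →
    (up → ∀ ρ' m', x - H ≤ ρ' → ρ' ≤ ρ → (∀ r', 0 < r' → r' ≤ 2 * L → avg n ϕ ρ' r' ≤ m') →
      avg n ϕ ρ r - m' ≤ κ * (ρ - ρ')) ∧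
    (¬ up → ∀ ρ' m', ρ ≤ ρ' → ρ' ≤ x + L / 8 + H →
      (∀ r', 0 < r' → r' ≤ 2 * L → avg n ϕ ρ' r' ≤ m') → avg n ϕ ρ r - m' ≤ κ * (ρ' - ρ)) ∧
    (∀ ρa ρb l, ρa ≤ ρ → ρ ≤ ρb → (∀ r', 0 < r' → r' ≤ 2 * L → avg n ϕ ρa r' ≤ l) →
      (∀ r', 0 < r' → r' ≤ 2 * L → avg n ϕ ρb r' ≤ l) → l < avg n ϕ ρ r →
      (∀ y, ρa ≤ y → y ≤ ρb → ϕ y ≤ l) →
      ((up ∧ ρa < x - H) ∨ (¬ up ∧ x + L / 8 + H < ρb)) → α ≤ l ∧ l < β)

lemma group_high {c ω : ℝ} {ϕ : ℝ → ℝ} {En : ℝ → ℝ → ℝ → ℝ} {side : ℝ → ℝ → Prop}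
    (hT : EnT c (6 * c) ω ϕ En side) (hc : Continuous ϕ) (hc0 : 0 < c) (hω : 0 ≤ ω)
    (hE : ∀ a b L, 0 ≤ En a b L) (n : ℕ) {x L : ℝ} (hL : 0 < L)
    (hA : c ≤ x - 6 * L) (hB : x + 7 * L ≤ 6 * c) :
    ∃ (H κ α β : ℝ) (up : Prop), GroupOK (n + 1) ϕ x L
      (48 * (n + 1) * (om (n + 1) / om (n + 2)) * (En (x - 6 * L) (x + 7 * L) L + ω))
      H κ α β up := by
  classical
  set κ := om (n + 1) / om (n + 2) * (4 * (n + 1) * En (x - 6 * L) (x + 7 * L) L + 2 * ω) / L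
    with hκ
  have o1 := om_pos (n + 1)
  have o2 := om_pos (n + 2)
  have e0 := hE (x - 6 * L) (x + 7 * L) L
  have hκ0 : 0 ≤ κ := by positivity
  set z := if side (x - 6 * L) (x + 7 * L) then x - 2 * L else x + L / 8 + 2 * L with hz
  refine ⟨4 * L, κ, mx (avU (n + 1) ϕ z) L (2 * L), mx (avU (n + 1) ϕ z) L (2 * L) + 3 * (κ * L),
    side (x - 6 * L) (x + 7 * L), by positivity, hκ0, ?_, fun ρ r h1 h2 h3 h4 => ⟨?_, ?_, ?_⟩⟩
  · rw [max_eq_left (by have : 0 ≤ κ * L := by positivity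
                        linarith)]
    have e1 : κ * L = om (n + 1) / om (n + 2) *
        (4 * (n + 1) * En (x - 6 * L) (x + 7 * L) L + 2 * ω) := by rw [hκ]; field_simp
    have e2 : 0 ≤ om (n + 1) / om (n + 2) := by positivity
    have e3 : 4 * (n + 1) * En (x - 6 * L) (x + 7 * L) L + 2 * ω ≤
        4 * (n + 1) * (En (x - 6 * L) (x + 7 * L) L + ω) := by
      have : (0 : ℝ) ≤ n := Nat.cast_nonneg n
      nlinarith
    have e4 := mul_le_mul_of_nonneg_left e3 e2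
    have e5 : 0 ≤ κ * L := by positivity
    nlinarith
  · intro hs ρ' m' h5 h6 h7
    have := (hT.high hc hc0 hω hE n hA hB hL h3.le h6 (by linarith) (by linarith)).1 hs
    linarith [h7 r (by linarith) h4]
  · intro hs ρ' m' h5 h6 h7
    have := (hT.high hc hc0 hω hE n hA hB hL h3.le h5 (by linarith) (by linarith)).2 hs
    linarith [h7 r (by linarith) h4]
  · intro ρa ρb l h5 h6 _ _ h9 h10 h11
    have hle : avg (n + 1) ϕ z r ≤ mx (avU (n + 1) ϕ z) L (2 * L) := by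
      rw [avg_eq_avU _ _ _ (by linarith)]
      exact le_mx (continuous_avU _ hc _) h3.le h4
    rcases h11 with ⟨hs, h11⟩ | ⟨hs, h11⟩
    · have hz' : z = x - 2 * L := by rw [hz, if_pos hs]
      constructor
      · refine mx_le (by linarith) fun r' h12 h13 => ?_
        rw [← avg_eq_avU _ _ _ (by linarith), hz']
        exact avg_le' hc (by linarith) (by linarith) fun t h14 h15 =>
          h10 t (by linarith) (by linarith)
      · have := (hT.high hc hc0 hω hE n (ρ₁ := z) (ρ₂ := ρ) hA hB hL h3.le (by linarith)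
          (by linarith) (by linarith)).1 hs
        have e : κ * (ρ - z) ≤ κ * (3 * L) := mul_le_mul_of_nonneg_left (by linarith) hκ0
        linarith
    · have hz' : z = x + L / 8 + 2 * L := by rw [hz, if_neg hs]
      constructor
      · refine mx_le (by linarith) fun r' h12 h13 => ?_
        rw [← avg_eq_avU _ _ _ (by linarith), hz']
        exact avg_le' hc (by linarith) (by linarith) fun t h14 h15 =>
          h10 t (by linarith) (by linarith)
      · have := (hT.high hc hc0 hω hE n (ρ₁ := ρ) (ρ₂ := z) hA hB hL h3.le (by linarith)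
          (by linarith) (by linarith)).2 hs
        have e : κ * (z - ρ) ≤ κ * (3 * L) := mul_le_mul_of_nonneg_left (by linarith) hκ0
        linarith

lemma one_dim {ρ r ρ' r' : ℝ} (hρ : r ≤ ρ) {y : Sp 1} (hy : y ∈ ball (ax 0 ρ) r)
    (hy' : y ∉ ball (ax 0 ρ') r') : r' ≤ |‖y‖ - ρ'| := by
  have e : ∀ a : ℝ, ‖y - ax 0 a‖ = |y 0 - a| := by
    intro a
    rw [EuclideanSpace.norm_eq]
    simp [ax, Real.sqrt_sq_eq_abs]
  have e0 : ‖y‖ = |y 0| := by
    rw [EuclideanSpace.norm_eq]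
    simp [Real.sqrt_sq_eq_abs]
  rw [mem_ball_iff_norm, e] at hy hy'
  have h1 := abs_lt.1 hy
  rw [e0, abs_of_nonneg (by linarith [h1.1] : 0 ≤ y 0)]
  exact not_lt.1 hy'

lemma shrink_left {ϕ : ℝ → ℝ} (hc : Continuous ϕ) {ρ r ρ' m' c : ℝ} (hρ : r ≤ ρ) (h1 : ρ' ≤ ρ)
    (h2 : ρ - ρ' < r) (hm : avg 0 ϕ ρ' (r - (ρ - ρ')) ≤ m')
    (h3 : ∀ t, ρ + r - 2 * (ρ - ρ') ≤ t → t ≤ ρ + r → ϕ t ≤ c) :
    r * avg 0 ϕ ρ r ≤ (r - (ρ - ρ')) * m' + (ρ - ρ') * c := by
  have := avg_shrink hc (n := 0) (ρ := ρ) (r := r) (c := c) (by linarith : 0 < r - (ρ - ρ'))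
    (by rw [abs_of_nonneg (by linarith)]; linarith) hm fun y hy => by
      have e1 := norm_mem_ball (by linarith) hy.1
      have e2 := one_dim hρ hy.1 hy.2
      refine h3 _ ?_ e1.2.le
      rcases le_abs.1 e2 with h | h <;> linarith [e1.1]
  simp only [zero_add, pow_one] at this
  linarith

lemma shrink_right {ϕ : ℝ → ℝ} (hc : Continuous ϕ) {ρ r ρ' m' c : ℝ} (hρ : r ≤ ρ) (h1 : ρ ≤ ρ')
    (h2 : ρ' - ρ < r) (hm : avg 0 ϕ ρ' (r - (ρ' - ρ)) ≤ m')
    (h3 : ∀ t, ρ - r ≤ t → t ≤ ρ - r + 2 * (ρ' - ρ) → ϕ t ≤ c) :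
    r * avg 0 ϕ ρ r ≤ (r - (ρ' - ρ)) * m' + (ρ' - ρ) * c := by
  have := avg_shrink hc (n := 0) (ρ := ρ) (r := r) (c := c) (by linarith : 0 < r - (ρ' - ρ))
    (by rw [abs_of_nonpos (by linarith)]; linarith) hm fun y hy => by
      have e1 := norm_mem_ball (by linarith) hy.1
      have e2 := one_dim hρ hy.1 hy.2
      refine h3 _ e1.1.le ?_
      rcases le_abs.1 e2 with h | h <;> linarith [e1.2]
  simp only [zero_add, pow_one] at this
  linarith

lemma group_one {A B ω : ℝ} {ϕ : ℝ → ℝ} {En : ℝ → ℝ → ℝ → ℝ} {side : ℝ → ℝ → Prop}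
    (hT : EnT A B ω ϕ En side) (hc : Continuous ϕ) (hA0 : 0 ≤ A) (hω : 0 ≤ ω)
    (hE : ∀ a b L, 0 ≤ En a b L)
    (hmono : ∀ a b a' b' L, a' ≤ a → b ≤ b' → En a b L ≤ En a' b' L) {x L : ℝ} (hL : 0 < L)
    (hA : A ≤ x - 6 * L) (hB : x + 7 * L ≤ B) :
    ∃ (H κ α β : ℝ) (up : Prop), GroupOK 0 ϕ x L
      ((128 / om 1 + 4) * (En (x - 6 * L) (x + 7 * L) L + ω)) H κ α β up := by
  classical
  set v := 64 / om 1 * En (x - 6 * L) (x + 7 * L) L + 2 * ω with hv
  have o1 := om_pos 1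
  have e0 := hE (x - 6 * L) (x + 7 * L) L
  have hv0 : 0 ≤ v := by positivity
  have hval : ∀ ρ r u₁ u₂ u₃ u₄, L / 16 ≤ r → x - 6 * L ≤ u₁ → u₁ ≤ u₂ → u₂ ≤ ρ - r → ρ + r ≤ u₃ →
      u₃ ≤ u₄ → u₄ ≤ x + 7 * L → min (mx ϕ u₁ u₂) (mx ϕ u₃ u₄) - avg 0 ϕ ρ r ≤ v := by
    intro ρ r u₁ u₂ u₃ u₄ h1 h2 h3 h4 h5 h6 h7
    obtain ⟨s, hs, es⟩ := mx_attained hc h3
    obtain ⟨t, ht, et⟩ := mx_attained hc h6
    rw [es, et]
    exact hT.valley hc hA0 hE hmono hA hB hL h1 (by linarith) (by linarith [hs.1])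
      (by linarith [hs.2]) (by linarith [ht.1]) (by linarith [ht.2])
  set SL := mx ϕ (x - 2 * L) (x - 3 * L / 8) with hSL
  set SR := mx ϕ (x + L / 2) (x + L / 8 + 2 * L) with hSR
  set z := if SR ≤ SL then x - L / 16 else x + 3 * L / 16 with hz
  have hz1 : x - L / 16 ≤ z := by rw [hz]; split_ifs <;> linarith
  have hz2 : z ≤ x + 3 * L / 16 := by rw [hz]; split_ifs <;> linarith
  have hκL : v / L * L = v := by field_simp
  have hslope : ∀ r h m' S a : ℝ, L < r → 0 ≤ h → r * a ≤ (r - h) * m' + h * S → S - m' ≤ v →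
      a - m' ≤ v / L * h := by
    intro r h m' S a h1 h2 h3 h4
    have h5 : r * (a - m') ≤ h * v := by nlinarith
    have h6 : h * v ≤ r * (v / L * h) := by
      have : 0 ≤ v / L * h := by positivity
      nlinarith
    exact le_of_mul_le_mul_left (h5.trans h6) (by linarith)
  refine ⟨L / 8, v / L, avg 0 ϕ z (L / 16),
    min (mx ϕ (x - 2 * L) (z - L / 16)) (mx ϕ (z + L / 16) (x + L / 8 + 2 * L)), SR ≤ SL,
    by positivity, by positivity, ?_, fun ρ r h1 h2 h3 h4 => ⟨?_, ?_, ?_⟩⟩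
  · have e1 := hval z (L / 16) (x - 2 * L) (z - L / 16) (z + L / 16) (x + L / 8 + 2 * L) le_rfl
      (by linarith) (by linarith) le_rfl le_rfl (by linarith) (by linarith)
    have e2 := max_le e1 hv0
    have e3 : (128 / om 1 + 4) * (En (x - 6 * L) (x + 7 * L) L + ω) = 2 * v +
        (4 * En (x - 6 * L) (x + 7 * L) L + 128 / om 1 * ω) := by rw [hv]; ring
    have e4 : 0 ≤ 4 * En (x - 6 * L) (x + 7 * L) L + 128 / om 1 * ω := by positivity
    nlinarith
  · intro hs ρ' m' h5 h6 h7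
    have e1 := shrink_left hc (c := SR) (by linarith) h6 (by linarith)
      (h7 (r - (ρ - ρ')) (by linarith) (by linarith))
      fun t h8 h9 => le_mx hc (by linarith) (by linarith)
    have e2 := hval ρ' (L / 8) (x - 2 * L) (x - 3 * L / 8) (x + L / 2) (x + L / 8 + 2 * L)
      (by linarith) (by linarith) (by linarith) (by linarith) (by linarith) (by linarith)
      (by linarith)
    rw [min_eq_right hs] at e2
    exact hslope r _ m' SR _ h3 (by linarith) e1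
      (by linarith [h7 (L / 8) (by linarith) (by linarith)])
  · intro hs ρ' m' h5 h6 h7
    have e1 := shrink_right hc (c := SL) (by linarith) h5 (by linarith)
      (h7 (r - (ρ' - ρ)) (by linarith) (by linarith))
      fun t h8 h9 => le_mx hc (by linarith) (by linarith)
    have e2 := hval ρ' (L / 8) (x - 2 * L) (x - 3 * L / 8) (x + L / 2) (x + L / 8 + 2 * L)
      (by linarith) (by linarith) (by linarith) (by linarith) (by linarith) (by linarith)
      (by linarith)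
    rw [min_eq_left (not_le.1 hs).le] at e2
    exact hslope r _ m' SL _ h3 (by linarith) e1
      (by linarith [h7 (L / 8) (by linarith) (by linarith)])
  · intro ρa ρb l h5 h6 h7 h8 h9 h10 h11
    have hQ : ρa ≤ z - L / 16 ∧ z + L / 16 ≤ ρb := by
      rcases h11 with ⟨hs, h11⟩ | ⟨hs, h11⟩
      · have hz' : z = x - L / 16 := by rw [hz, if_pos hs]
        constructor <;> linarith
      · have hz' : z = x + 3 * L / 16 := by rw [hz, if_neg hs]
        constructor <;> linarith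
    have hr0 : 0 < r := by linarith
    refine ⟨avg_le' hc (by linarith) (by linarith) fun t h12 h13 =>
      h10 t (by linarith [hQ.1]) (by linarith [hQ.2]), lt_min ?_ ?_⟩
    · by_contra hcon
      have hle : ∀ t, ρ - r ≤ t → t ≤ ρb → ϕ t ≤ l := by
        intro t h12 h13
        rcases le_total ρa t with h14 | h14
        · exact h10 t h14 h13
        · exact (le_mx hc (by linarith) (by linarith [hQ.1])).trans (not_lt.1 hcon)
      rcases lt_or_ge (ρb - ρ) r with h12 | h12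
      · have := shrink_right hc (c := l) (by linarith) h6 h12
          (h8 (r - (ρb - ρ)) (by linarith) (by linarith)) fun t h13 h14 => hle t h13 (by linarith)
        nlinarith
      · have := avg_le' (n := 0) hc hr0 (by linarith : 0 ≤ ρ) fun t h13 h14 =>
          hle t h13 (by linarith)
        linarith
    · by_contra hcon
      have hle : ∀ t, ρa ≤ t → t ≤ ρ + r → ϕ t ≤ l := by
        intro t h12 h13
        rcases le_total t ρb with h14 | h14
        · exact h10 t h12 h14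
        · exact (le_mx hc (by linarith [hQ.2]) (by linarith)).trans (not_lt.1 hcon)
      rcases lt_or_ge (ρ - ρa) r with h12 | h12
      · have := shrink_left hc (c := l) (by linarith) h5 h12
          (h7 (r - (ρ - ρa)) (by linarith) (by linarith)) fun t h13 h14 => hle t (by linarith) h14
        nlinarith
      · have := avg_le' (n := 0) hc hr0 (by linarith : 0 ≤ ρ) fun t h13 h14 =>
          hle t (by linarith) h14
        linarith

end Pool.Agent.MP_bf8c07_an_h89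

end

-- part MP_bf8c07_an_h89.Count
section

/-!
The combinatorial core: counting up-crossings of a finite sequence level by level.
-/

set_option autoImplicit false
open MeasureTheory Set Finset

namespace Pool.Agent.MP_bf8c07_an_h89

open Classical in
lemma sum_ind_eq_card {ι : Type*} (s : Finset ι) (c d : ι → ℝ) (l : ℝ) :
    ∑ a ∈ s, ind (c a) (d a) l = ((s.filter fun a => c a ≤ l ∧ l < d a).card : ℝ) := by
  unfold ind
  rw [Finset.card_filter]
  push_cast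
  refine Finset.sum_congr rfl fun a _ => ?_
  split_ifs <;> rfl

lemma card_le_of_run (m : ℕ → ℝ) (l : ℝ) (A B : Finset ℕ)
    (h : ∀ a ∈ A, m a ≤ l ∧ ∃ j ∈ B, a ≤ j ∧ ∀ k, a < k → k ≤ j → l < m k) :
    A.card ≤ B.card := by
  classical
  have h' : ∀ a, ∃ j, a ∈ A → j ∈ B ∧ a ≤ j ∧ ∀ k, a < k → k ≤ j → l < m k := by
    intro a
    by_cases ha : a ∈ A
    · obtain ⟨j, h1, h2⟩ := (h a ha).2
      exact ⟨j, fun _ => ⟨h1, h2⟩⟩
    · exact ⟨0, fun h => absurd h ha⟩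
  choose j hj using h'
  refine Finset.card_le_card_of_injOn j (fun a ha => (hj a ha).1) ?_
  intro a ha a' ha' hjj
  have ha1 := hj a ha
  have ha2 := hj a' ha'
  by_contra hne
  rcases lt_or_gt_of_ne hne with hh | hh
  · have := ha1.2.2 a' hh (by rw [hjj]; exact ha2.2.1)
    linarith [(h a' ha').1]
  · have := ha2.2.2 a hh (by rw [← hjj]; exact ha1.2.1)
    linarith [(h a ha).1]

open Classical in
lemma tele_le (ρ : ℕ → ℝ) (hρ : Monotone ρ) (N : ℕ) (c d : ℝ) (hcd : c ≤ d) (s : Finset ℕ)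
    (hs : ∀ j ∈ s, j < N ∧ c ≤ ρ j ∧ ρ (j + 1) ≤ d) :
    ∑ j ∈ s, (ρ (j + 1) - ρ j) ≤ d - c := by
  set cl : ℕ → ℝ := fun j => max c (min (ρ j) d) with hcl
  have h1 : ∑ j ∈ s, (ρ (j + 1) - ρ j) = ∑ j ∈ s, (cl (j + 1) - cl j) := by
    refine Finset.sum_congr rfl fun j hj => ?_
    obtain ⟨-, h2, h3⟩ := hs j hj
    have h4 := hρ (Nat.le_succ j)
    simp only [hcl]
    rw [min_eq_left h3, min_eq_left (h4.trans h3), max_eq_right h2, max_eq_right (h2.trans h4)]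
  have h2 : ∑ j ∈ s, (cl (j + 1) - cl j) ≤ ∑ j ∈ Finset.range N, (cl (j + 1) - cl j) := by
    refine Finset.sum_le_sum_of_subset_of_nonneg (fun j hj => Finset.mem_range.2 (hs j hj).1)
      fun j _ _ => sub_nonneg.2 ?_
    exact max_le_max le_rfl (min_le_min (hρ (Nat.le_succ j)) le_rfl)
  rw [Finset.sum_range_sub] at h2
  have h3 : cl N ≤ d := max_le hcd (min_le_right _ _)
  have h4 : c ≤ cl 0 := le_max_left _ _
  linarith

/-- lower envelope used for the descending side -/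
noncomputable def env (P : ℕ → Prop) [DecidablePred P] (ρ m : ℕ → ℝ) (lo κ : ℝ) : ℕ → ℝ
  | 0 => if P 0 then m 0 else lo
  | j + 1 => max (env P ρ m lo κ j - κ * (ρ (j + 1) - ρ j)) (if P (j + 1) then m (j + 1) else lo)

lemma env_ge (P : ℕ → Prop) [DecidablePred P] (ρ m : ℕ → ℝ) (lo κ : ℝ) (i : ℕ) (hi : P i) :
    m i ≤ env P ρ m lo κ i := by
  cases i with
  | zero => simp [env, hi]
  | succ j => simp [env, hi]

lemma env_step (P : ℕ → Prop) [DecidablePred P] (ρ m : ℕ → ℝ) (lo κ : ℝ) (j : ℕ) :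
    env P ρ m lo κ j - env P ρ m lo κ (j + 1) ≤ κ * (ρ (j + 1) - ρ j) := by
  have : env P ρ m lo κ j - κ * (ρ (j + 1) - ρ j) ≤ env P ρ m lo κ (j + 1) := le_max_left _ _
  linarith

lemma env_le (P : ℕ → Prop) [DecidablePred P] (ρ m : ℕ → ℝ) (lo κ : ℝ) (hρ : Monotone ρ)
    (hκ : 0 ≤ κ) (j : ℕ) :
    env P ρ m lo κ j ≤ lo ∨ ∃ i, i ≤ j ∧ P i ∧ env P ρ m lo κ j ≤ m i - κ * (ρ j - ρ i) := by
  induction j with
  | zero =>
    by_cases h : P 0
    · exact Or.inr ⟨0, le_rfl, h, by simp [env, h]⟩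
    · exact Or.inl (by simp [env, h])
  | succ j ih =>
    have h0 : 0 ≤ κ * (ρ (j + 1) - ρ j) := mul_nonneg hκ (sub_nonneg.2 (hρ (Nat.le_succ j)))
    rcases le_total (env P ρ m lo κ j - κ * (ρ (j + 1) - ρ j))
      (if P (j + 1) then m (j + 1) else lo) with h | h
    · have e : env P ρ m lo κ (j + 1) = if P (j + 1) then m (j + 1) else lo := max_eq_right h
      by_cases h' : P (j + 1)
      · exact Or.inr ⟨j + 1, le_rfl, h', by rw [e, if_pos h']; simp⟩
      · exact Or.inl (by rw [e, if_neg h'])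
    · have e : env P ρ m lo κ (j + 1) = env P ρ m lo κ j - κ * (ρ (j + 1) - ρ j) := max_eq_left h
      rcases ih with ih | ⟨i, h1, h2, h3⟩
      · exact Or.inl (by rw [e]; linarith)
      · exact Or.inr ⟨i, by omega, h2, by rw [e]; linarith⟩

theorem count_core {ι : Type} (N : ℕ) (ρ m Φ : ℕ → ℝ) (ϕ : ℝ → ℝ) (lo hi : ℝ)
    (hρ : Monotone ρ) (hlo : ∀ j, lo ≤ m j) (hhi : ∀ j, m j ≤ hi)
    (hϕ : ∀ j, ϕ (ρ j) ≤ m j)
    (hΦ : ∀ j y, ρ j ≤ y → y ≤ ρ (j + 1) → ϕ y ≤ Φ j)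
    (γ : ℕ → ι) (S : Finset ι) (x ℓ H κ α β : ι → ℝ) (up : ι → Prop)
    (hS : ∀ i, i ≤ N → ϕ (ρ i) < m i → γ i ∈ S)
    (hℓ : ∀ G ∈ S, 0 ≤ ℓ G) (hH : ∀ G ∈ S, 0 ≤ H G) (hκ : ∀ G ∈ S, 0 ≤ κ G)
    (hx : ∀ i, ϕ (ρ i) < m i → x (γ i) ≤ ρ i ∧ ρ i ≤ x (γ i) + ℓ (γ i))
    (hup : ∀ i, ϕ (ρ i) < m i → up (γ i) → ∀ j, j < i → x (γ i) - H (γ i) ≤ ρ j →
      m i - m j ≤ κ (γ i) * (ρ i - ρ j))
    (hdown : ∀ i, ϕ (ρ i) < m i → ¬ up (γ i) → ∀ j, i < j → ρ j ≤ x (γ i) + ℓ (γ i) + H (γ i) →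
      m i - m j ≤ κ (γ i) * (ρ j - ρ i))
    (hfar : ∀ i a b l, a < i → i < b → m a ≤ l → m b ≤ l → l < m i →
      (∀ y, ρ a ≤ y → y ≤ ρ b → ϕ y ≤ l) →
      ((up (γ i) ∧ ρ a < x (γ i) - H (γ i)) ∨
        (¬ up (γ i) ∧ x (γ i) + ℓ (γ i) + H (γ i) < ρ b)) → α (γ i) ≤ l ∧ l < β (γ i)) :
    ∑ a ∈ Finset.range N, max (m (a + 1) - m a) 0 ≤
      (hi - lo) + ∑ j ∈ Finset.range N, max (Φ j - ϕ (ρ j)) 0 +
        ∑ G ∈ S, (2 * (κ G * (ℓ G + H G)) + max (β G - α G) 0) := by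
  classical
  set ψ : ι → ℕ → ℝ := fun G => env (fun i => ϕ (ρ i) < m i ∧ γ i = G) ρ m lo (κ G) with hψ
  set UN : ι → Finset ℕ := fun G => (Finset.range N).filter fun a =>
    ϕ (ρ (a + 1)) < m (a + 1) ∧ γ (a + 1) = G ∧ up G ∧ x G - H G ≤ ρ a with hUN
  set DN : ι → Finset ℕ := fun G => (Finset.range N).filter fun j =>
    x G ≤ ρ j ∧ ρ (j + 1) ≤ x G + ℓ G + H G with hDN
  have hL : Lev (fun l => ∑ a ∈ Finset.range N, ind (m a) (m (a + 1)) l)
      (∑ a ∈ Finset.range N, max (m (a + 1) - m a) 0) := Lev.sum _ fun a _ => Lev.ind _ _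
  have hR : Lev (fun l => ind lo hi l + ∑ j ∈ Finset.range N, ind (ϕ (ρ j)) (Φ j) l +
      ∑ G ∈ S, (ind (α G) (β G) l + ∑ a ∈ UN G, ind (m a) (m (a + 1)) l +
        ∑ j ∈ DN G, ind (ψ G (j + 1)) (ψ G j) l))
      (max (hi - lo) 0 + ∑ j ∈ Finset.range N, max (Φ j - ϕ (ρ j)) 0 +
      ∑ G ∈ S, (max (β G - α G) 0 + ∑ a ∈ UN G, max (m (a + 1) - m a) 0 +
        ∑ j ∈ DN G, max (ψ G j - ψ G (j + 1)) 0)) :=
    ((Lev.ind _ _).add (Lev.sum _ fun a _ => Lev.ind _ _)).add (Lev.sum _ fun G _ =>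
      ((Lev.ind _ _).add (Lev.sum _ fun a _ => Lev.ind _ _)).add (Lev.sum _ fun a _ => Lev.ind _ _))
  have key := hL.le hR ?_
  · rw [max_eq_left (by linarith [hlo 0, hhi 0])] at key
    refine key.trans (add_le_add le_rfl (Finset.sum_le_sum fun G hG => ?_))
    have h1 : ∑ a ∈ UN G, max (m (a + 1) - m a) 0 ≤ κ G * (ℓ G + H G) := by
      have h2 : ∑ a ∈ UN G, max (m (a + 1) - m a) 0 ≤ ∑ a ∈ UN G, κ G * (ρ (a + 1) - ρ a) := by
        refine Finset.sum_le_sum fun a ha => ?_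
        obtain ⟨-, h3, h4, h5, h6⟩ := Finset.mem_filter.1 ha
        subst h4
        exact max_le (hup (a + 1) h3 h5 a (by omega) h6)
          (mul_nonneg (hκ _ hG) (sub_nonneg.2 (hρ (Nat.le_succ a))))
      rw [← Finset.mul_sum] at h2
      refine h2.trans (mul_le_mul_of_nonneg_left ?_ (hκ G hG))
      have := tele_le ρ hρ N (x G - H G) (x G + ℓ G) (by linarith [hℓ G hG, hH G hG]) (UN G)
        fun a ha => by
          obtain ⟨h7, h3, h4, h5, h6⟩ := Finset.mem_filter.1 ha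
          exact ⟨Finset.mem_range.1 h7, h6, h4 ▸ (hx _ h3).2⟩
      linarith
    have h2 : ∑ j ∈ DN G, max (ψ G j - ψ G (j + 1)) 0 ≤ κ G * (ℓ G + H G) := by
      have h2 : ∑ j ∈ DN G, max (ψ G j - ψ G (j + 1)) 0 ≤
          ∑ a ∈ DN G, κ G * (ρ (a + 1) - ρ a) := by
        refine Finset.sum_le_sum fun a _ => ?_
        exact max_le (env_step _ _ _ _ _ _)
          (mul_nonneg (hκ _ hG) (sub_nonneg.2 (hρ (Nat.le_succ a))))
      rw [← Finset.mul_sum] at h2
      refine h2.trans (mul_le_mul_of_nonneg_left ?_ (hκ G hG))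
      have := tele_le ρ hρ N (x G) (x G + ℓ G + H G) (by linarith [hℓ G hG, hH G hG]) (DN G)
        fun a ha => by
          obtain ⟨h2, h3, h4⟩ := Finset.mem_filter.1 ha
          exact ⟨Finset.mem_range.1 h2, h3, h4⟩
      linarith
    linarith
  intro l
  set Up := (Finset.range N).filter fun a => m a ≤ l ∧ l < m (a + 1) with hUp
  set A0 := Up.filter fun a => ∀ k, a < k → k ≤ N → l < m k with hA0
  set A1 := Up.filter fun a => ∃ j, j < N ∧ a ≤ j ∧ (∀ k, a < k → k ≤ j → l < m k) ∧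
    ϕ (ρ j) ≤ l ∧ l < Φ j with hA1
  set AF : ι → Finset ℕ := fun G => Up.filter fun a => (α G ≤ l ∧ l < β G) ∧
    x G ≤ ρ (a + 1) ∧ ρ (a + 1) ≤ x G + ℓ G ∧ ((up G ∧ ρ a < x G - H G) ∨
      (¬ up G ∧ ∃ b, a < b ∧ (∀ k, a < k → k < b → l < m k) ∧ x G + ℓ G + H G < ρ b)) with hAF
  set AU : ι → Finset ℕ := fun G => (UN G).filter fun a => m a ≤ l ∧ l < m (a + 1) with hAU
  set AD : ι → Finset ℕ := fun G => Up.filter fun a => ∃ j ∈ DN G, a ≤ j ∧
    (∀ k, a < k → k ≤ j → l < m k) ∧ ψ G (j + 1) ≤ l ∧ l < ψ G j with hAD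
  have hsub : Up ⊆ A0 ∪ A1 ∪ S.biUnion fun G => AF G ∪ AU G ∪ AD G := by
    intro a ha
    obtain ⟨haN, ha1, ha2⟩ := Finset.mem_filter.1 ha
    have haN' := Finset.mem_range.1 haN
    by_cases h0 : ∀ k, a < k → k ≤ N → l < m k
    · exact Finset.mem_union_left _ (Finset.mem_union_left _ (Finset.mem_filter.2 ⟨ha, h0⟩))
    have hex : ∃ b, a < b ∧ b ≤ N ∧ m b ≤ l := by
      by_contra hc
      exact h0 fun k h1 h2 => not_le.1 fun h3 => hc ⟨k, h1, h2, h3⟩
    set b := Nat.find hex with hb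
    obtain ⟨hb1, hb2, hb3⟩ : a < b ∧ b ≤ N ∧ m b ≤ l := Nat.find_spec hex
    have hb4 : ∀ k, a < k → k < b → l < m k := fun k h1 h2 =>
      not_le.1 fun h3 => Nat.find_min hex h2 ⟨h1, by omega, h3⟩
    have hb5 : a + 1 < b := by
      rcases Nat.lt_or_ge (a + 1) b with h | h
      · exact h
      · have : b = a + 1 := by omega
        rw [this] at hb3; linarith
    by_cases h1 : ∃ j, a ≤ j ∧ j < b ∧ l < Φ j
    · refine Finset.mem_union_left _ (Finset.mem_union_right _ (Finset.mem_filter.2 ⟨ha, ?_⟩))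
      obtain ⟨hj1, hj2, hj3⟩ := Nat.find_spec h1
      refine ⟨Nat.find h1, by omega, hj1, fun k h2 h3 => hb4 k h2 (by omega), ?_, hj3⟩
      rcases Nat.eq_or_lt_of_le hj1 with h2 | h2
      · rw [← h2]; exact (hϕ a).trans ha1
      · obtain ⟨j', hj'⟩ : ∃ j', Nat.find h1 = j' + 1 := ⟨Nat.find h1 - 1, by omega⟩
        have h3 := Nat.find_min h1 (m := j') (by omega)
        have h4 : Φ j' ≤ l := not_lt.1 fun h5 => h3 ⟨by omega, by omega, h5⟩
        rw [hj']
        exact (hΦ j' _ (hρ (Nat.le_succ j')) le_rfl).trans h4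
    have hbad : ∀ y, ρ a ≤ y → y ≤ ρ b → ϕ y ≤ l := by
      have : ∀ n, a < n → n ≤ b → ∀ y, ρ a ≤ y → y ≤ ρ n → ϕ y ≤ l := by
        intro n hn
        induction n, hn using Nat.le_induction with
        | base =>
          intro h2 y h3 h4
          exact (hΦ a y h3 h4).trans (not_lt.1 fun h5 => h1 ⟨a, le_rfl, by omega, h5⟩)
        | succ n hn ih =>
          intro h2 y h3 h4
          rcases le_total y (ρ n) with h5 | h5
          · exact ih (by omega) y h3 h5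
          · exact (hΦ n y h5 h4).trans (not_lt.1 fun h6 => h1 ⟨n, by omega, by omega, h6⟩)
      exact this b hb1 le_rfl
    have hdet : ϕ (ρ (a + 1)) < m (a + 1) :=
      (hbad _ (hρ (Nat.le_succ a)) (hρ hb5.le)).trans_lt ha2
    have hG := hS (a + 1) (by omega) hdet
    refine Finset.mem_union_right _ (Finset.mem_biUnion.2 ⟨γ (a + 1), hG, ?_⟩)
    obtain ⟨hx1, hx2⟩ := hx _ hdet
    by_cases hu : up (γ (a + 1))
    · rcases lt_or_ge (ρ a) (x (γ (a + 1)) - H (γ (a + 1))) with h2 | h2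
      · refine Finset.mem_union_left _ (Finset.mem_union_left _ (Finset.mem_filter.2
          ⟨ha, hfar (a + 1) a b l (by omega) hb5 ha1 hb3 ha2 hbad (Or.inl ⟨hu, h2⟩), hx1, hx2,
            Or.inl ⟨hu, h2⟩⟩))
      · exact Finset.mem_union_left _ (Finset.mem_union_right _ (Finset.mem_filter.2
          ⟨Finset.mem_filter.2 ⟨haN, hdet, rfl, hu, h2⟩, ha1, ha2⟩))
    · rcases lt_or_ge (x (γ (a + 1)) + ℓ (γ (a + 1)) + H (γ (a + 1))) (ρ b) with h2 | h2
      · refine Finset.mem_union_left _ (Finset.mem_union_left _ (Finset.mem_filter.2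
          ⟨ha, hfar (a + 1) a b l (by omega) hb5 ha1 hb3 ha2 hbad (Or.inr ⟨hu, h2⟩), hx1, hx2,
            Or.inr ⟨hu, b, hb1, hb4, h2⟩⟩))
      · refine Finset.mem_union_right _ (Finset.mem_filter.2 ⟨ha, ?_⟩)
        have e1 : l < ψ (γ (a + 1)) (a + 1) :=
          ha2.trans_le (env_ge (fun i => ϕ (ρ i) < m i ∧ γ i = γ (a + 1)) ρ m lo _ (a + 1)
            ⟨hdet, rfl⟩)
        have e2 : ψ (γ (a + 1)) b ≤ l := by
          rcases env_le (fun i => ϕ (ρ i) < m i ∧ γ i = γ (a + 1)) ρ m lo (κ (γ (a + 1))) hρ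
            (hκ _ hG) b with h3 | ⟨i, h3, ⟨h4, h5⟩, h6⟩
          · exact h3.trans ((hlo b).trans hb3)
          · rcases Nat.eq_or_lt_of_le h3 with h7 | h7
            · subst h7
              refine h6.trans ?_
              simpa using hb3
            · have := hdown i h4 (by rw [h5]; exact hu) b h7 (by rw [h5]; exact h2)
              rw [h5] at this
              exact h6.trans (by linarith)
        have hex2 : ∃ j, a + 1 ≤ j ∧ ψ (γ (a + 1)) (j + 1) ≤ l :=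
          ⟨b - 1, by omega, by rw [show b - 1 + 1 = b by omega]; exact e2⟩
        obtain ⟨hj1, hj2⟩ := Nat.find_spec hex2
        have hj3 : Nat.find hex2 ≤ b - 1 :=
          Nat.find_min' hex2 ⟨by omega, by rw [show b - 1 + 1 = b by omega]; exact e2⟩
        refine ⟨Nat.find hex2, Finset.mem_filter.2 ⟨Finset.mem_range.2 (by omega),
          hx1.trans (hρ hj1), (hρ (by omega : Nat.find hex2 + 1 ≤ b)).trans h2⟩, by omega,
          fun k h3 h4 => hb4 k h3 (by omega), hj2, ?_⟩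
        rcases Nat.eq_or_lt_of_le hj1 with h3 | h3
        · rw [← h3]; exact e1
        · obtain ⟨j', hj'⟩ : ∃ j', Nat.find hex2 = j' + 1 := ⟨Nat.find hex2 - 1, by omega⟩
          have h4 := Nat.find_min hex2 (m := j') (by omega)
          rw [hj']
          exact not_le.1 fun h5 => h4 ⟨by omega, h5⟩
  have c0 : (A0.card : ℝ) ≤ ind lo hi l := by
    rcases A0.eq_empty_or_nonempty with h | ⟨a, ha⟩
    · rw [h]; simpa using ind_nonneg lo hi l
    · obtain ⟨h1, -⟩ := Finset.mem_filter.1 ha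
      obtain ⟨-, h2, h3⟩ := Finset.mem_filter.1 h1
      rw [ind_of ((hlo a).trans h2) (h3.trans_le (hhi _))]
      have := card_le_of_run m l A0 {N} fun a ha => by
        obtain ⟨h1, h4⟩ := Finset.mem_filter.1 ha
        obtain ⟨h5, h2, h3⟩ := Finset.mem_filter.1 h1
        exact ⟨h2, N, by simp, (Finset.mem_range.1 h5).le, h4⟩
      exact_mod_cast this
  have c1 : (A1.card : ℝ) ≤ ∑ j ∈ Finset.range N, ind (ϕ (ρ j)) (Φ j) l := by
    rw [sum_ind_eq_card]
    have := card_le_of_run m l A1 ((Finset.range N).filter fun j => ϕ (ρ j) ≤ l ∧ l < Φ j)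
      fun a ha => by
        obtain ⟨h1, j, h4, h5, h6, h7⟩ := Finset.mem_filter.1 ha
        obtain ⟨-, h2, -⟩ := Finset.mem_filter.1 h1
        exact ⟨h2, j, Finset.mem_filter.2 ⟨Finset.mem_range.2 h4, h7⟩, h5, h6⟩
    exact_mod_cast this
  have cF : ∀ G ∈ S, ((AF G).card : ℝ) ≤ ind (α G) (β G) l := by
    intro G hG
    rcases (AF G).eq_empty_or_nonempty with h | ⟨a, ha⟩
    · rw [h]; simpa using ind_nonneg (α G) (β G) l
    · obtain ⟨-, h1, -⟩ := Finset.mem_filter.1 ha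
      rw [ind_of h1.1 h1.2]
      have aux : ∀ a ∈ AF G, ∀ a' ∈ AF G, ¬ a < a' := by
        intro a ha a' ha' hlt
        obtain ⟨h2, -, h3, h4, h5⟩ := Finset.mem_filter.1 ha
        obtain ⟨h2', -, h3', h4', h5'⟩ := Finset.mem_filter.1 ha'
        obtain ⟨-, h6, -⟩ := Finset.mem_filter.1 h2'
        rcases h5 with h5 | ⟨h5, b, h7, h8, h9⟩
        · rcases h5' with h5' | h5'
          · have := hρ (show a + 1 ≤ a' from hlt)
            linarith [h5'.2, hH G hG]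
          · exact h5'.1 h5.1
        · have h10 : b ≤ a' := not_lt.1 fun h11 => absurd (h8 a' hlt h11) (not_lt.2 h6)
          have := hρ (show b ≤ a' + 1 by omega)
          linarith [hH G hG]
      have : (AF G).card ≤ 1 := Finset.card_le_one.2 fun a ha a' ha' =>
        le_antisymm (not_lt.1 (aux a' ha' a ha)) (not_lt.1 (aux a ha a' ha'))
      exact_mod_cast this
  have cU : ∀ G, ((AU G).card : ℝ) = ∑ a ∈ UN G, ind (m a) (m (a + 1)) l := fun G => by
    rw [sum_ind_eq_card]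
  have cD : ∀ G, ((AD G).card : ℝ) ≤ ∑ j ∈ DN G, ind (ψ G (j + 1)) (ψ G j) l := by
    intro G
    rw [sum_ind_eq_card]
    have := card_le_of_run m l (AD G) ((DN G).filter fun j => ψ G (j + 1) ≤ l ∧ l < ψ G j)
      fun a ha => by
        obtain ⟨h1, j, h4, h5, h6, h7⟩ := Finset.mem_filter.1 ha
        obtain ⟨-, h2, -⟩ := Finset.mem_filter.1 h1
        exact ⟨h2, j, Finset.mem_filter.2 ⟨h4, h7⟩, h5, h6⟩
    exact_mod_cast this
  have ctot : Up.card ≤ A0.card + A1.card +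
      ∑ G ∈ S, ((AF G).card + (AU G).card + (AD G).card) := by
    refine (Finset.card_le_card hsub).trans ((Finset.card_union_le _ _).trans
      (add_le_add (Finset.card_union_le _ _) (Finset.card_biUnion_le.trans
        (Finset.sum_le_sum fun G _ => ?_))))
    exact (Finset.card_union_le _ _).trans (add_le_add (Finset.card_union_le _ _) le_rfl)
  have ctot' : (Up.card : ℝ) ≤ A0.card + A1.card +
      ∑ G ∈ S, (((AF G).card : ℝ) + (AU G).card + (AD G).card) := by exact_mod_cast ctot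
  rw [sum_ind_eq_card]
  refine ctot'.trans (add_le_add (add_le_add c0 c1) (Finset.sum_le_sum fun G hG => ?_))
  exact add_le_add (add_le_add (cF G hG) (cU G).le) (cD G)

end Pool.Agent.MP_bf8c07_an_h89

end

-- part MP_bf8c07_an_h89.Block
section

/-!
Variation bound for the small-radius maximal function on a block `[R, 2R]`.
-/

set_option autoImplicit false
open MeasureTheory Set Metric

namespace Pool.Agent.MP_bf8c07_an_h89

lemma geom_sqrt_sum (w r₀ : ℝ) (hw : 0 ≤ w) (hr : 0 < r₀) (M : ℕ) :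
    ∑ k ∈ Finset.range (M + 1), √(w / (r₀ / 2 ^ (k + 1))) ≤ 4 * √(w / (r₀ / 2 ^ (M + 1))) := by
  induction M with
  | zero =>
    rw [Finset.sum_range_one]
    linarith [Real.sqrt_nonneg (w / (r₀ / 2 ^ (0 + 1)))]
  | succ M ih =>
    rw [Finset.sum_range_succ]
    have h0 : 0 ≤ w / (r₀ / 2 ^ (M + 1)) := by positivity
    have h1 : w / (r₀ / 2 ^ (M + 1 + 1)) = 2 * (w / (r₀ / 2 ^ (M + 1))) := by
      field_simp
      ring
    have h2 : 4 / 3 * √(w / (r₀ / 2 ^ (M + 1))) ≤ √(w / (r₀ / 2 ^ (M + 1 + 1))) := by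
      refine Real.le_sqrt_of_sq_le ?_
      rw [mul_pow, Real.sq_sqrt h0, h1]
      nlinarith
    linarith

lemma window_count (r₀ : ℝ) (hr : 0 < r₀) (S : Finset (ℕ × ℤ)) (x y : ℝ) (hxy : x < y) :
    ∑ G ∈ S, (if G.2 * (r₀ / 2 ^ (G.1 + 1) / 8) - 6 * (r₀ / 2 ^ (G.1 + 1)) < x ∧
        y ≤ G.2 * (r₀ / 2 ^ (G.1 + 1) / 8) + 7 * (r₀ / 2 ^ (G.1 + 1))
      then √((y - x) / (r₀ / 2 ^ (G.1 + 1))) else 0) ≤ 1680 := by
  classical
  set L : ℕ → ℝ := fun k => r₀ / 2 ^ (k + 1) with hL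
  have hL0 : ∀ k, 0 < L k := fun k => by positivity
  set P : ℕ × ℤ → Prop := fun G => G.2 * (L G.1 / 8) - 6 * L G.1 < x ∧
    y ≤ G.2 * (L G.1 / 8) + 7 * L G.1 with hP
  change ∑ G ∈ S, (if P G then √((y - x) / L G.1) else 0) ≤ 1680
  rw [← Finset.sum_filter]
  set T := (S.filter P).image Prod.fst with hT
  rw [← Finset.sum_fiberwise_of_maps_to (s := S.filter P) (t := T) (g := Prod.fst)
    (fun G hG => Finset.mem_image_of_mem _ hG)]
  have h1 : ∀ k ∈ T, ∑ G ∈ (S.filter P).filter (fun G => G.1 = k), √((y - x) / L G.1) ≤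
      105 * √((y - x) / L k) := by
    intro k _
    have e1 : ∑ G ∈ (S.filter P).filter (fun G => G.1 = k), √((y - x) / L G.1) =
        ∑ G ∈ (S.filter P).filter (fun G => G.1 = k), √((y - x) / L k) :=
      Finset.sum_congr rfl fun G hG => by rw [(Finset.mem_filter.1 hG).2]
    rw [e1, Finset.sum_const, nsmul_eq_mul]
    refine mul_le_mul_of_nonneg_right ?_ (Real.sqrt_nonneg _)
    have e2 : ((S.filter P).filter (fun G => G.1 = k)).card ≤
        (Finset.Icc (⌊x / (L k / 8)⌋ - 56) (⌊x / (L k / 8)⌋ + 48)).card := by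
      refine Finset.card_le_card_of_injOn Prod.snd (fun G hG => ?_) ?_
      · obtain ⟨h2, h3⟩ := Finset.mem_filter.1 hG
        obtain ⟨-, h4, h5⟩ := Finset.mem_filter.1 h2
        rw [h3] at h4 h5
        have h6 := hL0 k
        have h7 : (G.2 : ℝ) - 48 < x / (L k / 8) := by
          rw [lt_div_iff₀ (by positivity)]; linarith
        have h8 : x / (L k / 8) < G.2 + 56 := by
          rw [div_lt_iff₀ (by positivity)]; linarith
        have h9 : G.2 - 48 ≤ ⌊x / (L k / 8)⌋ := Int.le_floor.2 (by push_cast; linarith)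
        have h10 : ⌊x / (L k / 8)⌋ < G.2 + 56 := Int.floor_lt.2 (by push_cast; linarith)
        simp only [Finset.coe_Icc, mem_Icc]
        constructor <;> omega
      · intro G hG G' hG' h
        have h2 := (Finset.mem_filter.1 hG).2
        have h3 := (Finset.mem_filter.1 hG').2
        exact Prod.ext (h2.trans h3.symm) h
    rw [Int.card_Icc] at e2
    have e3 : (⌊x / (L k / 8)⌋ + 48 + 1 - (⌊x / (L k / 8)⌋ - 56)).toNat = 105 := by omega
    rw [e3] at e2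
    exact_mod_cast e2
  refine (Finset.sum_le_sum h1).trans ?_
  rw [← Finset.mul_sum]
  rcases T.eq_empty_or_nonempty with h | h
  · rw [h]; simp
  have h2 : ∑ k ∈ T, √((y - x) / L k) ≤ ∑ k ∈ Finset.range (T.max' h + 1), √((y - x) / L k) :=
    Finset.sum_le_sum_of_subset_of_nonneg
      (fun k hk => Finset.mem_range.2 (Nat.lt_succ_of_le (T.le_max' k hk)))
      fun _ _ _ => Real.sqrt_nonneg _
  have h3 : ∑ k ∈ Finset.range (T.max' h + 1), √((y - x) / L k) ≤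
      4 * √((y - x) / L (T.max' h)) := geom_sqrt_sum (y - x) r₀ (by linarith) hr (T.max' h)
  have h4 : √((y - x) / L (T.max' h)) ≤ 4 := by
    obtain ⟨G, hG, h5⟩ := Finset.mem_image.1 (T.max'_mem h)
    obtain ⟨-, h6, h7⟩ := Finset.mem_filter.1 hG
    rw [h5] at h6 h7
    rw [Real.sqrt_le_left (by norm_num), div_le_iff₀ (hL0 _)]
    linarith [hL0 (T.max' h)]
  linarith

lemma group_any (n : ℕ) : ∃ C : ℝ, 0 ≤ C ∧ ∀ (c ω : ℝ) (ϕ : ℝ → ℝ) (En : ℝ → ℝ → ℝ → ℝ)
    (side : ℝ → ℝ → Prop), EnT c (6 * c) ω ϕ En side → Continuous ϕ → 0 < c → 0 ≤ ω →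
    (∀ a b L, 0 ≤ En a b L) → (∀ a b a' b' L, a' ≤ a → b ≤ b' → En a b L ≤ En a' b' L) →
    ∀ x L : ℝ, 0 < L → c ≤ x - 6 * L → x + 7 * L ≤ 6 * c →
      ∃ (H κ α β : ℝ) (up : Prop), GroupOK n ϕ x L
        (C * (En (x - 6 * L) (x + 7 * L) L + ω)) H κ α β up := by
  cases n with
  | zero =>
    refine ⟨128 / om 1 + 4, by have := om_pos 1; positivity, ?_⟩
    intro c ω ϕ En side hT hc hc0 hω hE hmono x L hL hA hB
    exact group_one hT hc hc0.le hω hE hmono hL hA hB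
  | succ n =>
    refine ⟨48 * (n + 1) * (om (n + 1) / om (n + 2)),
      by have := om_pos (n + 1); have := om_pos (n + 2); positivity, ?_⟩
    intro c ω ϕ En side hT hc hc0 hω hE _ x L hL hA hB
    exact group_high hT hc hc0 hω hE n hL hA hB

theorem block_var (n : ℕ) : ∃ C : ℝ, 0 ≤ C ∧ ∀ (R : ℝ) (ϕ p : ℝ → ℝ), 0 < R → Continuous ϕ →
    (∀ x y, R / 2 ≤ x → x ≤ y → y ≤ 3 * R → |ϕ y - ϕ x| ≤ p y - p x) →
    ∀ (N : ℕ) (ρ : ℕ → ℝ), Monotone ρ → (∀ i, ρ i ∈ Icc R (2 * R)) →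
      ∑ i ∈ Finset.range N, |mx (avU n ϕ (ρ (i + 1))) 0 (R / 16) - mx (avU n ϕ (ρ i)) 0 (R / 16)| ≤
        C * (p (3 * R) - p (R / 2)) := by
  classical
  obtain ⟨C, hC, hG⟩ := group_any n
  refine ⟨8 + 2 * (C * (2 * 1680)), by positivity, ?_⟩
  intro R ϕ p hR hc hp N ρ hρ hρR
  set V := p (3 * R) - p (R / 2) with hV
  set m : ℕ → ℝ := fun i => mx (avU n ϕ (ρ i)) 0 (R / 16) with hm
  have hpm : ∀ x y, R / 2 ≤ x → x ≤ y → y ≤ 3 * R → p x ≤ p y := fun x y h1 h2 h3 => by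
    linarith [hp x y h1 h2 h3, abs_nonneg (ϕ y - ϕ x)]
  have hV0 : 0 ≤ V := sub_nonneg.2 (hpm _ _ le_rfl (by linarith) le_rfl)
  have hosc : ∀ t, R / 2 ≤ t → t ≤ 3 * R → ϕ (R / 2) - V ≤ ϕ t ∧ ϕ t ≤ ϕ (R / 2) + V := by
    intro t h1 h2
    have h3 := abs_le.1 (hp _ _ le_rfl h1 h2)
    have h4 := hpm _ _ h1 h2 le_rfl
    constructor <;> linarith [h3.1, h3.2]
  have hϕm : ∀ j, ϕ (ρ j) ≤ m j := fun j => by
    rw [← avU_zero n ϕ (by linarith [(hρR j).1] : 0 ≤ ρ j)]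
    exact le_mx (continuous_avU _ hc _) le_rfl (by linarith)
  have havg : ∀ j r, 0 < r → r ≤ R / 16 → avg n ϕ (ρ j) r ≤ m j := fun j r h1 h2 => by
    rw [avg_eq_avU _ _ _ h1]
    exact le_mx (continuous_avU _ hc _) h1.le h2
  have hlo : ∀ j, ϕ (R / 2) - V ≤ m j := fun j =>
    (hosc _ (by linarith [(hρR j).1]) (by linarith [(hρR j).2])).1.trans (hϕm j)
  have hhi : ∀ j, m j ≤ ϕ (R / 2) + V := fun j => by
    refine mx_le (by linarith) fun r h1 h2 => ?_
    rcases eq_or_lt_of_le h1 with h3 | h3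
    · rw [← h3, avU_zero n ϕ (by linarith [(hρR j).1] : 0 ≤ ρ j)]
      exact (hosc _ (by linarith [(hρR j).1]) (by linarith [(hρR j).2])).2
    · rw [← avg_eq_avU _ _ _ h3]
      exact avg_le' hc h3 (by linarith [(hρR j).1]) fun t h4 h5 =>
        (hosc _ (by linarith [(hρR j).1]) (by linarith [(hρR j).2])).2
  have hrad : ∀ i, ∃ (r : ℝ) (k : ℕ), ϕ (ρ i) < m i → m i = avg n ϕ (ρ i) r ∧
      R / 16 / 2 ^ (k + 1) < r ∧ r ≤ 2 * (R / 16 / 2 ^ (k + 1)) := by
    intro i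
    obtain ⟨r, hr, e⟩ := mx_attained (continuous_avU n hc (ρ i)) (by linarith : 0 ≤ R / 16)
    rcases eq_or_lt_of_le hr.1 with h3 | h3
    · refine ⟨0, 0, fun h => absurd h (not_lt.2 (le_of_eq ?_))⟩
      rw [← avU_zero n ϕ (by linarith [(hρR i).1] : 0 ≤ ρ i), h3]
      exact e
    · obtain ⟨k, h4, h5⟩ := exists_nat_pow_near_of_lt_one (x := r / (R / 16)) (y := 1 / 2)
        (by positivity) (by rw [div_le_one (by linarith)]; exact hr.2) (by norm_num) (by norm_num)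
      refine ⟨r, k, fun _ => ⟨by rw [avg_eq_avU _ _ _ h3]; exact e, ?_, ?_⟩⟩
      · rw [lt_div_iff₀ (by linarith), one_div, inv_pow] at h4
        rw [div_eq_inv_mul]
        exact h4
      · rw [div_le_iff₀ (by linarith), one_div, inv_pow] at h5
        have : 2 * (R / 16 / 2 ^ (k + 1)) = (2 ^ k)⁻¹ * (R / 16) := by field_simp; ring
        rw [this]
        exact h5
  choose r k hrk using hrad
  set L : ℕ × ℤ → ℝ := fun G => R / 16 / 2 ^ (G.1 + 1) with hL
  have hL0 : ∀ G, 0 < L G := fun G => by positivity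
  have hL1 : ∀ G, 2 * L G ≤ R / 16 := fun G => by
    have h1 : (1 : ℝ) ≤ 2 ^ G.1 := one_le_pow₀ (by norm_num)
    have h2 : 2 * L G = R / 16 / 2 ^ G.1 := by simp only [hL]; field_simp; ring
    rw [h2]
    exact div_le_self (by linarith) h1
  set x : ℕ × ℤ → ℝ := fun G => G.2 * (L G / 8) with hx
  set γ : ℕ → ℕ × ℤ := fun i => (k i, ⌊ρ i / (R / 16 / 2 ^ (k i + 1) / 8)⌋) with hγ
  have hcell : ∀ i, x (γ i) ≤ ρ i ∧ ρ i ≤ x (γ i) + L (γ i) / 8 := by
    intro i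
    have h0 : 0 < L (γ i) / 8 := by linarith [hL0 (γ i)]
    have h1 := Int.floor_le (ρ i / (L (γ i) / 8))
    have h2 := Int.lt_floor_add_one (ρ i / (L (γ i) / 8))
    rw [le_div_iff₀ h0] at h1
    rw [div_lt_iff₀ h0] at h2
    exact ⟨h1, by change ρ i ≤ ⌊ρ i / (L (γ i) / 8)⌋ * (L (γ i) / 8) + L (γ i) / 8; linarith⟩
  set S := (Finset.range (N + 1)).image γ with hS
  have hvalid : ∀ i, R / 2 ≤ x (γ i) - 6 * L (γ i) ∧ x (γ i) + 7 * L (γ i) ≤ 6 * (R / 2) := by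
    intro i
    have := hcell i
    have := hL1 (γ i)
    have := hL0 (γ i)
    constructor <;> linarith [(hρR i).1, (hρR i).2]
  have main : ∀ ω : ℝ, 0 < ω → ∑ a ∈ Finset.range N, max (m (a + 1) - m a) 0 ≤
      3 * V + C * (2 * 1680) * V + C * (N + 1) * ω := by
    intro ω hω
    obtain ⟨En, side, hE, hmono, hT, hsum⟩ := energy (R / 2) (3 * R) (by linarith) ϕ hc p hp ω hω
    have hT' : EnT (R / 2) (6 * (R / 2)) ω ϕ En side := by
      rw [show 6 * (R / 2) = 3 * R by ring]; exact hT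
    have hdata : ∀ G : ℕ × ℤ, ∃ (H κ α β : ℝ) (up : Prop),
        R / 2 ≤ x G - 6 * L G → x G + 7 * L G ≤ 6 * (R / 2) → GroupOK n ϕ (x G) (L G)
          (C * (En (x G - 6 * L G) (x G + 7 * L G) (L G) + ω)) H κ α β up := by
      intro G
      by_cases h : R / 2 ≤ x G - 6 * L G ∧ x G + 7 * L G ≤ 6 * (R / 2)
      · obtain ⟨H, κ, α, β, up, h1⟩ := hG (R / 2) ω ϕ En side hT' hc (by linarith) hω.le hE hmono
          (x G) (L G) (hL0 G) h.1 h.2
        exact ⟨H, κ, α, β, up, fun _ _ => h1⟩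
      · exact ⟨0, 0, 0, 0, True, fun h1 h2 => absurd ⟨h1, h2⟩ h⟩
    choose H κ α β up hok using hdata
    have hok' : ∀ i, GroupOK n ϕ (x (γ i)) (L (γ i))
        (C * (En (x (γ i) - 6 * L (γ i)) (x (γ i) + 7 * L (γ i)) (L (γ i)) + ω))
        (H (γ i)) (κ (γ i)) (α (γ i)) (β (γ i)) (up (γ i)) := fun i =>
      hok _ (hvalid i).1 (hvalid i).2
    have hokS : ∀ G ∈ S, GroupOK n ϕ (x G) (L G)
        (C * (En (x G - 6 * L G) (x G + 7 * L G) (L G) + ω)) (H G) (κ G) (α G) (β G) (up G) := by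
      intro G hG
      obtain ⟨i, -, rfl⟩ := Finset.mem_image.1 hG
      exact hok' i
    have hav2 : ∀ i j, ∀ r', 0 < r' → r' ≤ 2 * L (γ i) → avg n ϕ (ρ j) r' ≤ m j :=
      fun i j r' h1 h2 => havg j r' h1 (h2.trans (hL1 _))
    have key := count_core N ρ m (fun j => mx ϕ (ρ j) (ρ (j + 1))) ϕ (ϕ (R / 2) - V)
      (ϕ (R / 2) + V) hρ hlo hhi hϕm (fun j y h1 h2 => le_mx hc h1 h2) γ S x (fun G => L G / 8)
      H κ α β up (fun i hi _ => Finset.mem_image_of_mem _ (Finset.mem_range.2 (by omega)))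
      (fun G _ => by linarith [hL0 G]) (fun G hG => (hokS G hG).1) (fun G hG => (hokS G hG).2.1)
      (fun i _ => hcell i)
      (fun i hi hu j hj h1 => by
        obtain ⟨e, h2, h3⟩ := hrk i hi
        rw [e]
        exact ((hok' i).2.2.2 (ρ i) (r i) (hcell i).1 (hcell i).2 h2 h3).1 hu (ρ j) (m j) h1
          (hρ hj.le) (hav2 i j))
      (fun i hi hu j hj h1 => by
        obtain ⟨e, h2, h3⟩ := hrk i hi
        rw [e]
        exact ((hok' i).2.2.2 (ρ i) (r i) (hcell i).1 (hcell i).2 h2 h3).2.1 hu (ρ j) (m j)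
          (hρ hj.le) h1 (hav2 i j))
      (fun i a b l h1 h2 h3 h4 h5 h6 h7 => by
        have hi : ϕ (ρ i) < m i := (h6 _ (hρ h1.le) (hρ h2.le)).trans_lt h5
        obtain ⟨e, h8, h9⟩ := hrk i hi
        exact ((hok' i).2.2.2 (ρ i) (r i) (hcell i).1 (hcell i).2 h8 h9).2.2 (ρ a) (ρ b) l
          (hρ h1.le) (hρ h2.le) (fun r' h10 h11 => (hav2 i a r' h10 h11).trans h3)
          (fun r' h10 h11 => (hav2 i b r' h10 h11).trans h4) (e ▸ h5) h6 h7)
    have b1 : ∑ j ∈ Finset.range N, max (mx ϕ (ρ j) (ρ (j + 1)) - ϕ (ρ j)) 0 ≤ V := by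
      have h1 : ∑ j ∈ Finset.range N, max (mx ϕ (ρ j) (ρ (j + 1)) - ϕ (ρ j)) 0 ≤
          ∑ j ∈ Finset.range N, (p (ρ (j + 1)) - p (ρ j)) := by
        refine Finset.sum_le_sum fun j _ => ?_
        have h2 := hρ (Nat.le_succ j)
        have h3 := hρR j
        have h4 := hρR (j + 1)
        refine max_le ?_ (sub_nonneg.2 (hpm _ _ (by linarith [h3.1]) h2 (by linarith [h4.2])))
        obtain ⟨s, hs, e⟩ := mx_attained hc h2
        rw [e]
        have h5 := hp (ρ j) s (by linarith [h3.1]) hs.1 (by linarith [hs.2, h4.2])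
        have h6 := hpm s (ρ (j + 1)) (by linarith [h3.1, hs.1]) hs.2 (by linarith [h4.2])
        linarith [le_abs_self (ϕ s - ϕ (ρ j))]
      rw [Finset.sum_range_sub (f := fun j => p (ρ j))] at h1
      have h2 := hpm (ρ N) (3 * R) (by linarith [(hρR N).1]) (by linarith [(hρR N).2]) le_rfl
      have h3 := hpm (R / 2) (ρ 0) le_rfl (by linarith [(hρR 0).1]) (by linarith [(hρR 0).2])
      linarith
    have b2 : ∑ G ∈ S, (2 * (κ G * (L G / 8 + H G)) + max (β G - α G) 0) ≤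
        ∑ G ∈ S, C * (En (x G - 6 * L G) (x G + 7 * L G) (L G) + ω) :=
      Finset.sum_le_sum fun G hG => (hokS G hG).2.2.1
    have b3 := hsum (ℕ × ℤ) S (fun G => x G - 6 * L G) (fun G => x G + 7 * L G) L 1680
      (by norm_num) fun u v huv => window_count (R / 16) (by linarith) S u v huv
    rw [← Finset.mul_sum, Finset.sum_add_distrib (g := fun _ => ω), Finset.sum_const,
      nsmul_eq_mul] at b2
    have b4 : (S.card : ℝ) ≤ N + 1 := by
      have := Finset.card_image_le (s := Finset.range (N + 1)) (f := γ)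
      rw [Finset.card_range] at this
      exact_mod_cast this
    have b5 : C * (∑ G ∈ S, En (x G - 6 * L G) (x G + 7 * L G) (L G) + S.card * ω) ≤
        C * (2 * 1680 * V + (N + 1) * ω) := by gcongr
    linarith
  have main' : ∑ a ∈ Finset.range N, max (m (a + 1) - m a) 0 ≤ 3 * V + C * (2 * 1680) * V := by
    refine le_of_forall_pos_le_add fun ε hε => ?_
    have h0 : 0 < C * (N + 1) + 1 := by positivity
    have h1 := main (ε / (C * (N + 1) + 1)) (by positivity)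
    have h2 : C * (N + 1) * (ε / (C * (N + 1) + 1)) ≤ ε := by
      rw [← mul_div_assoc, div_le_iff₀ h0]; nlinarith
    linarith
  have habs : ∑ i ∈ Finset.range N, |m (i + 1) - m i| =
      2 * ∑ a ∈ Finset.range N, max (m (a + 1) - m a) 0 - (m N - m 0) := by
    rw [← Finset.sum_range_sub, Finset.mul_sum, ← Finset.sum_sub_distrib]
    refine Finset.sum_congr rfl fun i _ => ?_
    rcases le_total 0 (m (i + 1) - m i) with h | h
    · rw [abs_of_nonneg h, max_eq_left h]; ring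
    · rw [abs_of_nonpos h, max_eq_right h]; ring
  change ∑ i ∈ Finset.range N, |m (i + 1) - m i| ≤ _
  rw [habs]
  linarith [hlo N, hhi 0]

end Pool.Agent.MP_bf8c07_an_h89

end

-- part MP_bf8c07_an_h89.Max
section

/-!
The maximal function along a ray: variation bound and absolute continuity on a block `[R, 2R]`.
-/

set_option autoImplicit false
open MeasureTheory Set Metric Filter Topology

namespace Pool.Agent.MP_bf8c07_an_h89

/-- supremum of the ball averages over a set of radii -/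
noncomputable def sp (n : ℕ) (F : ℝ → ℝ) (S : Set ℝ) (ρ : ℝ) : ℝ := sSup (avg n F ρ '' S)

lemma sp_le {n : ℕ} {F : ℝ → ℝ} {S : Set ℝ} {ρ c : ℝ} (hS : S.Nonempty)
    (h : ∀ r ∈ S, avg n F ρ r ≤ c) : sp n F S ρ ≤ c :=
  csSup_le (hS.image _) (forall_mem_image.2 h)

lemma avg_dilate (n : ℕ) (F : ℝ → ℝ) {ρ s : ℝ} (hρ : 0 < ρ) :
    avg n F ρ (ρ * s) = (∫ y in ball (ax n 1) s, F (ρ * ‖y‖)) / (s ^ (n + 1) * om (n + 1)) := by
  have h1 := setIntegral_ball_affine (n + 1) (fun y => F ‖y‖) 0 (ax n 1) hρ s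
  simp only [zero_add, ax_smul, mul_one, norm_smul, Real.norm_of_nonneg hρ.le] at h1
  unfold avg
  rw [h1, mul_pow, mul_assoc, mul_div_mul_left _ _ (by positivity)]

namespace Prof

variable {n : ℕ} {F a : ℝ → ℝ}

lemma avg0 (P : Prof n F a) (ρ : ℝ) {r : ℝ} (hr : 0 < r) : 0 ≤ avg n F ρ r :=
  le_avg hr P.Fi.integrableOn fun _ _ => P.F0 _

lemma avg_le_K (P : Prof n F a) (ρ : ℝ) {r η : ℝ} (hη : 0 < η) (hr : η ≤ r) :
    avg n F ρ r ≤ (∫ y : Sp (n + 1), F ‖y‖) / (η ^ (n + 1) * om (n + 1)) := by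
  have h0 := om_pos (n + 1)
  unfold avg
  refine div_le_div₀ (integral_nonneg fun _ => P.F0 _)
    (setIntegral_le_integral P.Fi (Eventually.of_forall fun _ => P.F0 _)) (by positivity) ?_
  exact mul_le_mul_of_nonneg_right (pow_le_pow_left₀ hη.le hr _) h0.le

lemma bdd (P : Prof n F a) {ρ : ℝ} (hρ : 0 < ρ) : BddAbove (avg n F ρ '' Ioi 0) := by
  obtain ⟨c, hc⟩ := (isCompact_Icc (a := ρ / 2) (b := 2 * ρ)).bddAbove_image
    (P.cont.mono fun t ht => (half_pos hρ).trans_le ht.1)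
  refine ⟨max c ((∫ y : Sp (n + 1), F ‖y‖) / ((ρ / 2) ^ (n + 1) * om (n + 1))), ?_⟩
  rintro _ ⟨r, hr, rfl⟩
  rcases le_total r (ρ / 2) with h | h
  · refine (avg_le hr P.Fi.integrableOn fun y hy => ?_).trans (le_max_left _ _)
    have := norm_mem_ball hρ.le hy
    exact hc ⟨_, ⟨by linarith [this.1], by linarith [this.2]⟩, rfl⟩
  · exact (P.avg_le_K ρ (half_pos hρ) h).trans (le_max_right _ _)

lemma le_sp (P : Prof n F a) {S : Set ℝ} (hS : S ⊆ Ioi 0) {ρ r : ℝ} (hρ : 0 < ρ) (hr : r ∈ S) :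
    avg n F ρ r ≤ sp n F S ρ :=
  le_csSup ((P.bdd hρ).mono (image_mono hS)) ⟨r, hr, rfl⟩

lemma dil_int (P : Prof n F a) {ρ : ℝ} (hρ : 0 < ρ) :
    Integrable (fun y : Sp (n + 1) => F (ρ * ‖y‖)) := by
  have := P.Fi.comp_smul hρ.ne'
  simpa only [norm_smul, Real.norm_of_nonneg hρ.le] using this

lemma dil_aux (P : Prof n F a) {R ρ₁ ρ₂ : ℝ} (hR : 0 < R) (h1 : ρ₁ ∈ Icc R (2 * R))
    (h2 : ρ₂ ∈ Icc R (2 * R)) :
    ∫ y in ball (0 : Sp (n + 1)) 5, |F (ρ₂ * ‖y‖) - F (ρ₁ * ‖y‖)| ≤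
      (n + 1) * om (n + 1) * (132 * (|ρ₂ - ρ₁| * (W n a R / R ^ (n + 1)))) := by
  wlog h : ρ₁ ≤ ρ₂ generalizing ρ₁ ρ₂ with H
  · have := H h2 h1 (le_of_not_ge h)
    simpa only [abs_sub_comm (F (ρ₁ * _)), abs_sub_comm ρ₁] using this
  have hρ₁ : 0 < ρ₁ := hR.trans_le h1.1
  have hρ₂ : 0 < ρ₂ := hR.trans_le h2.1
  have hi : IntegrableOn (fun y : Sp (n + 1) => |F (ρ₂ * ‖y‖) - F (ρ₁ * ‖y‖)|) (ball 0 5) :=
    ((P.dil_int hρ₂).sub (P.dil_int hρ₁)).abs.integrableOn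
  have hi' := (integrableOn_fun_norm_addHaar (volume : Measure (Sp (n + 1)))
    (f := fun u => |F (ρ₂ * u) - F (ρ₁ * u)|) (r := 5)).1 hi
  rw [finrank_euclideanSpace_fin] at hi'
  rw [setIntegral_ball_norm n (fun u => |F (ρ₂ * u) - F (ρ₁ * u)|)]
  have h0 := om_pos (n + 1)
  refine mul_le_mul_of_nonneg_left ?_ (by positivity)
  refine (P.dil_1d hR h1.1 h h2.2 hi').trans ?_
  refine (mul_le_mul_of_nonneg_left (P.W2 hR) (div_nonneg (by linarith) (by positivity))).trans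
    (le_of_eq ?_)
  rw [abs_of_nonneg (by linarith)]
  field_simp
  ring

lemma dil (P : Prof n F a) {R ρ₁ ρ₂ s : ℝ} (hR : 0 < R) (h1 : ρ₁ ∈ Icc R (2 * R))
    (h2 : ρ₂ ∈ Icc R (2 * R)) (hs : 1 / 32 ≤ s) (hs' : s ≤ 4) :
    avg n F ρ₂ (ρ₂ * s) - avg n F ρ₁ (ρ₁ * s) ≤
      32 ^ (n + 1) * (n + 1) * 132 * (|ρ₂ - ρ₁| * (W n a R / R ^ (n + 1))) := by
  have hρ₁ : 0 < ρ₁ := hR.trans_le h1.1
  have hρ₂ : 0 < ρ₂ := hR.trans_le h2.1
  have hs0 : 0 < s := by linarith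
  have h0 := om_pos (n + 1)
  have hW := P.W0 hR
  have hi := (P.dil_int hρ₂).sub (P.dil_int hρ₁)
  rw [avg_dilate n F hρ₁, avg_dilate n F hρ₂, ← sub_div,
    ← integral_sub (P.dil_int hρ₂).integrableOn (P.dil_int hρ₁).integrableOn,
    div_le_iff₀ (by positivity)]
  have e1 : ∫ y in ball (ax n 1) s, (F (ρ₂ * ‖y‖) - F (ρ₁ * ‖y‖)) ≤
      ∫ y in ball (ax n 1) s, |F (ρ₂ * ‖y‖) - F (ρ₁ * ‖y‖)| :=
    integral_mono hi.integrableOn hi.abs.integrableOn fun _ => le_abs_self _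
  have e2 : ∫ y in ball (ax n 1) s, |F (ρ₂ * ‖y‖) - F (ρ₁ * ‖y‖)| ≤
      ∫ y in ball (0 : Sp (n + 1)) 5, |F (ρ₂ * ‖y‖) - F (ρ₁ * ‖y‖)| := by
    refine setIntegral_mono_set hi.abs.integrableOn (Eventually.of_forall fun _ => abs_nonneg _)
      (LE.le.eventuallyLE fun y hy => ?_)
    have := (norm_mem_ball zero_le_one hy).2
    rw [mem_ball_zero_iff]
    linarith
  have e3 := P.dil_aux hR h1 h2
  have e4 : 1 ≤ 32 ^ (n + 1) * s ^ (n + 1) := by
    rw [← mul_pow]; exact one_le_pow₀ (by linarith)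
  have e5 : 0 ≤ (n + 1) * om (n + 1) * (132 * (|ρ₂ - ρ₁| * (W n a R / R ^ (n + 1)))) := by
    positivity
  have e6 := mul_le_mul_of_nonneg_right e4 e5
  linarith

lemma trans (P : Prof n F a) {R ρ₁ ρ₂ r : ℝ} (hR : 0 < R) (h1 : ρ₁ ∈ Icc R (2 * R))
    (h2 : ρ₂ ∈ Icc R (2 * R)) (hr : 4 * R ≤ r) :
    avg n F ρ₂ r - avg n F ρ₁ r ≤
      10 * (om n / om (n + 1)) * (|ρ₂ - ρ₁| * (W n a R / R ^ (n + 1))) := by
  have hρ₁ : 0 < ρ₁ := hR.trans_le h1.1
  have hρ₂ : 0 < ρ₂ := hR.trans_le h2.1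
  have hr0 : 0 < r := by linarith
  set I := ∫ t in (r / 2)..(3 * r / 2), a t with hI
  have hI0 : 0 ≤ I := intervalIntegral.integral_nonneg (by linarith) fun t _ => P.a0 t
  have key : ∀ t, r / 2 ≤ t → t ≤ 3 * r / 2 → |F t - F (r / 2)| ≤ I := by
    intro t t1 t2
    refine (P.osc _ _ (half_pos hr0) t1).trans ?_
    exact intervalIntegral.integral_mono_interval le_rfl t1 t2
      (Eventually.of_forall fun t => P.a0 t) (P.ii (half_pos hr0) (by positivity))
  have e1 := avg_translate (n := n) (F := F) (ρ₁ := ρ₁) (ρ₂ := ρ₂) (lo := F (r / 2) - I)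
    (hi := F (r / 2) + I) hr0 (by linarith) P.Fi.integrableOn P.Fi.integrableOn
    (fun y hy => by
      have a1 := (norm_mem_ball hρ₁.le hy.1).2
      have a2 := norm_notMem_ball hρ₂.le hy.2
      have := abs_le.1 (key ‖y‖ (by linarith [h2.2]) (by linarith [h1.2]))
      linarith [this.1])
    (fun y hy => by
      have a1 := (norm_mem_ball hρ₂.le hy.1).2
      have a2 := norm_notMem_ball hρ₁.le hy.2
      have := abs_le.1 (key ‖y‖ (by linarith [h1.2]) (by linarith [h2.2]))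
      linarith [this.2])
  refine e1.trans ?_
  have h0 := om_pos (n + 1)
  have h0' := om_pos n
  have e2 : (F (r / 2) + I - (F (r / 2) - I)) * |ρ₂ - ρ₁| * (om n / om (n + 1)) / r =
      (2 * |ρ₂ - ρ₁| * (om n / om (n + 1)) / r) * I := by ring
  rw [e2]
  refine (mul_le_mul_of_nonneg_left (P.W3 hR hr) (by positivity)).trans (le_of_eq ?_)
  field_simp
  ring

/-- the supremum over large radii is Lipschitz on the block -/
lemma big_lip (P : Prof n F a) {R ρ₁ ρ₂ : ℝ} (hR : 0 < R) (h1 : ρ₁ ∈ Icc R (2 * R))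
    (h2 : ρ₂ ∈ Icc R (2 * R)) :
    |sp n F (Ici (ρ₂ / 32)) ρ₂ - sp n F (Ici (ρ₁ / 32)) ρ₁| ≤
      (32 ^ (n + 1) * (n + 1) * 132 + 10 * (om n / om (n + 1))) *
        (|ρ₂ - ρ₁| * (W n a R / R ^ (n + 1))) := by
  have h0 := om_pos (n + 1)
  have h0' := om_pos n
  have hW := P.W0 hR
  suffices H : ∀ ρ₁ ρ₂, ρ₁ ∈ Icc R (2 * R) → ρ₂ ∈ Icc R (2 * R) →
      sp n F (Ici (ρ₂ / 32)) ρ₂ - sp n F (Ici (ρ₁ / 32)) ρ₁ ≤
      (32 ^ (n + 1) * (n + 1) * 132 + 10 * (om n / om (n + 1))) *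
        (|ρ₂ - ρ₁| * (W n a R / R ^ (n + 1))) by
    rw [abs_sub_le_iff]
    refine ⟨H _ _ h1 h2, ?_⟩
    rw [abs_sub_comm]
    exact H _ _ h2 h1
  intro ρ₁ ρ₂ h1 h2
  have hρ₁ : 0 < ρ₁ := hR.trans_le h1.1
  have hρ₂ : 0 < ρ₂ := hR.trans_le h2.1
  have hS : Ici (ρ₁ / 32) ⊆ Ioi 0 := fun r hr =>
    lt_of_lt_of_le (by positivity : 0 < ρ₁ / 32) hr
  rw [sub_le_iff_le_add']
  refine sp_le nonempty_Ici fun r hr => ?_
  have hX : 0 ≤ |ρ₂ - ρ₁| * (W n a R / R ^ (n + 1)) := by positivity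
  have hA : 0 ≤ (32 : ℝ) ^ (n + 1) * (n + 1) * 132 * (|ρ₂ - ρ₁| * (W n a R / R ^ (n + 1))) := by
    positivity
  have hB : 0 ≤ 10 * (om n / om (n + 1)) * (|ρ₂ - ρ₁| * (W n a R / R ^ (n + 1))) := by
    positivity
  rw [add_mul]
  rcases le_total r (4 * R) with h | h
  · have s1 : 1 / 32 ≤ r / ρ₂ := by
      rw [le_div_iff₀ hρ₂]; linarith [mem_Ici.1 hr]
    have s2 : r / ρ₂ ≤ 4 := by
      rw [div_le_iff₀ hρ₂]; linarith [h2.1]
    have e1 := P.dil hR h1 h2 s1 s2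
    rw [mul_div_cancel₀ _ hρ₂.ne'] at e1
    have e2 := P.le_sp hS hρ₁ (r := ρ₁ * (r / ρ₂)) (by
      rw [mem_Ici]; nlinarith)
    linarith
  · have e1 := P.trans hR h1 h2 h
    have e2 := P.le_sp hS hρ₁ (r := r) (by rw [mem_Ici]; linarith [h1.2])
    linarith

lemma cont_cut (P : Prof n F a) {R : ℝ} (hR : 0 < R) : Continuous fun t => F (max t (R / 2)) :=
  P.cont.comp_continuous (by fun_prop) fun t => (half_pos hR).trans_le (le_max_right _ _)

lemma avU_cut {R ρ r : ℝ} (_hR : 0 < R) (h1 : R ≤ ρ) (hr : 0 < r) (hr' : r ≤ R / 16) :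
    avU n (fun t => F (max t (R / 2))) ρ r = avg n F ρ r := by
  rw [← avg_eq_avU _ _ _ hr]
  unfold avg
  congr 1
  refine setIntegral_congr_fun measurableSet_ball fun y hy => ?_
  have := (norm_mem_ball (by linarith) hy).1
  simp only
  rw [max_eq_left (by linarith)]

lemma small_le (P : Prof n F a) {R ρ r : ℝ} (hR : 0 < R) (h1 : R ≤ ρ) (hr : 0 ≤ r)
    (hr' : r ≤ R / 16) : avU n (fun t => F (max t (R / 2))) ρ r ≤ sp n F (Ioi 0) ρ := by
  have hρ : 0 < ρ := by linarith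
  have key : ∀ r, r ∈ Ioc 0 (R / 16) →
      avU n (fun t => F (max t (R / 2))) ρ r ≤ sp n F (Ioi 0) ρ := fun r hr => by
    rw [avU_cut hR h1 hr.1 hr.2]
    exact P.le_sp subset_rfl hρ hr.1
  have hc := continuous_avU n (P.cont_cut hR) ρ
  have hcl : r ∈ closure (Ioc 0 (R / 16)) := by
    rw [closure_Ioc (by positivity)]; exact ⟨hr, hr'⟩
  exact le_on_closure key hc.continuousOn continuousOn_const hcl

lemma F_le (P : Prof n F a) {ρ : ℝ} (hρ : 0 < ρ) : F ρ ≤ sp n F (Ioi 0) ρ := by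
  have := P.small_le hρ le_rfl le_rfl (by positivity)
  rwa [avU_zero _ _ hρ.le, max_eq_left (by linarith)] at this

lemma split (P : Prof n F a) {R ρ : ℝ} (hR : 0 < R) (h : ρ ∈ Icc R (2 * R)) :
    sp n F (Ioi 0) ρ = max (mx (avU n (fun t => F (max t (R / 2))) ρ) 0 (R / 16))
      (sp n F (Ici (ρ / 32)) ρ) := by
  have hρ : 0 < ρ := hR.trans_le h.1
  have hS : Ici (ρ / 32) ⊆ Ioi 0 := fun r hr =>
    lt_of_lt_of_le (by positivity : 0 < ρ / 32) hr
  refine le_antisymm (sp_le nonempty_Ioi fun r hr => ?_) (max_le ?_ ?_)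
  · rcases le_total r (R / 16) with h' | h'
    · rw [← avU_cut hR h.1 hr h']
      exact (le_mx (continuous_avU n (P.cont_cut hR) ρ) (le_of_lt hr) h').trans (le_max_left _ _)
    · exact (P.le_sp hS hρ (by rw [mem_Ici]; linarith [h.2])).trans (le_max_right _ _)
  · exact mx_le (by positivity) fun r r1 r2 => P.small_le hR h.1 r1 r2
  · exact sp_le nonempty_Ici fun r hr => P.le_sp subset_rfl hρ (hS hr)

/-- the supremum over radii bounded below is Lipschitz -/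
lemma vv_lip (P : Prof n F a) {R η : ℝ} (hR : 0 < R) (hη : 0 < η) :
    ∃ K : NNReal, LipschitzOnWith K (sp n F (Ici η)) (Icc R (2 * R)) := by
  set K := (∫ y : Sp (n + 1), F ‖y‖) / (η ^ (n + 1) * om (n + 1)) with hK
  have h0 := om_pos (n + 1)
  have hK0 : 0 ≤ K := div_nonneg (integral_nonneg fun _ => P.F0 _) (by positivity)
  have hS : Ici η ⊆ Ioi 0 := fun r hr => lt_of_lt_of_le hη hr
  set L := K * ((n + 1) * (1 + R / η) ^ n / η) with hL
  have hL0 : 0 ≤ L := by positivity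
  refine ⟨⟨L, hL0⟩, LipschitzOnWith.of_le_add_mul _ fun x hx y hy => ?_⟩
  have hy0 : 0 < y := hR.trans_le hy.1
  refine sp_le nonempty_Ici fun r hr => ?_
  have hr0 : 0 < r := hS hr
  set δ := dist x y with hδ
  have hδ0 : 0 ≤ δ := dist_nonneg
  have hδR : δ ≤ R := by
    rw [hδ, Real.dist_eq, abs_le]; constructor <;> linarith [hx.1, hx.2, hy.1, hy.2]
  have e1 : avg n F x r ≤ (1 + δ / r) ^ (n + 1) * avg n F y (r + δ) := by
    have hs : ball (ax n x) r ⊆ ball (ax n y) (r + δ) := by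
      refine ball_subset_ball' ?_
      rw [dist_eq_norm, ax_sub, norm_ax, hδ, Real.dist_eq]
    have := setIntegral_mono_set P.Fi.integrableOn (Eventually.of_forall fun _ => P.F0 _)
      hs.eventuallyLE
    unfold avg
    rw [div_le_iff₀ (by positivity)]
    refine this.trans (le_of_eq ?_)
    have e : 1 + δ / r = (r + δ) / r := by field_simp
    rw [e, div_pow]
    field_simp
  have e2 : avg n F y (r + δ) ≤ sp n F (Ici η) y :=
    P.le_sp hS hy0 (by rw [mem_Ici]; linarith [mem_Ici.1 hr])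
  have e3 : avg n F y (r + δ) ≤ K := P.avg_le_K y hη (by linarith [mem_Ici.1 hr])
  have e4 : 0 ≤ avg n F y (r + δ) := P.avg0 y (by linarith)
  have e5 : (1 + δ / r) ^ (n + 1) - 1 ≤ δ * ((n + 1) * (1 + R / η) ^ n / η) := by
    have a1 := abs_pow_sub_pow_le (1 + δ / r) 1 (n + 1)
    have a2 : 0 ≤ δ / r := by positivity
    have a3 : δ / r ≤ δ / η := div_le_div_of_nonneg_left hδ0 hη hr
    have a4 : δ / η ≤ R / η := div_le_div_of_nonneg_right hδR hη.le
    rw [one_pow, add_sub_cancel_left, abs_one, abs_of_nonneg a2,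
      abs_of_nonneg (by linarith : 0 ≤ 1 + δ / r), max_eq_left (by linarith),
      Nat.add_sub_cancel] at a1
    refine (le_abs_self _).trans (a1.trans ?_)
    push_cast
    have a5 : (1 + δ / r) ^ n ≤ (1 + R / η) ^ n := pow_le_pow_left₀ (by linarith) (by linarith) _
    calc δ / r * (n + 1) * (1 + δ / r) ^ n ≤ δ / η * (n + 1) * (1 + R / η) ^ n := by gcongr
      _ = _ := by ring
  have e6 : ((1 + δ / r) ^ (n + 1) - 1) * avg n F y (r + δ) ≤
      (δ * ((n + 1) * (1 + R / η) ^ n / η)) * K :=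
    mul_le_mul e5 e3 e4 (by positivity)
  change _ ≤ _ + L * δ
  rw [hL]
  linarith

lemma ac_max (P : Prof n F a) {R ε : ℝ} (hR : 0 < R) (hε : 0 < ε) :
    AbsolutelyContinuousOnInterval (fun x => max (sp n F (Ioi 0) x) (F x + ε)) R (2 * R) := by
  have huc := (isCompact_Icc (a := R / 2) (b := 3 * R)).uniformContinuousOn_of_continuous
    (P.cont.mono fun t ht => (half_pos hR).trans_le ht.1)
  obtain ⟨δ, hδ, hd⟩ := Metric.uniformContinuousOn_iff.1 huc ε hε
  set η := min δ (R / 2) with hη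
  have hη0 : 0 < η := lt_min hδ (half_pos hR)
  have hS : Ici η ⊆ Ioi 0 := fun r hr => lt_of_lt_of_le hη0 hr
  obtain ⟨K, hK⟩ := P.vv_lip hR hη0
  have hu : uIcc R (2 * R) = Icc R (2 * R) := uIcc_of_le (by linarith)
  have key : ∀ x ∈ Icc R (2 * R),
      max (sp n F (Ioi 0) x) (F x + ε) = max (sp n F (Ici η) x) (F x + ε) := by
    intro x hx
    have hx0 : 0 < x := hR.trans_le hx.1
    refine le_antisymm (max_le (sp_le nonempty_Ioi fun r hr => ?_) (le_max_right _ _))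
      (max_le_max (sp_le nonempty_Ici fun r hr => P.le_sp subset_rfl hx0 (hS hr)) le_rfl)
    rcases le_total r η with h | h
    · refine (avg_le hr P.Fi.integrableOn fun y hy => ?_).trans (le_max_right _ _)
      have b1 := norm_mem_ball hx0.le hy
      have b2 : η ≤ δ := min_le_left _ _
      have b3 : η ≤ R / 2 := min_le_right _ _
      have := hd ‖y‖ ⟨by linarith [b1.1, hx.1], by linarith [b1.2, hx.2]⟩ x
        ⟨by linarith [hx.1], by linarith [hx.2]⟩
        (by rw [Real.dist_eq, abs_lt]; constructor <;> linarith [b1.1, b1.2])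
      rw [Real.dist_eq, abs_lt] at this
      linarith [this.2]
    · exact (P.le_sp hS hx0 h).trans (le_max_left _ _)
  refine ac_of_le (hu ▸ hK).absolutelyContinuousOnInterval (P.ac hR (by positivity))
    fun x hx y hy => ?_
  rw [hu] at hx hy
  simp only [key x hx, key y hy]
  refine (abs_max_sub_max_le_max _ _ _ _).trans (max_le ?_ ?_)
  · linarith [abs_nonneg (F x - F y)]
  · rw [add_sub_add_right_eq_sub]
    linarith [abs_nonneg (sp n F (Ici η) x - sp n F (Ici η) y)]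

end Prof

/-- the block estimate for the full maximal function -/
theorem block_deriv (n : ℕ) : ∃ C : ℝ, 0 ≤ C ∧ ∀ (F a : ℝ → ℝ), Prof n F a → ∀ R, 0 < R →
    IntervalIntegrable (deriv (sp n F (Ioi 0))) volume R (2 * R) ∧
    (∀ x ∈ Icc R (2 * R), sp n F (Ioi 0) x - sp n F (Ioi 0) R =
      ∫ t in R..x, deriv (sp n F (Ioi 0)) t) ∧
    ∫ t in R..(2 * R), |deriv (sp n F (Ioi 0)) t| ≤ C * (W n a R / R ^ n) := by
  obtain ⟨C, hC, hB⟩ := block_var n
  have h0 := om_pos (n + 1)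
  have h0' := om_pos n
  set L : ℝ := 32 ^ (n + 1) * (n + 1) * 132 + 10 * (om n / om (n + 1)) with hL
  have hL0 : 0 ≤ L := by positivity
  refine ⟨C * (40 * 2 ^ n) + L, by positivity, fun F a P R hR => ?_⟩
  have hW := P.W0 hR
  have hv := var_bound (M := sp n F (Ioi 0)) (a := R) (b := 2 * R)
    (V := (C * (40 * 2 ^ n) + L) * (W n a R / R ^ n)) (by linarith) fun N ρ hρ hρR => by
      have e1 := hB R (fun t => F (max t (R / 2))) (fun x => ∫ t in (R / 2)..x, a t) hR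
        (P.cont_cut hR) (fun x y h1 h2 h3 => by
          have hx : 0 < x := (half_pos hR).trans_le h1
          rw [max_eq_left h1, max_eq_left (h1.trans h2),
            intervalIntegral.integral_interval_sub_left (P.ii (half_pos hR) (hx.trans_le h2))
              (P.ii (half_pos hR) hx)]
          exact P.osc x y hx h2) N ρ hρ hρR
      simp only [intervalIntegral.integral_same, sub_zero] at e1
      have e2 : ∑ i ∈ Finset.range N, |sp n F (Ici (ρ (i + 1) / 32)) (ρ (i + 1)) -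
          sp n F (Ici (ρ i / 32)) (ρ i)| ≤
          ∑ i ∈ Finset.range N, (L * (W n a R / R ^ (n + 1))) * (ρ (i + 1) - ρ i) := by
        refine Finset.sum_le_sum fun i _ => (P.big_lip hR (hρR i) (hρR (i + 1))).trans
          (le_of_eq ?_)
        rw [abs_of_nonneg (sub_nonneg.2 (hρ (Nat.le_succ i)))]
        ring
      rw [← Finset.mul_sum, Finset.sum_range_sub] at e2
      have e3 : L * (W n a R / R ^ (n + 1)) * (ρ N - ρ 0) ≤ L * (W n a R / R ^ n) := by
        refine (mul_le_mul_of_nonneg_left (by linarith [(hρR N).2, (hρR 0).1] : ρ N - ρ 0 ≤ R)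
          (by positivity)).trans (le_of_eq ?_)
        field_simp
        ring
      have e4 := mul_le_mul_of_nonneg_left (P.W1 hR) hC
      have e5 : C * (40 * 2 ^ n / R ^ n * W n a R) = C * (40 * 2 ^ n) * (W n a R / R ^ n) := by
        ring
      refine le_trans (Finset.sum_le_sum fun i _ => ?_)
        ((Finset.sum_add_distrib.trans_le (add_le_add e1 e2)).trans (by linarith))
      rw [P.split hR (hρR i), P.split hR (hρR (i + 1))]
      refine (abs_max_sub_max_le_max _ _ _ _).trans (max_le ?_ ?_)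
      · exact le_add_of_nonneg_right (abs_nonneg _)
      · exact le_add_of_nonneg_left (abs_nonneg _)
  refine ⟨hv.1.intervalIntegrable_deriv, fun x hx => ?_, hv.2⟩
  have hsub : uIcc R x ⊆ uIcc R (2 * R) := by
    rw [uIcc_of_le hx.1, uIcc_of_le (by linarith)]
    exact Icc_subset_Icc_right hx.2
  refine ftc_of_approx hx.1 (hv.1.mono hsub) (P.ac hR (hR.trans_le hx.1))
    (fun y hy => P.F_le (hR.trans_le hy.1)) fun ε hε => (P.ac_max hR hε).mono hsub

end Pool.Agent.MP_bf8c07_an_h89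

end

-- part MP_bf8c07_an_h89.Sum
section

/-!
Summation of the block estimates over dyadic blocks.
-/

set_option autoImplicit false
open MeasureTheory Set Metric Filter Topology

namespace Pool.Agent.MP_bf8c07_an_h89

/-- the potential whose dyadic differences are the block weights -/
noncomputable def Phi (n : ℕ) (a : ℝ → ℝ) (R : ℝ) : ℝ := ∫ t in Ioi 0, t ^ n * a t * (t / (t + R))

namespace Prof

variable {n : ℕ} {F a : ℝ → ℝ}

lemma phi_int (P : Prof n F a) {R : ℝ} (hR : 0 < R) :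
    IntegrableOn (fun t => t ^ n * a t * (t / (t + R))) (Ioi 0) := by
  refine Integrable.mul_bdd (c := 1) P.ai ?_ ?_
  · refine Measurable.aestronglyMeasurable ?_
    fun_prop
  · filter_upwards [ae_restrict_mem measurableSet_Ioi] with t ht
    have ht0 : 0 < t := ht
    rw [Real.norm_of_nonneg (by positivity), div_le_one (by positivity)]
    linarith

lemma W_eq (P : Prof n F a) {R : ℝ} (hR : 0 < R) : W n a R = Phi n a R - Phi n a (2 * R) := by
  unfold W Phi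
  rw [← integral_sub (P.phi_int hR) (P.phi_int (by positivity))]
  refine setIntegral_congr_fun measurableSet_Ioi fun t ht => ?_
  have ht0 : 0 < t := ht
  unfold kern
  field_simp
  ring

lemma phi0 (P : Prof n F a) {R : ℝ} (hR : 0 < R) : 0 ≤ Phi n a R :=
  setIntegral_nonneg measurableSet_Ioi fun t ht => by
    have ht0 : 0 < t := ht
    have := P.a0 t
    positivity

lemma phi_le (P : Prof n F a) {R : ℝ} (hR : 0 < R) : Phi n a R ≤ ∫ t in Ioi 0, t ^ n * a t := by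
  refine setIntegral_mono_on (P.phi_int hR) P.ai measurableSet_Ioi fun t ht => ?_
  have ht0 : 0 < t := ht
  have := P.a0 t
  refine mul_le_of_le_one_right (by positivity) ?_
  rw [div_le_one (by positivity)]
  linarith

end Prof

theorem global (n : ℕ) : ∃ C : ℝ, 0 ≤ C ∧ ∀ (F a : ℝ → ℝ), Prof n F a →
    (∀ x y, 0 < x → 0 < y → IntervalIntegrable (deriv (sp n F (Ioi 0))) volume x y ∧
      sp n F (Ioi 0) y - sp n F (Ioi 0) x = ∫ t in x..y, deriv (sp n F (Ioi 0)) t) ∧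
    IntegrableOn (fun t => t ^ n * |deriv (sp n F (Ioi 0)) t|) (Ioi 0) ∧
    ∫ t in Ioi 0, t ^ n * |deriv (sp n F (Ioi 0)) t| ≤ C * ∫ t in Ioi 0, t ^ n * a t := by
  obtain ⟨C, hC, hB⟩ := block_deriv n
  refine ⟨C * 2 ^ n, by positivity, fun F a P => ?_⟩
  set M := sp n F (Ioi 0) with hM
  have hcw : ∀ x y, IntervalIntegrable (deriv M) volume x y →
      IntervalIntegrable (fun t => t ^ n * |deriv M t|) volume x y := fun x y h =>
    h.abs.continuousOn_mul (by fun_prop)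
  have key : ∀ R, 0 < R → ∀ N : ℕ, IntervalIntegrable (deriv M) volume R (2 ^ N * R) ∧
      (∀ x ∈ Icc R (2 ^ N * R), M x - M R = ∫ t in R..x, deriv M t) ∧
      ∫ t in R..(2 ^ N * R), t ^ n * |deriv M t| ≤
        C * 2 ^ n * (Phi n a R - Phi n a (2 ^ N * R)) := by
    intro R hR N
    induction N with
    | zero =>
      simp only [pow_zero, one_mul, intervalIntegral.integral_same, sub_self, mul_zero, le_refl,
        and_true, Icc_self, mem_singleton_iff, forall_eq]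
      exact IntervalIntegrable.refl
    | succ N ih =>
      obtain ⟨i1, i2, i3⟩ := ih
      set S := 2 ^ N * R with hS
      have hS0 : 0 < S := by positivity
      have hRS : R ≤ S := le_mul_of_one_le_left hR.le (one_le_pow₀ one_le_two)
      have e : 2 ^ (N + 1) * R = 2 * S := by rw [hS]; ring
      rw [e]
      obtain ⟨j1, j2, j3⟩ := hB F a P S hS0
      refine ⟨i1.trans j1, fun x hx => ?_, ?_⟩
      · rcases le_total x S with h | h
        · exact i2 x ⟨hx.1, h⟩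
        · have j1' : IntervalIntegrable (deriv M) volume S x := j1.mono_set (by
            rw [uIcc_of_le h, uIcc_of_le (by linarith)]; exact Icc_subset_Icc_right hx.2)
          rw [← intervalIntegral.integral_add_adjacent_intervals i1 j1', ← i2 S ⟨hRS, le_rfl⟩,
            ← j2 x ⟨h, hx.2⟩]
          ring
      · rw [← intervalIntegral.integral_add_adjacent_intervals (hcw _ _ i1) (hcw _ _ j1)]
        have e1 : ∫ t in S..(2 * S), t ^ n * |deriv M t| ≤
            ∫ t in S..(2 * S), (2 * S) ^ n * |deriv M t| :=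
          intervalIntegral.integral_mono_on (by linarith) (hcw _ _ j1) (j1.abs.const_mul _)
            fun t ht => mul_le_mul_of_nonneg_right
              (pow_le_pow_left₀ (hS0.le.trans ht.1) ht.2 _) (abs_nonneg _)
        rw [intervalIntegral.integral_const_mul] at e1
        have e2 := mul_le_mul_of_nonneg_left j3 (by positivity : 0 ≤ (2 * S) ^ n)
        have e3 : (2 * S) ^ n * (C * (W n a S / S ^ n)) = C * 2 ^ n * W n a S := by
          rw [mul_pow]; field_simp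
        rw [e3, P.W_eq hS0] at e2
        linarith
  have hcov : AECover (volume.restrict (Ioi (0 : ℝ))) atTop
      fun i : ℕ => Ioi ((1 / 2 : ℝ) ^ i) ∩ Iic (2 ^ i) :=
    (aecover_Ioi_of_Ioi (tendsto_pow_atTop_nhds_zero_of_lt_one (by norm_num) (by norm_num))).inter
      (aecover_Iic (tendsto_pow_atTop_atTop_of_one_lt one_lt_two))
  have hpos : ∀ i : ℕ, (0 : ℝ) < (1 / 2) ^ i := fun i => by positivity
  have hend : ∀ i : ℕ, (2 : ℝ) ^ (2 * i) * (1 / 2) ^ i = 2 ^ i := fun i => by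
    rw [two_mul, pow_add, mul_assoc, ← mul_pow]; norm_num
  have hle : ∀ i : ℕ, ((1 / 2 : ℝ)) ^ i ≤ 2 ^ i := fun i =>
    pow_le_pow_left₀ (by norm_num) (by norm_num) _
  have hres : ∀ i : ℕ, (volume.restrict (Ioi (0 : ℝ))).restrict (Ioi ((1 / 2 : ℝ) ^ i) ∩ Iic (2 ^ i))
      = volume.restrict (Ioc ((1 / 2 : ℝ) ^ i) (2 ^ i)) := fun i => by
    rw [Ioi_inter_Iic, Measure.restrict_restrict measurableSet_Ioc,
      inter_eq_left.2 (show Ioc ((1 / 2 : ℝ) ^ i) (2 ^ i) ⊆ Ioi 0 from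
        fun t ht => (hpos i).trans ht.1)]
  have hbd : ∀ i : ℕ, ∫ t in Ioi ((1 / 2 : ℝ) ^ i) ∩ Iic (2 ^ i), t ^ n * |deriv M t|
      ∂(volume.restrict (Ioi (0 : ℝ))) ≤ C * 2 ^ n * ∫ t in Ioi 0, t ^ n * a t := fun i => by
    have k := (key _ (hpos i) (2 * i)).2.2
    rw [hend] at k
    rw [hres, ← intervalIntegral.integral_of_le (hle i)]
    refine k.trans (mul_le_mul_of_nonneg_left ?_ (by positivity))
    linarith [P.phi_le (hpos i), P.phi0 (R := 2 ^ i) (by positivity)]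
  have hint : IntegrableOn (fun t => t ^ n * |deriv M t|) (Ioi 0) := by
    refine hcov.integrable_of_integral_bounded_of_nonneg_ae _ (fun i => ?_) ?_
      (Eventually.of_forall hbd)
    · have k := (key _ (hpos i) (2 * i)).1
      rw [hend] at k
      rw [IntegrableOn, hres]
      exact (hcw _ _ k).1
    · filter_upwards [ae_restrict_mem measurableSet_Ioi] with t ht
      exact mul_nonneg (pow_nonneg (le_of_lt ht) _) (abs_nonneg _)
  refine ⟨fun x y hx hy => ?_, hint,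
    le_of_tendsto' (hcov.integral_tendsto_of_countably_generated hint) hbd⟩
  have hR : 0 < min x y := lt_min hx hy
  obtain ⟨N, hN⟩ := pow_unbounded_of_one_lt (max x y / min x y) (one_lt_two (α := ℝ))
  rw [div_lt_iff₀ hR] at hN
  obtain ⟨k1, k2, -⟩ := key _ hR N
  have mx' : x ∈ Icc (min x y) (2 ^ N * min x y) := ⟨min_le_left _ _, (le_max_left _ _).trans hN.le⟩
  have my' : y ∈ Icc (min x y) (2 ^ N * min x y) :=
    ⟨min_le_right _ _, (le_max_right _ _).trans hN.le⟩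
  have hu : uIcc (min x y) (2 ^ N * min x y) = Icc (min x y) (2 ^ N * min x y) :=
    uIcc_of_le (mx'.1.trans mx'.2)
  have ix : IntervalIntegrable (deriv M) volume (min x y) x :=
    k1.mono_set (uIcc_subset_uIcc left_mem_uIcc (hu ▸ mx'))
  have iy : IntervalIntegrable (deriv M) volume (min x y) y :=
    k1.mono_set (uIcc_subset_uIcc left_mem_uIcc (hu ▸ my'))
  refine ⟨ix.symm.trans iy, ?_⟩
  rw [← intervalIntegral.integral_interval_sub_left iy ix, ← k2 x mx', ← k2 y my']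
  ring

end Pool.Agent.MP_bf8c07_an_h89

end

-- part MP_bf8c07_an_h89.Final
section

/-!
Identification of the maximal function with its radial profile.
-/

set_option autoImplicit false
open MeasureTheory Set Metric Filter Topology

namespace Pool.Agent.MP_bf8c07_an_h89

lemma setIntegral_rotate (n : ℕ) (F : ℝ → ℝ) (x : Sp (n + 1)) (r : ℝ) :
    ∫ y in ball x r, F ‖y‖ = ∫ y in ball (ax n ‖x‖) r, F ‖y‖ := by
  have h : ‖x‖ = ‖ax n ‖x‖‖ := by rw [norm_ax, abs_norm]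
  set A := Submodule.reflection (Submodule.span ℝ {x - ax n ‖x‖})ᗮ with hA
  have h1 : A x = ax n ‖x‖ := Submodule.reflection_sub h
  have h2 := A.measurePreserving.setIntegral_preimage_emb
    A.toHomeomorph.measurableEmbedding (fun y => F ‖y‖) (ball (ax n ‖x‖) r)
  have h3 : A ⁻¹' ball (ax n ‖x‖) r = ball x r := by
    ext y
    rw [mem_preimage, ← h1, mem_ball, mem_ball, A.dist_map]
  rw [h3] at h2
  simpa only [A.norm_map] using h2

lemma max_eq (n : ℕ) {f : Sp (n + 1) → ℝ} (hf : Integrable f) {F a : ℝ → ℝ} (P : Prof n F a)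
    (hae : ∀ᵐ x, |f x| = F ‖x‖) {x : Sp (n + 1)} (hx : x ≠ 0) :
    (⨆ (r : ℝ) (_ : 0 < r), (volume (ball x r))⁻¹ * ∫⁻ y in ball x r, ‖f y‖ₑ) =
      ENNReal.ofReal (sp n F (Ioi 0) ‖x‖) := by
  have hx' : 0 < ‖x‖ := norm_pos_iff.2 hx
  have h0 := om_pos (n + 1)
  have e : ∀ r, 0 < r → (volume (ball x r))⁻¹ * ∫⁻ y in ball x r, ‖f y‖ₑ =
      ENNReal.ofReal (avg n F ‖x‖ r) := fun r hr => by
    have e1 : ∫ y in ball x r, ‖f y‖ = ∫ y in ball x r, F ‖y‖ :=
      integral_congr_ae (ae_restrict_of_ae hae)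
    rw [← ofReal_integral_norm_eq_lintegral_enorm hf.integrableOn, e1, setIntegral_rotate,
      vol_ball' _ _ hr, avg, ENNReal.ofReal_div_of_pos (by positivity), ENNReal.div_eq_inv_mul]
  have h1 : (⨆ (r : ℝ) (_ : 0 < r), (volume (ball x r))⁻¹ * ∫⁻ y in ball x r, ‖f y‖ₑ) ≤
      ENNReal.ofReal (sp n F (Ioi 0) ‖x‖) :=
    iSup₂_le fun r hr => by
      rw [e r hr]
      exact ENNReal.ofReal_le_ofReal (P.le_sp subset_rfl hx' hr)
  refine le_antisymm h1 (ENNReal.ofReal_le_of_le_toReal (sp_le nonempty_Ioi fun r hr => ?_))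
  rw [← ENNReal.ofReal_le_iff_le_toReal (h1.trans_lt ENNReal.ofReal_lt_top).ne, ← e r hr]
  exact le_iSup₂ (f := fun (r : ℝ) (_ : 0 < r) =>
    (volume (ball x r))⁻¹ * ∫⁻ y in ball x r, ‖f y‖ₑ) r hr

end Pool.Agent.MP_bf8c07_an_h89

end
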