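import Pool.Agent.MP_bf8c07_an_h89.Mg.Final
import Pool.Agent.MP_bf8c07_an_h89.HedgeDefs

/-!
Reduction of the real or complex, almost everywhere radial case to the profile lemma.
-/

set_option autoImplicit false
open MeasureTheory Set Metric Filter Topology
open scoped ContDiff

namespace Pool.Agent.MP_bf8c07_an_h89

lemma exists_radial_rep {m : ℕ} {u : Sp m → ℝ} (hu : Integrable u) (hr : IsAERadial u) :
    ∃ w : Sp m → ℝ, (∀ x y, ‖x‖ = ‖y‖ → w x = w y) ∧ w =ᵐ[volume] u := by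
  refine ⟨fun x => limUnder (𝓝[>] (0 : ℝ)) fun r => ⨍ y in closedBall x r, u y,
    fun x y h => ?_, ?_⟩
  · set A := Submodule.reflection (Submodule.span ℝ {x - y})ᗮ with hA
    have h1 : A x = y := Submodule.reflection_sub h
    have h3 : ∀ r, A ⁻¹' closedBall y r = closedBall x r := fun r => by
      ext z
      rw [mem_preimage, ← h1, mem_closedBall, mem_closedBall, A.dist_map]
    have h4 : (fun r => ⨍ z in closedBall x r, u z) = fun r => ⨍ z in closedBall y r, u z := by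
      funext r
      have h2 := A.measurePreserving.setIntegral_preimage_emb
        A.toHomeomorph.measurableEmbedding u (closedBall y r)
      rw [h3] at h2
      have h5 : ∫ z in closedBall x r, u (A z) = ∫ z in closedBall x r, u z :=
        integral_congr_ae (ae_restrict_of_ae (hr A))
      rw [setAverage_eq, setAverage_eq, ← h2, h5, Measure.real, Measure.real,
        Measure.addHaar_closedBall_center, Measure.addHaar_closedBall_center volume y]
    simp only [h4]
  · filter_upwards [(Besicovitch.vitaliFamily (volume : Measure (Sp m))).ae_tendsto_average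
      hu.locallyIntegrable] with x hx
    exact (hx.comp (Besicovitch.tendsto_filterAt volume x)).limUnder_eq

lemma weak_dir {m : ℕ} {u : Sp m → ℝ} {g : Sp m → Sp m} (hu : Integrable u) (hg : Integrable g)
    (hw : IsWeakGradient u g) (φ : Sp m → ℝ) (h1 : ContDiff ℝ ∞ φ) (h2 : HasCompactSupport φ)
    (v : Sp m) : ∫ x, u x * fderiv ℝ φ x v = - ∫ x, inner ℝ (g x) v * φ x := by
  have hv : v = ∑ i, v i • EuclideanSpace.single i (1 : ℝ) := by
    simpa using ((EuclideanSpace.basisFun (Fin m) ℝ).sum_repr v).symm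
  have e1 : ∀ x, u x * fderiv ℝ φ x v =
      ∑ i, v i * (fderiv ℝ φ x (EuclideanSpace.single i 1) • u x) := fun x => by
    conv_lhs => rw [hv]
    rw [map_sum, Finset.mul_sum]
    refine Finset.sum_congr rfl fun i _ => ?_
    rw [map_smul, smul_eq_mul, smul_eq_mul]
    ring
  have e2 : ∀ x, inner ℝ (g x) v * φ x = ∑ i, v i * (φ x • g x i) := fun x => by
    rw [PiLp.inner_apply, Finset.sum_mul]
    refine Finset.sum_congr rfl fun i _ => ?_
    simp only [smul_eq_mul, RCLike.inner_apply, conj_trivial]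
    ring
  simp only [e1, e2]
  rw [integral_finsetSum, integral_finsetSum, ← Finset.sum_neg_distrib]
  · refine Finset.sum_congr rfl fun i _ => ?_
    rw [integral_const_mul, integral_const_mul, hw.2.2 φ h1 h2 i, mul_neg]
  · intro i _
    obtain ⟨c, hc⟩ := exists_abs_bound h1.continuous h2
    exact (((EuclideanSpace.proj i : Sp m →L[ℝ] ℝ).integrable_comp hg).bdd_mul
      h1.continuous.aestronglyMeasurable (Eventually.of_forall hc)).const_mul _
  · intro i _
    obtain ⟨c, hc⟩ := exists_abs_bound (fderiv_apply_cont h1 (EuclideanSpace.single i 1))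
      (h2.fderiv_apply ℝ (EuclideanSpace.single i 1))
    exact (hu.bdd_mul (fderiv_apply_cont h1 _).aestronglyMeasurable
      (Eventually.of_forall hc)).const_mul _

lemma profile_ae (n : ℕ) {u : Sp (n + 1) → ℝ} {g : Sp (n + 1) → Sp (n + 1)}
    (hr : IsAERadial u) (hu : Integrable u) (hg : Integrable g) (hw : IsWeakGradient u g) :
    ∃ F a : ℝ → ℝ, Prof n F a ∧
      (n + 1) * om (n + 1) * ∫ t in Ioi 0, t ^ n * a t ≤ ∫ x, ‖g x‖ ∧ ∀ᵐ x, |u x| = F ‖x‖ := by
  obtain ⟨w, w1, w2⟩ := exists_radial_rep hu hr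
  obtain ⟨F, a, P, hb, hae⟩ := profile n w1 (hu.congr w2.symm) hg fun φ h1 h2 v => by
    rw [← weak_dir hu hg hw φ h1 h2 v]
    refine integral_congr_ae (w2.mono fun x hx => ?_)
    simp only [hx]
  refine ⟨F, a, P, hb, ?_⟩
  filter_upwards [hae, w2] with x h1 h2
  rw [← h2, h1]

variable {𝕜 : Type*} [RCLike 𝕜]

lemma profile_comp (n : ℕ) {f : Sp (n + 1) → 𝕜} {g : Sp (n + 1) → EuclideanSpace 𝕜 (Fin (n + 1))}
    (hr : IsAERadial f) (hf : Integrable f) (hg : Integrable g) (hw : IsWeakGradient f g)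
    (L : 𝕜 →L[ℝ] ℝ) (hL : ∀ z, |L z| ≤ ‖z‖) :
    ∃ F a : ℝ → ℝ, Prof n F a ∧
      (n + 1) * om (n + 1) * ∫ t in Ioi 0, t ^ n * a t ≤ ∫ x, ‖g x‖ ∧
      ∀ᵐ x, |L (f x)| = F ‖x‖ := by
  set T : EuclideanSpace 𝕜 (Fin (n + 1)) → Sp (n + 1) :=
    fun z => WithLp.toLp 2 fun i => L (z i) with hT
  have T1 : Continuous T := by
    rw [hT]
    fun_prop
  have T2 : ∀ z, ‖T z‖ ≤ ‖z‖ := fun z => by
    rw [EuclideanSpace.norm_eq, EuclideanSpace.norm_eq]
    refine Real.sqrt_le_sqrt (Finset.sum_le_sum fun i _ => ?_)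
    exact pow_le_pow_left₀ (norm_nonneg _) (hL _) 2
  have gi : Integrable fun x => T (g x) :=
    hg.norm.mono' (T1.comp_aestronglyMeasurable hg.1) (Eventually.of_forall fun x => T2 _)
  have fi : Integrable fun x => L (f x) := L.integrable_comp hf
  obtain ⟨F, a, P, hb, hae⟩ := profile_ae n (u := fun x => L (f x)) (g := fun x => T (g x))
    (fun R => (hr R).mono fun x hx => congrArg L hx) fi gi
    ⟨fi.locallyIntegrable, gi.locallyIntegrable, fun φ h1 h2 i => by
      obtain ⟨c, hc⟩ := exists_abs_bound h1.continuous h2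
      obtain ⟨c', hc'⟩ := exists_abs_bound (fderiv_apply_cont h1 (EuclideanSpace.single i 1))
        (h2.fderiv_apply ℝ (EuclideanSpace.single i 1))
      have i1 : Integrable fun x => fderiv ℝ φ x (EuclideanSpace.single i 1) • f x :=
        hf.bdd_smul c' (fderiv_apply_cont h1 _).aestronglyMeasurable (Eventually.of_forall hc')
      have i2 : Integrable fun x => φ x • g x i :=
        ((EuclideanSpace.proj i : EuclideanSpace 𝕜 (Fin (n + 1)) →L[𝕜] 𝕜).integrable_comp
          hg).bdd_smul c h1.continuous.aestronglyMeasurable (Eventually.of_forall hc)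
      have e := congrArg L (hw.2.2 φ h1 h2 i)
      rw [map_neg, ← L.integral_comp_comm i1, ← L.integral_comp_comm i2] at e
      simpa only [map_smul] using e⟩
  exact ⟨F, a, P, hb.trans (integral_mono gi.norm hg.norm fun x => T2 _), hae⟩

lemma abs_hypot_sub_le (a b c e : ℝ) :
    |√(a ^ 2 + b ^ 2) - √(c ^ 2 + e ^ 2)| ≤ |a - c| + |b - e| := by
  have h := abs_norm_sub_norm_le (⟨a, b⟩ : ℂ) ⟨c, e⟩
  have h2 := Complex.norm_le_abs_re_add_abs_im ((⟨a, b⟩ : ℂ) - ⟨c, e⟩)
  simp only [Complex.norm_eq_sqrt_sq_add_sq, Complex.sub_re, Complex.sub_im] at h h2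
  exact h.trans h2

lemma profile_rc (n : ℕ) {f : Sp (n + 1) → 𝕜} {g : Sp (n + 1) → EuclideanSpace 𝕜 (Fin (n + 1))}
    (hr : IsAERadial f) (hf : Integrable f) (hg : Integrable g) (hw : IsWeakGradient f g) :
    ∃ F a : ℝ → ℝ, Prof n F a ∧
      (n + 1) * om (n + 1) * ∫ t in Ioi 0, t ^ n * a t ≤ 2 * ∫ x, ‖g x‖ ∧
      ∀ᵐ x, ‖f x‖ = F ‖x‖ := by
  obtain ⟨F, a, P, hb, hae⟩ := profile_comp n hr hf hg hw RCLike.reCLM RCLike.abs_re_le_norm
  obtain ⟨G, b, Q, hb', hae'⟩ := profile_comp n hr hf hg hw RCLike.imCLM RCLike.abs_im_le_norm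
  have key : ∀ᵐ x, ‖f x‖ = √(F ‖x‖ ^ 2 + G ‖x‖ ^ 2) := by
    filter_upwards [hae, hae'] with x h1 h2
    rw [← h1, ← h2, sq_abs, sq_abs, ← RCLike.sqrt_normSq_eq_norm, RCLike.normSq_apply, sq, sq]
    rfl
  have hi : IntegrableOn (fun t => t ^ n * (a t + b t)) (Ioi 0) := by
    simp only [mul_add]
    exact P.ai.add Q.ai
  refine ⟨fun t => √(F t ^ 2 + G t ^ 2), fun t => a t + b t, ⟨fun _ => Real.sqrt_nonneg _,
    hf.norm.congr key, fun t => add_nonneg (P.a0 t) (Q.a0 t), P.am.add Q.am, hi,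
    fun x y hx hxy => ?_⟩, ?_, key⟩
  · rw [intervalIntegral.integral_add (P.ii hx (hx.trans_le hxy)) (Q.ii hx (hx.trans_le hxy))]
    exact (abs_hypot_sub_le _ _ _ _).trans (add_le_add (P.osc x y hx hxy) (Q.osc x y hx hxy))
  · simp only [mul_add]
    rw [integral_add P.ai Q.ai, mul_add]
    linarith

lemma maximal_eq (n : ℕ) {f : Sp (n + 1) → 𝕜} (hf : Integrable f) {F a : ℝ → ℝ} (P : Prof n F a)
    (hae : ∀ᵐ x, ‖f x‖ = F ‖x‖) {x : Sp (n + 1)} (hx : x ≠ 0) :
    maximal f x = ENNReal.ofReal (sp n F (Ioi 0) ‖x‖) := by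
  rw [← max_eq n hf.norm P (hae.mono fun y hy => by rw [abs_norm, hy]) hx, maximal]
  simp only [enorm_norm, ENNReal.div_eq_inv_mul]

end Pool.Agent.MP_bf8c07_an_h89
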